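import Pool.Agent.V11260.MS

/-! Windows around almost all directions: all but few scales, and sequences of scales. -/

set_option autoImplicit false

open Finset Filter Topology MeasureTheory

namespace Pool.Agent.V11260.MS

open scoped ENNReal

open Classical in
/-- from the bounded sums to the number of the exceptional scales -/
lemma card_of_sums {θ : ℝ} (hθ1 : θ ≤ 1) {Q : ℕ → Prop} {N₀ : ℕ} {G : ℝ}
    (h : ∀ F : Finset ℕ, (∀ N ∈ F, 1 ≤ N ∧ N₀ ≤ N ∧ Q N) → ∑ N ∈ F, (N : ℝ) ^ (θ - 1) ≤ G) (X : ℕ) :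
    (((Icc 1 X).filter Q).card : ℝ) ≤ ((N₀ : ℝ) + G) * (X : ℝ) ^ (1 - θ) := by
  have hG : 0 ≤ G := by simpa using h ∅ (by simp)
  rcases Nat.eq_zero_or_pos X with hX | hX
  · subst hX
    simp only [Icc_eq_empty_of_lt (Nat.zero_lt_one), filter_empty, card_empty, Nat.cast_zero]
    positivity
  have hX0 : (0 : ℝ) < X := by exact_mod_cast hX
  have hX1 : (1 : ℝ) ≤ X := by exact_mod_cast hX
  set F := (Icc 1 X).filter (fun N => N₀ ≤ N ∧ Q N) with hF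
  have h1 : (Icc 1 X).filter Q ⊆ Icc 1 N₀ ∪ F := by
    intro N hN
    rw [mem_filter, mem_Icc] at hN
    rw [mem_union]
    by_cases h2 : N₀ ≤ N
    · right; rw [hF, mem_filter, mem_Icc]; exact ⟨hN.1, h2, hN.2⟩
    · left; rw [mem_Icc]; omega
  have h2 : (((Icc 1 X).filter Q).card : ℝ) ≤ N₀ + F.card := by
    have h3 := (card_le_card h1).trans (card_union_le _ _)
    rw [Nat.card_Icc, Nat.add_sub_cancel] at h3
    exact_mod_cast h3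
  have h3 : (F.card : ℝ) * (X : ℝ) ^ (θ - 1) ≤ G := by
    refine le_trans ?_ (h F fun N hN => by
      rw [hF, mem_filter, mem_Icc] at hN
      exact ⟨hN.1.1, hN.2.1, hN.2.2⟩)
    rw [← nsmul_eq_mul]
    apply card_nsmul_le_sum
    intro N hN
    rw [hF, mem_filter, mem_Icc] at hN
    have hN1 : (0 : ℝ) < N := by exact_mod_cast hN.1.1
    have hNX : (N : ℝ) ≤ X := by exact_mod_cast hN.1.2
    exact Real.rpow_le_rpow_of_nonpos hN1 hNX (by linarith)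
  have h4 : (X : ℝ) ^ (θ - 1) * (X : ℝ) ^ (1 - θ) = 1 := by
    rw [← Real.rpow_add hX0]
    simp
  have h5 : (F.card : ℝ) ≤ G * (X : ℝ) ^ (1 - θ) := by
    calc (F.card : ℝ) = (F.card * (X : ℝ) ^ (θ - 1)) * (X : ℝ) ^ (1 - θ) := by rw [mul_assoc, h4, mul_one]
      _ ≤ G * (X : ℝ) ^ (1 - θ) := mul_le_mul_of_nonneg_right h3 (by positivity)
  have h6 : (1 : ℝ) ≤ (X : ℝ) ^ (1 - θ) := Real.one_le_rpow hX1 (by linarith)
  have h7 : (N₀ : ℝ) ≤ N₀ * (X : ℝ) ^ (1 - θ) := le_mul_of_one_le_right (Nat.cast_nonneg _) h6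
  rw [add_mul]
  linarith

/-- **windows along sequences of scales** -/
theorem ae_windows_seq {r : ℕ} (d : Fin r → ℕ) (K : ℕ) (Bad : ℕ → Set (Fin r → ℕ)) (P : ℕ → Prop) {δ θ : ℝ}
    (hθd : ∀ i, θ ≤ 1 / (d i : ℝ))
    (h : ∀ N : ℕ, 1 ≤ N → P N → cnt K d N (Bad N) ≤ (∏ i, (len K (d i) N : ℝ)) * (N : ℝ) ^ (-δ))
    (v : ℕ → ℕ) (hv1 : ∀ n, 1 ≤ v n ∧ P (v n)) (hv : Summable (fun n : ℕ => ((v n : ℕ) : ℝ) ^ (r * θ - δ))) :
    ∀ᵐ α : Fin r → ℝ, (∀ i, 0 ≤ α i ∧ α i ≤ K) →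
      ∀ᶠ n in atTop, ∀ m, Win d θ (v n) α m → m ∉ Bad (v n) := by
  choose S hS1 hS2 hS3 using fun n : ℕ => window_vol d K (Bad (v n)) (hv1 n).1 hθd (h (v n) (hv1 n).1 (hv1 n).2)
  have h1 : ∑' n, volume (S n) ≠ ⊤ := by
    refine ne_top_of_le_ne_top ?_ (ENNReal.tsum_le_tsum hS2)
    exact (hv.mul_left ((2 * ((K : ℝ) + 1)) ^ r)).tsum_ofReal_ne_top
  filter_upwards [ae_eventually_notMem h1] with α hα hαK
  filter_upwards [hα] with n hn m hm hmB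
  exact hn (hS3 n α hαK ⟨m, hm, hmB⟩)

/-- the lengths of the boxes are admissible for large scales -/
lemma len_ok {K D : ℕ} {δ : ℝ} (hδ : 0 < δ) : ∃ N₁ : ℕ, ∀ N : ℕ, N₁ ≤ N → 1 ≤ N → ∀ d : ℕ, 1 ≤ d → d ≤ D →
    (N : ℝ) ^ (1 - δ) ≤ (len K d N : ℝ) ^ d := by
  obtain ⟨N₁, hN₁⟩ : ∃ N₁ : ℕ, ∀ N : ℕ, N₁ ≤ N → (2 : ℝ) ^ D ≤ (N : ℝ) ^ δ := by
    have h1 : Filter.Tendsto (fun N : ℕ => (N : ℝ) ^ δ) Filter.atTop Filter.atTop :=
      (tendsto_rpow_atTop hδ).comp tendsto_natCast_atTop_atTop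
    obtain ⟨N₁, h2⟩ := Filter.eventually_atTop.1 (h1.eventually_ge_atTop ((2 : ℝ) ^ D))
    exact ⟨N₁, h2⟩
  refine ⟨N₁, fun N hN hN1 d hd hdD => ?_⟩
  have hN0 : (0 : ℝ) < N := by exact_mod_cast hN1
  refine le_trans ?_ (le_len_pow hd hN1)
  have h2 : (2 : ℝ) ^ d ≤ (N : ℝ) ^ δ := (pow_le_pow_right₀ (by norm_num) hdD).trans (hN₁ N hN)
  have h3 : (N : ℝ) ^ (1 - δ) * (N : ℝ) ^ δ = N := by
    rw [← Real.rpow_add hN0, sub_add_cancel, Real.rpow_one]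
  have h4 : (N : ℝ) ^ (1 - δ) * 2 ^ d ≤ N := by
    calc (N : ℝ) ^ (1 - δ) * 2 ^ d ≤ (N : ℝ) ^ (1 - δ) * (N : ℝ) ^ δ :=
          mul_le_mul_of_nonneg_left h2 (by positivity)
      _ = N := h3
  rw [one_div, inv_pow, ← div_eq_mul_inv, le_div_iff₀ (by positivity)]
  exact h4

/-- sequences of scales with a given property -/
lemma exists_seq {P : ℕ → Prop} (h : ∀ N₁ : ℕ, ∃ N : ℕ, N₁ ≤ N ∧ P N) :
    ∃ v : ℕ → ℕ, (∀ n, 2 ^ n ≤ v n) ∧ ∀ n, P (v n) := by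
  choose v hv1 hv2 using fun n : ℕ => h (2 ^ n)
  exact ⟨v, hv1, hv2⟩

lemma summable_seq {v : ℕ → ℕ} (hv : ∀ n, 2 ^ n ≤ v n) {s : ℝ} (hs : s < 0) :
    Summable (fun n : ℕ => ((v n : ℕ) : ℝ) ^ s) := by
  have h1 : Summable (fun n : ℕ => ((2 : ℝ) ^ s) ^ n) :=
    summable_geometric_of_lt_one (by positivity) (Real.rpow_lt_one_of_one_lt_of_neg (by norm_num) hs)
  refine Summable.of_nonneg_of_le (fun n => by positivity) (fun n => ?_) h1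
  have h2 : (2 : ℝ) ^ n ≤ (v n : ℝ) := by exact_mod_cast hv n
  calc ((v n : ℕ) : ℝ) ^ s ≤ ((2 : ℝ) ^ n) ^ s := Real.rpow_le_rpow_of_nonpos (by positivity) h2 hs.le
    _ = ((2 : ℝ) ^ s) ^ n := by
        rw [← Real.rpow_natCast (2 : ℝ) n, ← Real.rpow_mul (by norm_num), ← Real.rpow_natCast ((2 : ℝ) ^ s) n,
          ← Real.rpow_mul (by norm_num), mul_comm]

end Pool.Agent.V11260.MS
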