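import Pool.Agent.H107.MetricFam

/-!
`p`-adic windows along sequences of finite sets of integers.
-/

set_option autoImplicit false

namespace Pool.Agent.V11260.PQ

open Filter Topology MeasureTheory

/-- Let `v n ≥ 1` have exponent of convergence at most `τ` and let the sets `S n` of integers have at most `C (v n) ^ (s + ε)`
elements. For all `α` in `ℤ_p` outside a set of dimension at most `(s + τ) / σ` and all large `n` no element of `S n` is at
distance at most `(v n) ^ (-σ)` from `α`. -/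
theorem padic_seq (p : ℕ) [Fact p.Prime] (S : ℕ → Set ℤ) {v : ℕ → ℝ} {s τ σ : ℝ} (hv : ∀ n, 1 ≤ v n) (hτ : 0 ≤ τ)
    (hE : ∀ t : ℝ, τ < t → Summable (fun n : ℕ => (v n) ^ (-t))) (hs : 0 ≤ s) (hσ : 0 < σ) (n₁ : ℕ)
    (hS : ∀ ε : ℝ, 0 < ε → ∃ C : ℝ, ∀ n, n₁ ≤ n → (S n).Finite ∧ ((S n).ncard : ℝ) ≤ C * (v n) ^ (s + ε)) :
    ∃ E : Set ℤ_[p], dimH E ≤ ENNReal.ofReal ((s + τ) / σ) ∧ ∀ α : ℤ_[p], α ∉ E →
      ∃ n₀ : ℕ, ∀ n : ℕ, n₀ ≤ n → ∀ t ∈ S n, (v n) ^ (-σ) < ‖(t : ℤ_[p]) - α‖ := by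
  classical
  obtain ⟨E, hE1, hE2⟩ := Pool.Agent.H107.ME.dim_family (fun q : ℕ × ℤ => ((q.2 : ℤ) : ℤ_[p])) (fun q => v q.1)
    (fun q => hv q.1) (s := s + τ) (σ := σ) (by linarith) hσ (J := Unit)
    (fun _ => {q : ℕ × ℤ | n₁ ≤ q.1 ∧ q.2 ∈ S q.1}) (by
      intro _ ε hε
      obtain ⟨C, hC⟩ := hS (ε / 2) (half_pos hε)
      have hsum := hE (τ + ε / 2) (by linarith)
      refine ⟨|C| * ∑' n, (v n) ^ (-(τ + ε / 2)), fun X hX => ?_⟩
      have hX0 : 0 < X := by linarith
      have hfinN : {n : ℕ | v n ≤ X}.Finite := by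
        have hpos : 0 < X ^ (-(τ + ε / 2)) := Real.rpow_pos_of_pos hX0 _
        have h1 := hsum.tendsto_cofinite_zero.eventually (gt_mem_nhds hpos)
        refine (Filter.eventually_cofinite.1 h1).subset ?_
        intro n hn
        simp only [Set.mem_ofPred_eq, not_lt]
        exact Real.rpow_le_rpow_of_nonpos (lt_of_lt_of_le one_pos (hv n)) hn (by linarith)
      have hfinS : ∀ n, (if n₁ ≤ n then S n else ∅ : Set ℤ).Finite := by
        intro n
        split_ifs with h
        · exact (hC n h).1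
        · exact Set.finite_empty
      set F : Finset (ℕ × ℤ) := hfinN.toFinset.biUnion (fun n => ((hfinS n).toFinset).image (fun t => (n, t))) with hF
      have hsub : {q : ℕ × ℤ | q ∈ {q : ℕ × ℤ | n₁ ≤ q.1 ∧ q.2 ∈ S q.1} ∧ v q.1 ≤ X} ⊆ (F : Set (ℕ × ℤ)) := by
        rintro ⟨n, t⟩ ⟨⟨h0, h1⟩, h2⟩
        rw [Finset.mem_coe, hF, Finset.mem_biUnion]
        refine ⟨n, hfinN.mem_toFinset.2 h2, Finset.mem_image.2 ⟨t, (hfinS n).mem_toFinset.2 ?_, rfl⟩⟩
        rw [if_pos h0]
        exact h1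
      refine ⟨F.finite_toSet.subset hsub, ?_⟩
      have h1 : ({q : ℕ × ℤ | q ∈ {q : ℕ × ℤ | n₁ ≤ q.1 ∧ q.2 ∈ S q.1} ∧ v q.1 ≤ X}.ncard : ℝ) ≤ F.card := by
        rw [← Set.ncard_coe_finset F]
        exact_mod_cast Set.ncard_le_ncard hsub F.finite_toSet
      refine h1.trans ?_
      calc (F.card : ℝ) ≤ ∑ n ∈ hfinN.toFinset, ((((hfinS n).toFinset).image (fun t => (n, t))).card : ℝ) := by
            exact_mod_cast Finset.card_biUnion_le
        _ ≤ ∑ n ∈ hfinN.toFinset, (|C| * ((v n) ^ (-(τ + ε / 2)) * X ^ (s + τ + ε))) := by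
            apply Finset.sum_le_sum
            intro n hn
            have hn' : v n ≤ X := hfinN.mem_toFinset.1 hn
            have hvn : 0 < v n := lt_of_lt_of_le one_pos (hv n)
            by_cases h0 : n₁ ≤ n
            · have h2 : ((((hfinS n).toFinset).image (fun t => (n, t))).card : ℝ) ≤ ((S n).ncard : ℝ) := by
                have h3 := Set.ncard_eq_toFinset_card _ (hfinS n)
                have h4 : (if n₁ ≤ n then S n else ∅ : Set ℤ).ncard = (S n).ncard := by rw [if_pos h0]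
                rw [← h4, h3]
                exact Nat.cast_le.2 Finset.card_image_le
              refine h2.trans ((hC n h0).2.trans ?_)
              calc C * v n ^ (s + ε / 2) ≤ |C| * v n ^ (s + ε / 2) :=
                    mul_le_mul_of_nonneg_right (le_abs_self C) (Real.rpow_nonneg hvn.le _)
                _ = |C| * (v n ^ (-(τ + ε / 2)) * v n ^ (s + τ + ε)) := by
                    rw [← Real.rpow_add hvn]
                    congr 2
                    ring
                _ ≤ |C| * (v n ^ (-(τ + ε / 2)) * X ^ (s + τ + ε)) := by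
                    apply mul_le_mul_of_nonneg_left _ (abs_nonneg C)
                    apply mul_le_mul_of_nonneg_left _ (Real.rpow_nonneg hvn.le _)
                    exact Real.rpow_le_rpow hvn.le hn' (by linarith)
            · have h2 : (((hfinS n).toFinset).image (fun t => (n, t))) = ∅ := by
                rw [Finset.image_eq_empty]
                ext t
                rw [Set.Finite.mem_toFinset, if_neg h0]
                simp
              rw [h2, Finset.card_empty, Nat.cast_zero]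
              exact mul_nonneg (abs_nonneg C) (mul_nonneg (Real.rpow_nonneg hvn.le _) (Real.rpow_nonneg hX0.le _))
        _ = |C| * (∑ n ∈ hfinN.toFinset, (v n) ^ (-(τ + ε / 2))) * X ^ (s + τ + ε) := by
            rw [← Finset.mul_sum, ← Finset.sum_mul]
            ring
        _ ≤ |C| * (∑' n, (v n) ^ (-(τ + ε / 2))) * X ^ (s + τ + ε) := by
            apply mul_le_mul_of_nonneg_right _ (Real.rpow_nonneg hX0.le _)
            apply mul_le_mul_of_nonneg_left _ (abs_nonneg C)
            exact hsum.sum_le_tsum _ (fun n _ => Real.rpow_nonneg (by linarith [hv n]) _))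
  refine ⟨E, hE1, fun α hα => ?_⟩
  have hfin := hE2 α hα ()
  obtain ⟨n₀, hn₀⟩ : ∃ n₀ : ℕ, ∀ q ∈ {q : ℕ × ℤ | q ∈ {q : ℕ × ℤ | n₁ ≤ q.1 ∧ q.2 ∈ S q.1} ∧
      dist (((q.2 : ℤ) : ℤ_[p])) α ≤ (v q.1) ^ (-σ)}, q.1 < n₀ := by
    obtain ⟨N, hN⟩ := (hfin.image Prod.fst).bddAbove
    exact ⟨N + 1, fun q hq => Nat.lt_succ_of_le (hN (Set.mem_image_of_mem _ hq))⟩
  refine ⟨max n₀ n₁, fun n hn t ht => ?_⟩
  by_contra hcon
  rw [not_lt] at hcon
  have h1 := hn₀ (n, t) ⟨⟨(le_max_right _ _).trans hn, ht⟩, by rw [dist_eq_norm]; exact hcon⟩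
  exact absurd ((le_max_left _ _).trans hn) (not_le.2 h1)

end Pool.Agent.V11260.PQ
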