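import Mathlib

/-!
Windows round `α v_n` which contain no member of a set of integers whose counting function is at most
`x exp (-(log x) ^ γ / 2)`, for almost every `α`.
-/

set_option autoImplicit false

namespace Pool.Agent.V11260.OW

open Finset Filter Topology MeasureTheory

/-- `v n` grows at least like `exp (n ^ δ)` for some `δ > 0` -/
def FastR (v : ℕ → ℝ) : Prop := ∃ δ : ℝ, 0 < δ ∧ ∀ᶠ n : ℕ in atTop, (n : ℝ) ^ δ ≤ Real.log (v n)

theorem fastR_pow (b : ℝ) (hb : 1 < b) : FastR (fun n => b ^ n) := by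
  have hb0 : (0 : ℝ) < Real.log b := Real.log_pos hb
  refine ⟨1 / 2, by norm_num, ?_⟩
  filter_upwards [tendsto_natCast_atTop_atTop.eventually_ge_atTop ((1 / Real.log b) ^ 2), eventually_gt_atTop 0] with n hn hn0
  have hn0' : (0 : ℝ) < n := by exact_mod_cast hn0
  rw [Real.log_pow, ← Real.sqrt_eq_rpow]
  have h1 : 1 / Real.log b ≤ Real.sqrt n := Real.le_sqrt_of_sq_le hn
  have h2 : 1 ≤ Real.sqrt n * Real.log b := by
    rw [div_le_iff₀ hb0] at h1
    exact h1
  calc Real.sqrt n = Real.sqrt n * 1 := (mul_one _).symm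
    _ ≤ Real.sqrt n * (Real.sqrt n * Real.log b) := mul_le_mul_of_nonneg_left h2 (Real.sqrt_nonneg _)
    _ = (Real.sqrt n * Real.sqrt n) * Real.log b := by ring
    _ = n * Real.log b := by rw [Real.mul_self_sqrt hn0'.le]

lemma vol_bad {v L : ℝ} (hv : 0 < v) (B : Finset ℕ) :
    volume {α : ℝ | ∃ m ∈ B, |(m : ℝ) - α * v| ≤ L} ≤ ENNReal.ofReal (#B * (2 * L / v)) := by
  have hsub : {α : ℝ | ∃ m ∈ B, |(m : ℝ) - α * v| ≤ L} ⊆
      ⋃ m ∈ B, Set.Icc (((m : ℝ) - L) / v) (((m : ℝ) + L) / v) := by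
    rintro α ⟨m, hm, h⟩
    refine Set.mem_biUnion hm ⟨?_, ?_⟩
    · have h1 := (abs_le.1 h).2
      rw [div_le_iff₀ hv]
      linarith
    · have h1 := (abs_le.1 h).1
      rw [le_div_iff₀ hv]
      linarith
  refine (measure_mono hsub).trans ((measure_biUnion_finset_le _ _).trans (le_of_eq ?_))
  have h1 : ∀ m ∈ B, volume (Set.Icc (((m : ℝ) - L) / v) (((m : ℝ) + L) / v)) = ENNReal.ofReal (2 * L / v) := by
    intro m _
    rw [Real.volume_Icc]
    congr 1
    ring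
  rw [sum_congr rfl h1, sum_const, nsmul_eq_mul, ENNReal.ofReal_mul (by positivity), ENNReal.ofReal_natCast]

open Classical in
theorem ae_windows (E : Set ℕ) {γ : ℝ} (hγ : 0 < γ) (hγ1 : γ < 1) (x₀ : ℕ)
    (hcount : ∀ x : ℕ, x₀ ≤ x → (#((Ioc 0 x).filter (fun n => n ∈ E)) : ℝ) ≤ x * Real.exp (-(Real.log x) ^ γ / 2))
    {v : ℕ → ℝ} (hv : ∀ n, 1 ≤ v n) (hf : FastR v) :
    ∀ᵐ α : ℝ, 0 < α → ∃ n₀ : ℕ, ∀ n : ℕ, n₀ ≤ n → ∀ m ∈ E, 0 < m →
      Real.exp ((Real.log (v n)) ^ γ / 4) < |(m : ℝ) - α * v n| := by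
  obtain ⟨δ, hδ, hδv⟩ := hf
  have hδγ : 0 < δ * γ := mul_pos hδ hγ
  have hlogv : Tendsto (fun n => Real.log (v n)) atTop atTop :=
    tendsto_atTop_mono' atTop hδv ((tendsto_rpow_atTop hδ).comp tendsto_natCast_atTop_atTop)
  have hvt : Tendsto v atTop atTop := by
    refine tendsto_atTop_mono (fun n => ?_) hlogv
    exact (Real.log_le_sub_one_of_pos (lt_of_lt_of_le one_pos (hv n))).trans (by linarith)
  have hdec : ∀ᶠ n : ℕ in atTop, Real.exp (-(Real.log (v n)) ^ γ / 4) ≤ (n : ℝ) ^ (-2 : ℝ) := by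
    have h1 : ∀ᶠ x : ℝ in atTop, ‖Real.log x‖ ≤ (1 / 8) * ‖x ^ (δ * γ)‖ :=
      (isLittleO_log_rpow_atTop hδγ).bound (by norm_num)
    filter_upwards [hδv, tendsto_natCast_atTop_atTop.eventually h1, eventually_gt_atTop 0] with n h2 h3 h4
    have hn0 : (0 : ℝ) < n := by exact_mod_cast h4
    have h5 : (n : ℝ) ^ (δ * γ) ≤ (Real.log (v n)) ^ γ := by
      rw [Real.rpow_mul hn0.le]
      exact Real.rpow_le_rpow (Real.rpow_nonneg hn0.le _) h2 hγ.le
    rw [Real.norm_of_nonneg (Real.rpow_nonneg hn0.le _)] at h3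
    have h6 : Real.log n ≤ (1 / 8) * (n : ℝ) ^ (δ * γ) := (Real.le_norm_self _).trans h3
    rw [Real.rpow_def_of_pos hn0]
    apply Real.exp_le_exp.2
    linarith
  have key : ∀ A : ℕ, 1 ≤ A → ∀ᵐ α : ℝ, 0 < α → α ≤ A → ∃ n₀ : ℕ, ∀ n : ℕ, n₀ ≤ n → ∀ m ∈ E, 0 < m →
      Real.exp ((Real.log (v n)) ^ γ / 4) < |(m : ℝ) - α * v n| := by
    intro A hA
    have hA1 : (1 : ℝ) ≤ A := by exact_mod_cast hA
    obtain ⟨n₁, hn₁⟩ := Filter.eventually_atTop.1 (hdec.and ((hlogv.eventually_ge_atTop 1).and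
      ((hvt.eventually_ge_atTop (x₀ : ℝ)).and (eventually_gt_atTop 0))))
    set M : ℕ → ℕ := fun n => ⌊((A : ℝ) + 1) * v n⌋₊ with hM
    set B : ℕ → Finset ℕ := fun n => (Ioc 0 (M n)).filter (fun m => m ∈ E) with hB
    set L : ℕ → ℝ := fun n => Real.exp ((Real.log (v n)) ^ γ / 4) with hL
    set S : ℕ → Set ℝ := fun n => if n₁ ≤ n then {α : ℝ | ∃ m ∈ B n, |(m : ℝ) - α * v n| ≤ L n} else ∅ with hS
    have hvol : ∀ n, volume (S n) ≤ ENNReal.ofReal (2 * (A + 1) * (n : ℝ) ^ (-2 : ℝ)) := by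
      intro n
      simp only [hS]
      split_ifs with h
      · obtain ⟨g1, g2, g3, g4⟩ := hn₁ n h
        have hvp : 0 < v n := lt_of_lt_of_le one_pos (hv n)
        refine (vol_bad hvp _).trans (ENNReal.ofReal_le_ofReal ?_)
        have hMv : v n ≤ M n := by
          have h1 : ((A : ℝ) + 1) * v n < M n + 1 := Nat.lt_floor_add_one _
          nlinarith [hv n]
        have hM2 : (M n : ℝ) ≤ ((A : ℝ) + 1) * v n := Nat.floor_le (by positivity)
        have hMx : x₀ ≤ M n := by exact_mod_cast g3.trans hMv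
        have h2 := hcount (M n) hMx
        have hlog : (Real.log (v n)) ^ γ ≤ (Real.log (M n)) ^ γ :=
          Real.rpow_le_rpow (by linarith) (Real.log_le_log hvp hMv) hγ.le
        have h3 : (#(B n) : ℝ) ≤ (((A : ℝ) + 1) * v n) * Real.exp (-(Real.log (v n)) ^ γ / 2) := by
          refine h2.trans (mul_le_mul hM2 (Real.exp_le_exp.2 (by linarith)) (Real.exp_pos _).le (by positivity))
        calc (#(B n) : ℝ) * (2 * L n / v n) ≤
              ((((A : ℝ) + 1) * v n) * Real.exp (-(Real.log (v n)) ^ γ / 2)) * (2 * L n / v n) :=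
              mul_le_mul_of_nonneg_right h3 (by have := (Real.exp_pos ((Real.log (v n)) ^ γ / 4)).le; positivity)
          _ = 2 * (A + 1) * (Real.exp (-(Real.log (v n)) ^ γ / 2) * L n) := by
              field_simp
          _ = 2 * (A + 1) * Real.exp (-(Real.log (v n)) ^ γ / 4) := by
              rw [hL]
              simp only
              rw [← Real.exp_add]
              congr 2
              ring
          _ ≤ 2 * (A + 1) * (n : ℝ) ^ (-2 : ℝ) := mul_le_mul_of_nonneg_left g1 (by positivity)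
      · simp
    have hsum : Summable (fun n : ℕ => 2 * ((A : ℝ) + 1) * (n : ℝ) ^ (-2 : ℝ)) :=
      (Real.summable_nat_rpow.2 (by norm_num)).mul_left _
    have hfin : ∑' n, volume (S n) ≠ ⊤ := by
      refine ne_top_of_le_ne_top ?_ (ENNReal.tsum_le_tsum hvol)
      exact hsum.tsum_ofReal_ne_top
    filter_upwards [ae_eventually_notMem hfin] with α hα hα0 hαA
    obtain ⟨n₂, hn₂⟩ := Filter.eventually_atTop.1 hα
    refine ⟨max n₁ n₂, fun n hn m hm hm0 => ?_⟩
    by_contra hcon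
    rw [not_lt] at hcon
    have h1 := hn₂ n ((le_max_right _ _).trans hn)
    simp only [hS] at h1
    rw [if_pos ((le_max_left _ _).trans hn)] at h1
    refine h1 ⟨m, ?_, hcon⟩
    obtain ⟨g1, g2, g3, g4⟩ := hn₁ n ((le_max_left _ _).trans hn)
    have hvp : 0 < v n := lt_of_lt_of_le one_pos (hv n)
    have hLv : Real.exp ((Real.log (v n)) ^ γ / 4) ≤ v n := by
      have h5 : (Real.log (v n)) ^ γ ≤ Real.log (v n) := by
        calc (Real.log (v n)) ^ γ ≤ (Real.log (v n)) ^ (1 : ℝ) := Real.rpow_le_rpow_of_exponent_le g2 hγ1.le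
          _ = Real.log (v n) := Real.rpow_one _
      calc Real.exp ((Real.log (v n)) ^ γ / 4) ≤ Real.exp (Real.log (v n)) := Real.exp_le_exp.2 (by linarith)
        _ = v n := Real.exp_log hvp
    simp only [hB, mem_filter, mem_Ioc]
    refine ⟨⟨hm0, Nat.le_floor ?_⟩, hm⟩
    have h6 := (abs_le.1 hcon).2
    have h7 : α * v n ≤ A * v n := mul_le_mul_of_nonneg_right hαA hvp.le
    linarith
  have hall : ∀ᵐ α : ℝ, ∀ A : ℕ, 1 ≤ A → 0 < α → α ≤ A → ∃ n₀ : ℕ, ∀ n : ℕ, n₀ ≤ n → ∀ m ∈ E, 0 < m →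
      Real.exp ((Real.log (v n)) ^ γ / 4) < |(m : ℝ) - α * v n| := by
    rw [ae_all_iff]
    intro A
    by_cases hA : 1 ≤ A
    · filter_upwards [key A hA] with α hα _
      exact hα
    · exact Filter.Eventually.of_forall fun α h => absurd h hA
  filter_upwards [hall] with α hα hα0
  obtain ⟨A, hA⟩ := exists_nat_ge (max α 1)
  exact hα A (by exact_mod_cast (le_max_right α 1).trans hA) hα0 ((le_max_left _ _).trans hA)

end Pool.Agent.V11260.OW
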