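import Mathlib
import Pool.Agent.Y14.Fam

/-!
# Response of families of transports to independent noise on the links
-/

open MeasureTheory Matrix Filter
open scoped Matrix.Norms.Frobenius ContDiff Topology
open Pool.Agent.H906R3.YM Pool.Agent.W793.YM Pool.Agent.Y14

namespace Pool.Agent.V11260

set_option linter.unusedSectionVars false
set_option linter.unusedVariables false

noncomputable section

variable {N : ℕ} {E : Type*} [DecidableEq E] {J : Finset E}

/-- links with noise of given strength -/
def nv (x : IJ J N → ℝ) (α γ : E → ℝ) (δ : ℝ) (s : IJ J N → Bool) : IJ J N → ℝ :=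
  fun i => α i.1.1 * x i + γ i.1.1 * sg δ s i

lemma mx_nv (x : IJ J N → ℝ) (α γ : E → ℝ) (δ : ℝ) (s : IJ J N → Bool) (e : E) :
    mx J (nv x α γ δ s) e = α e • mx J x e + γ e • mx J (sg δ s) e := by
  unfold mx
  split_ifs with h
  · rw [Finset.smul_sum, Finset.smul_sum, ← Finset.sum_add_distrib]
    refine Finset.sum_congr rfl fun κ _ => ?_
    rw [smul_smul, smul_smul, ← add_smul]
    rfl
  · rw [smul_zero, smul_zero, add_zero]

lemma nv_one (x : IJ J N → ℝ) (δ : ℝ) (s : IJ J N → Bool) :
    nv x (fun _ => 1) (fun _ => 1) δ s = x + sg δ s := by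
  funext i
  simp [nv]

lemma nv_zero (x : IJ J N → ℝ) (δ : ℝ) (s : IJ J N → Bool) :
    nv x (fun _ => 1) (fun _ => 0) δ s = x := by
  funext i
  simp [nv]

/-- the transport along one path and back along another one -/
def gq (J : Finset E) (y : IJ J N → ℝ) (P Q : List E) : Mat N := pm J y P * (pm J y Q)ᴴ

/-- the transport is additive in every link -/
lemma pm_split {y y' y'' : IJ J N → ℝ} {l : List E} (hl : l.Nodup) {e : E} (he : e ∈ l)
    (h' : ∀ f ∈ l, f ≠ e → mx J y f = mx J y' f) (h'' : ∀ f ∈ l, f ≠ e → mx J y f = mx J y'' f)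
    (hs : mx J y e = mx J y' e + mx J y'' e) : pm J y l = pm J y' l + pm J y'' l := by
  have hc : ∀ {z z' : IJ J N → ℝ} {k : List E}, (∀ f ∈ k, mx J z f = mx J z' f) →
      pm J z k = pm J z' k := by
    intro z z' k hk
    unfold pm
    congr 1
    exact List.map_congr_left hk
  induction l with
  | nil => simp at he
  | cons a l ih =>
    have hl' := List.nodup_cons.1 hl
    rw [pm_cons, pm_cons, pm_cons]
    by_cases hae : a = e
    · subst hae
      have e1 : pm J y l = pm J y' l := hc fun f hf =>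
        h' f (List.mem_cons_of_mem _ hf) fun h => hl'.1 (h ▸ hf)
      have e2 : pm J y l = pm J y'' l := hc fun f hf =>
        h'' f (List.mem_cons_of_mem _ hf) fun h => hl'.1 (h ▸ hf)
      rw [← e1, ← e2, hs, add_mul]
    · have he' : e ∈ l := by
        rcases List.mem_cons.1 he with h | h
        · exact absurd h.symm hae
        · exact h
      rw [ih hl'.2 he' (fun f hf => h' f (List.mem_cons_of_mem _ hf))
        fun f hf => h'' f (List.mem_cons_of_mem _ hf), mul_add,
        ← h' a List.mem_cons_self hae, ← h'' a List.mem_cons_self hae]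

lemma pm_mx {z z' : IJ J N → ℝ} {k : List E} (hk : ∀ f ∈ k, mx J z f = mx J z' f) :
    pm J z k = pm J z' k := by
  unfold pm
  congr 1
  exact List.map_congr_left hk

lemma gq_mx {z z' : IJ J N → ℝ} {P Q : List E} (hk : ∀ f ∈ P ++ Q, mx J z f = mx J z' f) :
    gq J z P Q = gq J z' P Q := by
  unfold gq
  rw [pm_mx fun f hf => hk f (List.mem_append_left _ hf),
    pm_mx (k := Q) fun f hf => hk f (List.mem_append_right _ hf)]

lemma gq_split {y y' y'' : IJ J N → ℝ} {P Q : List E} (hl : (P ++ Q).Nodup) {e : E}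
    (he : e ∈ P ++ Q)
    (h' : ∀ f ∈ P ++ Q, f ≠ e → mx J y f = mx J y' f)
    (h'' : ∀ f ∈ P ++ Q, f ≠ e → mx J y f = mx J y'' f)
    (hs : mx J y e = mx J y' e + mx J y'' e) : gq J y P Q = gq J y' P Q + gq J y'' P Q := by
  have hd := List.disjoint_of_nodup_append hl
  unfold gq
  rcases List.mem_append.1 he with h | h
  · have hQ : e ∉ Q := fun h2 => hd h h2
    have e1 : pm J y Q = pm J y' Q := pm_mx fun f hf =>
      h' f (List.mem_append_right _ hf) fun h2 => hQ (h2 ▸ hf)
    have e2 : pm J y Q = pm J y'' Q := pm_mx fun f hf =>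
      h'' f (List.mem_append_right _ hf) fun h2 => hQ (h2 ▸ hf)
    rw [← e1, ← e2, ← add_mul, ← pm_split hl.of_append_left h
      (fun f hf => h' f (List.mem_append_left _ hf))
      (fun f hf => h'' f (List.mem_append_left _ hf)) hs]
  · have hP : e ∉ P := fun h2 => hd h2 h
    have e1 : pm J y P = pm J y' P := pm_mx fun f hf =>
      h' f (List.mem_append_left _ hf) fun h2 => hP (h2 ▸ hf)
    have e2 : pm J y P = pm J y'' P := pm_mx fun f hf =>
      h'' f (List.mem_append_left _ hf) fun h2 => hP (h2 ▸ hf)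
    rw [← e1, ← e2, ← mul_add, ← conjTranspose_add, ← pm_split hl.of_append_right h
      (fun f hf => h' f (List.mem_append_right _ hf))
      (fun f hf => h'' f (List.mem_append_right _ hf)) hs]

variable [Fintype E]

section ind

variable {x : IJ J N → ℝ} {α γ : E → ℝ} {δ : ℝ}

lemma ind_nv {e : E} {l : List E} (he : e ∉ l) :
    Ind e fun s : IJ J N → Bool => pm J (nv x α γ δ s) l := by
  intro s s' h
  refine pm_congr fun i hi => ?_
  have : i.1.1 ≠ e := by rintro rfl; exact he hi
  unfold nv sg
  rw [h i this]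

lemma ind_mul {e : E} {Y Z : (IJ J N → Bool) → Mat N} (hY : Ind e Y) (hZ : Ind e Z) :
    Ind e fun s => Y s * Z s := fun s s' h => by
  show Y s * Z s = Y s' * Z s'
  rw [hY s s' h, hZ s s' h]

lemma ind_ct {e : E} {Y : (IJ J N → Bool) → Mat N} (hY : Ind e Y) :
    Ind e fun s => (Y s)ᴴ := fun s s' h => by
  show (Y s)ᴴ = (Y s')ᴴ
  rw [hY s s' h]

lemma ind_smul {e : E} {Y : (IJ J N → Bool) → Mat N} (hY : Ind e Y) (c : ℝ) :
    Ind e fun s => c • Y s := fun s s' h => by
  show c • Y s = c • Y s'
  rw [hY s s' h]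

/-- the second moment of a noisy transport -/
lemma av_pm {l : List E} (hl : l.Nodup) (hu : Un J x l) {Z : (IJ J N → Bool) → Mat N}
    (hZ : ∀ e ∈ l, Ind e Z) :
    av (fun s => ‖pm J (nv x α γ δ s) l * Z s‖ ^ 2) =
      (l.map fun e => α e ^ 2 + 2 * N * δ ^ 2 * γ e ^ 2).prod * av (fun s => ‖Z s‖ ^ 2) := by
  induction l with
  | nil => simp [pm_nil]
  | cons e l ih =>
    have hl' := List.nodup_cons.1 hl
    have hu' : Un J x l := fun e' he' => hu e' (List.mem_cons_of_mem _ he')
    obtain ⟨he, hX⟩ := hu e List.mem_cons_self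
    have hi : Ind e fun s : IJ J N → Bool => pm J (nv x α γ δ s) l * Z s :=
      ind_mul (ind_nv hl'.1) (hZ e List.mem_cons_self)
    have h1 : ∀ s, pm J (nv x α γ δ s) (e :: l) * Z s =
        (α e • mx J x e) * (pm J (nv x α γ δ s) l * Z s) +
        mx J (sg δ s) e * (γ e • (pm J (nv x α γ δ s) l * Z s)) := fun s => by
      rw [pm_cons, mx_nv, add_mul, add_mul, mul_assoc, mul_assoc, smul_mul_assoc (γ e),
        mul_smul_comm]
    have h2 : ∀ (c : ℝ) (A : Mat N), ‖c • A‖ ^ 2 = c ^ 2 * ‖A‖ ^ 2 := fun c A => by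
      rw [norm_smul, mul_pow, Real.norm_eq_abs, sq_abs]
    have h3 := ih hl'.2 hu' fun e' he' => hZ e' (List.mem_cons_of_mem _ he')
    simp only [h1]
    rw [noise_step δ he _ hi (ind_smul hi (γ e))]
    simp only [smul_mul_assoc, h2, norm_unit_mul hX]
    rw [av_smul, av_smul, h3, List.map_cons, List.prod_cons]
    ring

lemma av_gq {P Q : List E} (hl : (P ++ Q).Nodup) (hu : Un J x (P ++ Q)) :
    av (fun s => ‖gq J (nv x α γ δ s) P Q‖ ^ 2) =
      ((P ++ Q).map fun e => α e ^ 2 + 2 * N * δ ^ 2 * γ e ^ 2).prod * N := by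
  have hd := List.disjoint_of_nodup_append hl
  have uP : Un J x P := hu.sub fun e he => List.mem_append_left _ he
  have uQ : Un J x Q := hu.sub fun e he => List.mem_append_right _ he
  unfold gq
  rw [av_pm hl.of_append_left uP fun e he => ind_ct (ind_nv fun h => hd he h)]
  simp only [norm_ct]
  have h1 := av_pm (x := x) (α := α) (γ := γ) (δ := δ) hl.of_append_right uQ
    (Z := fun _ => 1) (fun e he s s' h => rfl)
  simp only [mul_one, norm_one_sq, av_const] at h1
  rw [h1, List.map_append, List.prod_append]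
  ring

end ind

/-- the strengths with the noise in `S` -/
def iS (S : Finset E) (e : E) : ℝ := if e ∈ S then 1 else 0

variable {x : IJ J N → ℝ} {δ : ℝ}

lemma prod_le_pow {l : List E} {c : E → ℝ} {b : ℝ} (h0 : ∀ e ∈ l, 0 ≤ c e)
    (h : ∀ e ∈ l, c e ≤ b) (hb : 0 ≤ b) : (l.map c).prod ≤ b ^ l.length := by
  induction l with
  | nil => simp
  | cons e l ih =>
    rw [List.map_cons, List.prod_cons, List.length_cons, pow_succ, mul_comm]
    refine mul_le_mul (ih (fun e' he' => h0 e' (List.mem_cons_of_mem _ he'))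
      fun e' he' => h e' (List.mem_cons_of_mem _ he')) (h e List.mem_cons_self)
      (h0 e List.mem_cons_self) (by positivity)

lemma map_prod_nonneg {l : List E} {c : E → ℝ} (h0 : ∀ e ∈ l, 0 ≤ c e) :
    0 ≤ (l.map c).prod := by
  induction l with
  | nil => simp
  | cons e l ih =>
    rw [List.map_cons, List.prod_cons]
    exact mul_nonneg (h0 e List.mem_cons_self)
      (ih fun e' he' => h0 e' (List.mem_cons_of_mem _ he'))

/-- the product with one distinguished factor -/
lemma prod_one_le {l : List E} (hl : l.Nodup) {c : E → ℝ} {b a : ℝ} {f : E} (hf : f ∈ l)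
    (h0 : ∀ e ∈ l, 0 ≤ c e) (h : ∀ e ∈ l, e ≠ f → c e ≤ b) (hc : c f ≤ a) (hb : 1 ≤ b) :
    (l.map c).prod ≤ a * b ^ l.length := by
  induction l with
  | nil => simp at hf
  | cons e l ih =>
    have hl' := List.nodup_cons.1 hl
    have h0' : ∀ e' ∈ l, 0 ≤ c e' := fun e' he' => h0 e' (List.mem_cons_of_mem _ he')
    have ha : 0 ≤ a := (h0 f hf).trans hc
    rw [List.map_cons, List.prod_cons, List.length_cons]
    by_cases hef : e = f
    · subst hef
      have h1 := prod_le_pow h0' (fun e' he' => h e' (List.mem_cons_of_mem _ he')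
        fun h2 => hl'.1 (h2 ▸ he')) (by linarith : (0 : ℝ) ≤ b)
      refine mul_le_mul hc (h1.trans (pow_le_pow_right₀ hb (by omega))) (map_prod_nonneg h0') ha
    · have hf' : f ∈ l := by
        rcases List.mem_cons.1 hf with h2 | h2
        · exact absurd h2.symm hef
        · exact h2
      have h1 := ih hl'.2 hf' h0' fun e' he' => h e' (List.mem_cons_of_mem _ he')
      calc c e * (l.map c).prod ≤ b * (a * b ^ l.length) :=
            mul_le_mul (h e List.mem_cons_self hef) h1 (map_prod_nonneg h0') (by linarith)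
        _ = a * b ^ (l.length + 1) := by ring

/-- **Response of a family of transports to the noise.** -/
theorem fam_resp {O : Type*} (S : Finset O) {P Q : O → List E}
    (hn : ∀ o ∈ S, (P o ++ Q o).Nodup) (hu : ∀ o ∈ S, Un J x (P o ++ Q o)) {w : O → ℝ}
    (hw : ∀ o, 0 ≤ w o) {ℓ : ℕ} (hℓ : ∀ o ∈ S, (P o ++ Q o).length ≤ ℓ) :
    av (fun s => ‖∑ o ∈ S, w o • gq J (x + sg δ s) (P o) (Q o) -
      ∑ o ∈ S, w o • gq J x (P o) (Q o)‖ ^ 2) ≤
      N * (2 * N * δ ^ 2) * (1 + 2 * N * δ ^ 2) ^ ℓ *
        ∑ e, (∑ o ∈ S.filter fun o => e ∈ P o ++ Q o, w o) ^ 2 := by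
  obtain ⟨σ, hσ⟩ : ∃ σ : ℝ, σ = 2 * N * δ ^ 2 := ⟨_, rfl⟩
  have hσ0 : 0 ≤ σ := by rw [hσ]; positivity
  have hN0 : (0 : ℝ) ≤ N := Nat.cast_nonneg _
  rw [← hσ]
  obtain ⟨F, hF⟩ : ∃ F : Finset E → (IJ J N → Bool) → Mat N, F = fun T s =>
    ∑ o ∈ S, w o • gq J (nv x (fun _ => 1) (iS T) δ s) (P o) (Q o) := ⟨_, rfl⟩
  obtain ⟨j, hj⟩ : ∃ j : E → ℝ, j = fun e => ∑ o ∈ S.filter fun o => e ∈ P o ++ Q o, w o :=
    ⟨_, rfl⟩
  have hj0 : ∀ e, 0 ≤ j e := fun e => by
    rw [hj]; exact Finset.sum_nonneg fun o _ => hw o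
  have key : ∀ T : Finset E, av (fun s => ‖F T s - F ∅ s‖ ^ 2) ≤
      N * σ * (1 + σ) ^ ℓ * ∑ e ∈ T, j e ^ 2 := by
    intro T
    induction T using Finset.induction_on with
    | empty => simp [av_const]
    | insert e T he ih =>
      -- the increment
      obtain ⟨α, hα⟩ : ∃ α : E → ℝ, α = fun f => if f = e then 0 else 1 := ⟨_, rfl⟩
      obtain ⟨D, hD⟩ : ∃ D : (IJ J N → Bool) → Mat N, D = fun s =>
        ∑ o ∈ S.filter (fun o => e ∈ P o ++ Q o),
          w o • gq J (nv x α (iS (insert e T)) δ s) (P o) (Q o) := ⟨_, rfl⟩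
      have hmx : ∀ s f, f ≠ e → mx J (nv x (fun _ => 1) (iS (insert e T)) δ s) f =
          mx J (nv x (fun _ => 1) (iS T) δ s) f := by
        intro s f hf
        rw [mx_nv, mx_nv]
        unfold iS
        simp only [Finset.mem_insert, hf, false_or]
      have hmx' : ∀ s f, f ≠ e → mx J (nv x (fun _ => 1) (iS (insert e T)) δ s) f =
          mx J (nv x α (iS (insert e T)) δ s) f := by
        intro s f hf
        rw [mx_nv, mx_nv, hα]
        simp only [hf, if_false]
      have hmxe : ∀ s, mx J (nv x (fun _ => 1) (iS (insert e T)) δ s) e =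
          mx J (nv x (fun _ => 1) (iS T) δ s) e + mx J (nv x α (iS (insert e T)) δ s) e := by
        intro s
        rw [mx_nv, mx_nv, mx_nv, hα]
        unfold iS
        simp [he]
      have hdec : ∀ s, F (insert e T) s = F T s + D s := by
        intro s
        rw [hF, hD]
        simp only
        rw [Finset.sum_filter, ← Finset.sum_add_distrib]
        refine Finset.sum_congr rfl fun o ho => ?_
        split_ifs with h
        · rw [← smul_add]
          congr 1
          exact gq_split (hn o ho) h (fun f _ hf => hmx s f hf) (fun f _ hf => hmx' s f hf)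
            (hmxe s)
        · rw [add_zero]
          congr 1
          exact gq_mx fun f hf => hmx s f fun h2 => h (h2 ▸ hf)
      -- orthogonality
      have hfl : ∀ s, F T (fl (fun i : IJ J N => i.1.1 = e) s) = F T s := by
        intro s
        rw [hF]
        simp only
        refine Finset.sum_congr rfl fun o _ => ?_
        congr 1
        refine gq_mx fun f _ => ?_
        rw [mx_nv, mx_nv, mx_sg_fl (N := N) (J := J) δ (fun e' => e' = e) s f]
        by_cases hf : f = e
        · subst hf
          unfold iS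
          simp [he]
        · simp only [hf, if_false]
      have hf0 : ∀ s, F ∅ (fl (fun i : IJ J N => i.1.1 = e) s) = F ∅ s := by
        intro s
        rw [hF]
        simp only
        refine Finset.sum_congr rfl fun o _ => ?_
        congr 1
        refine gq_mx fun f _ => ?_
        rw [mx_nv, mx_nv]
        unfold iS
        simp
      have hDfl : ∀ s, D (fl (fun i : IJ J N => i.1.1 = e) s) = -D s := by
        intro s
        rw [hD]
        simp only
        rw [← Finset.sum_neg_distrib]
        refine Finset.sum_congr rfl fun o ho => ?_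
        obtain ⟨ho1, ho2⟩ := Finset.mem_filter.1 ho
        rw [← smul_neg]
        congr 1
        obtain ⟨y, hy⟩ : ∃ y, y = nv x α (iS (insert e T)) δ (fl (fun i : IJ J N => i.1.1 = e) s) :=
          ⟨_, rfl⟩
        obtain ⟨y', hy'⟩ : ∃ y, y = nv x α (iS (insert e T)) δ s := ⟨_, rfl⟩
        rw [← hy, ← hy']
        have e1 : ∀ f, f ≠ e → mx J y f = mx J y' f := by
          intro f hf
          rw [hy, hy', mx_nv, mx_nv, mx_sg_fl (N := N) (J := J) δ (fun e' => e' = e) s f]
          simp only [hf, if_false]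
        have e2 : mx J y e = -mx J y' e := by
          rw [hy, hy', mx_nv, mx_nv, mx_sg_fl (N := N) (J := J) δ (fun e' => e' = e) s e, hα]
          simp
        have e3 : mx J (fun _ : IJ J N => (0 : ℝ)) e = 0 := by
          unfold mx
          split_ifs <;> simp
        obtain ⟨z, hz⟩ : ∃ z : IJ J N → ℝ, z = fun i => if i.1.1 = e then 0 else y' i :=
          ⟨_, rfl⟩
        have e4 : ∀ f, f ≠ e → mx J z f = mx J y' f := fun f hf => by
          refine mx_congr fun i hi => ?_
          rw [hz]
          simp only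
          rw [if_neg (by rw [hi]; exact hf)]
        have e5 : mx J z e = 0 := by
          rw [← e3]
          refine mx_congr fun i hi => ?_
          rw [hz]
          simp only
          rw [if_pos hi]
        have e6 : gq J z (P o) (Q o) = gq J y (P o) (Q o) + gq J y' (P o) (Q o) :=
          gq_split (hn o ho1) ho2 (fun f _ hf => by rw [e4 f hf, e1 f hf])
            (fun f _ hf => e4 f hf) (by rw [e5, e2, neg_add_cancel])
        have e7 : gq J z (P o) (Q o) = gq J z (P o) (Q o) + gq J z (P o) (Q o) :=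
          gq_split (hn o ho1) ho2 (fun f _ hf => rfl) (fun f _ hf => rfl)
            (by rw [e5, add_zero])
        have e8 : gq J z (P o) (Q o) = 0 := by
          have := e7
          rwa [left_eq_add] at this
        rw [e8] at e6
        exact eq_neg_of_add_eq_zero_left e6.symm
      have horth : av (fun s => 2 * ip (F T s - F ∅ s) (D s)) = 0 := by
        refine av_odd (S := fun i : IJ J N => i.1.1 = e) fun s => ?_
        rw [hfl, hf0, hDfl, map_neg]
        ring
      have h1 : av (fun s => ‖F (insert e T) s - F ∅ s‖ ^ 2) =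
          av (fun s => ‖F T s - F ∅ s‖ ^ 2) + av (fun s => ‖D s‖ ^ 2) := by
        have e1 : (fun s => ‖F (insert e T) s - F ∅ s‖ ^ 2) = fun s =>
            (‖F T s - F ∅ s‖ ^ 2 + 2 * ip (F T s - F ∅ s) (D s)) + ‖D s‖ ^ 2 := by
          funext s
          rw [← nsq_add, hdec]
          congr 2
          abel
        rw [e1, av_add, av_add, horth, add_zero]
      -- the size of the increment
      have h2 : av (fun s => ‖D s‖ ^ 2) ≤ N * σ * (1 + σ) ^ ℓ * j e ^ 2 := by
        have e1 : ∀ s, ‖D s‖ ^ 2 ≤ ∑ o ∈ S.filter (fun o => e ∈ P o ++ Q o),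
            j e * w o * ‖gq J (nv x α (iS (insert e T)) δ s) (P o) (Q o)‖ ^ 2 := by
          intro s
          have e2 : ‖D s‖ ≤ ∑ o ∈ S.filter (fun o => e ∈ P o ++ Q o),
              w o * ‖gq J (nv x α (iS (insert e T)) δ s) (P o) (Q o)‖ := by
            rw [hD]
            refine (norm_sum_le _ _).trans (Finset.sum_le_sum fun o _ => ?_)
            rw [norm_smul, Real.norm_eq_abs, abs_of_nonneg (hw o)]
          have e3 := pow_le_pow_left₀ (norm_nonneg _) e2 2
          have e4 := Finset.sum_mul_sq_le_sq_mul_sq (S.filter (fun o => e ∈ P o ++ Q o))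
            (fun o => Real.sqrt (w o))
            (fun o => Real.sqrt (w o) * ‖gq J (nv x α (iS (insert e T)) δ s) (P o) (Q o)‖)
          have e5 : ∀ o, Real.sqrt (w o) * Real.sqrt (w o) = w o := fun o =>
            Real.mul_self_sqrt (hw o)
          have e6 : ∀ o, Real.sqrt (w o) ^ 2 = w o := fun o => Real.sq_sqrt (hw o)
          simp only [← mul_assoc, e5, mul_pow, e6] at e4
          refine e3.trans (e4.trans (le_of_eq ?_))
          rw [hj]
          simp only
          rw [Finset.mul_sum]
          refine Finset.sum_congr rfl fun o _ => ?_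
          ring
        refine (av_mono e1).trans ?_
        rw [av_sum]
        have e2 : ∀ o ∈ S.filter (fun o => e ∈ P o ++ Q o),
            av (fun s => j e * w o * ‖gq J (nv x α (iS (insert e T)) δ s) (P o) (Q o)‖ ^ 2) ≤
            w o * (N * σ * (1 + σ) ^ ℓ * j e) := by
          intro o ho
          obtain ⟨ho1, ho2⟩ := Finset.mem_filter.1 ho
          rw [av_smul, av_gq (hn o ho1) (hu o ho1), ← hσ]
          have c0 : ∀ f ∈ P o ++ Q o, 0 ≤ α f ^ 2 + σ * iS (insert e T) f ^ 2 := fun f _ => by
            positivity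
          have c1 : ∀ f ∈ P o ++ Q o, f ≠ e → α f ^ 2 + σ * iS (insert e T) f ^ 2 ≤ 1 + σ := by
            intro f _ hf
            rw [hα]
            unfold iS
            simp only [hf, if_false]
            split_ifs
            · linarith
            · nlinarith
          have c2 : α e ^ 2 + σ * iS (insert e T) e ^ 2 ≤ σ := by
            rw [hα]
            unfold iS
            simp
          have e3 := prod_one_le (hn o ho1) ho2 c0 c1 c2 (by linarith)
          have e4 : (1 + σ) ^ (P o ++ Q o).length ≤ (1 + σ) ^ ℓ :=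
            pow_le_pow_right₀ (by linarith) (hℓ o ho1)
          have e5 := e3.trans (mul_le_mul_of_nonneg_left e4 hσ0)
          have e6 := mul_le_mul_of_nonneg_left (mul_le_mul_of_nonneg_right e5 hN0)
            (mul_nonneg (hj0 e) (hw o))
          refine e6.trans (le_of_eq (by ring))
        refine (Finset.sum_le_sum e2).trans (le_of_eq ?_)
        rw [← Finset.sum_mul]
        have e3 : ∑ o ∈ S.filter (fun o => e ∈ P o ++ Q o), w o = j e := by rw [hj]
        rw [e3]; ring
      rw [h1, Finset.sum_insert he]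
      calc _ ≤ N * σ * (1 + σ) ^ ℓ * ∑ e ∈ T, j e ^ 2 + N * σ * (1 + σ) ^ ℓ * j e ^ 2 :=
            add_le_add ih h2
        _ = _ := by ring
  have h := key Finset.univ
  have e1 : ∀ s, F Finset.univ s = ∑ o ∈ S, w o • gq J (x + sg δ s) (P o) (Q o) := by
    intro s
    rw [hF]
    simp only
    have : iS (Finset.univ : Finset E) = fun _ => 1 := by
      funext e; unfold iS; simp
    rw [this, nv_one]
  have e2 : ∀ s, F ∅ s = ∑ o ∈ S, w o • gq J x (P o) (Q o) := by
    intro s
    rw [hF]
    simp only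
    have : iS (∅ : Finset E) = fun _ => 0 := by
      funext e; unfold iS; simp
    rw [this, nv_zero]
  simp only [e1, e2] at h
  rw [hj] at h
  exact h

/-- the same with a bound for the total weight of the paths through a link -/
theorem fam_resp' {O : Type*} (S : Finset O) {P Q : O → List E}
    (hn : ∀ o ∈ S, (P o ++ Q o).Nodup) (hu : ∀ o ∈ S, Un J x (P o ++ Q o)) {w : O → ℝ}
    (hw : ∀ o, 0 ≤ w o) {ℓ : ℕ} (hℓ : ∀ o ∈ S, (P o ++ Q o).length ≤ ℓ) {j : E → ℝ}
    (hj : ∀ e, ∀ S' ⊆ S, (∀ o ∈ S', e ∈ P o ++ Q o) → ∑ o ∈ S', w o ≤ j e) :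
    av (fun s => ‖∑ o ∈ S, w o • gq J (x + sg δ s) (P o) (Q o) -
      ∑ o ∈ S, w o • gq J x (P o) (Q o)‖ ^ 2) ≤
      N * (2 * N * δ ^ 2) * (1 + 2 * N * δ ^ 2) ^ ℓ * ∑ e, j e ^ 2 := by
  refine (fam_resp S hn hu hw hℓ).trans (mul_le_mul_of_nonneg_left ?_ (by positivity))
  refine Finset.sum_le_sum fun e _ => pow_le_pow_left₀ (Finset.sum_nonneg fun o _ => hw o) ?_ 2
  exact hj e _ (Finset.filter_subset _ _) fun o ho => (Finset.mem_filter.1 ho).2

end

end Pool.Agent.V11260
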