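import Mathlib
import Pool.Agent.Y14.Word

/-!
# Fans of paths
-/

open Matrix Filter
open Pool.Agent.H906R3.YM hiding Pl
open Pool.Agent.W793.YM Pool.Agent.TH618.YM Pool.Agent.Y14

namespace Pool.Agent.V11260

set_option linter.unusedSectionVars false
set_option linter.unusedVariables false

noncomputable section

variable {d : ℕ}

/-! ### words -/

/-- the order of the directions: `i` is the first -/
def od (i : Fin d) : List (Fin d) := i :: (List.finRange d).filter (fun k => k ≠ i)

lemma od_nodup (i : Fin d) : (od i).Nodup := by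
  unfold od
  rw [List.nodup_cons]
  refine ⟨fun h => ?_, (List.nodup_finRange d).filter _⟩
  have := (List.mem_filter.1 h).2
  simp at this

lemma mem_od (i k : Fin d) : k ∈ od i := by
  unfold od
  by_cases h : k = i
  · subst h; exact List.mem_cons_self
  · refine List.mem_cons_of_mem _ (List.mem_filter.2 ⟨List.mem_finRange k, ?_⟩)
    simpa using h

lemma od_toFinset (i : Fin d) : (od i).toFinset = Finset.univ := by
  ext k
  simp [mem_od]

lemma count_cmb (v : Fin d → ℕ) {K : List (Fin d)} (hK : K.Nodup) (j : Fin d) :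
    (cmb v K).count j = if j ∈ K then v j else 0 := by
  induction K with
  | nil => simp [cmb]
  | cons k K ih =>
    have h := List.nodup_cons.1 hK
    rw [cmb_cons, List.count_append, ih h.2, List.count_replicate]
    by_cases hj : j = k
    · subst hj
      simp [h.1]
    · have hk : ¬(k = j) := fun h => hj h.symm
      simp [hj, hk]

/-- the word which leads to the point `z` of the cube `K` -/
def fw (i : Fin d) : ℕ → (Fin d → ℕ) → List (Fin d)
  | 0, z => cmb z (od i)
  | K + 1, z => fw i K (fun k => z k / 2) ++ cmb (fun k => z k - z k / 2) (od i)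

lemma count_fw (i : Fin d) (K : ℕ) (z : Fin d → ℕ) (j : Fin d) : (fw i K z).count j = z j := by
  induction K generalizing z with
  | zero => rw [fw, count_cmb z (od_nodup i), if_pos (mem_od i j)]
  | succ K ih =>
    rw [fw, List.count_append, ih, count_cmb _ (od_nodup i), if_pos (mem_od i j)]
    omega

lemma dsp_fw {l : ℕ} (i : Fin d) (K : ℕ) (z : Fin d → ℕ) :
    (dsp eT (fw i K z) : Fin d → ZMod l) = ct l z := by
  funext j
  rw [dsp_apply, count_fw]
  rfl

lemma length_fw (i : Fin d) (K : ℕ) (z : Fin d → ℕ) : (fw i K z).length = ∑ k, z k := by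
  have h : ∀ v : Fin d → ℕ, (cmb v (od i)).length = ∑ k, v k := fun v => by
    rw [cmb_length v (od_nodup i), od_toFinset]
  induction K generalizing z with
  | zero => rw [fw, h]
  | succ K ih =>
    rw [fw, List.length_append, ih, h, ← Finset.sum_add_distrib]
    exact Finset.sum_congr rfl fun k _ => by omega

lemma not_mem_fw {i τ : Fin d} {K : ℕ} {z : Fin d → ℕ} (h : z τ = 0) : τ ∉ fw i K z := by
  rw [← List.count_eq_zero, count_fw]
  exact h

/-! ### cubes -/

/-- the cube of the points with the coordinates between `2 ^ K` and `2 ^ (K + 1)`, and `0` in the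
direction `τ` -/
def cube (τ : Fin d) (K : ℕ) : Finset (Fin d → ℕ) :=
  Fintype.piFinset fun k => if k = τ then {0} else Finset.Ico (2 ^ K) (2 ^ (K + 1))

lemma mem_cube {τ : Fin d} {K : ℕ} {z : Fin d → ℕ} : z ∈ cube τ K ↔
    z τ = 0 ∧ ∀ k, k ≠ τ → 2 ^ K ≤ z k ∧ z k < 2 ^ (K + 1) := by
  unfold cube
  rw [Fintype.mem_piFinset]
  constructor
  · intro h
    refine ⟨?_, fun k hk => ?_⟩
    · have := h τ
      simpa using this
    · have := h k
      rw [if_neg hk, Finset.mem_Ico] at this
      exact this
  · rintro ⟨h1, h2⟩ k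
    by_cases hk : k = τ
    · subst hk; simp [h1]
    · rw [if_neg hk, Finset.mem_Ico]
      exact h2 k hk

lemma cube_lt {τ : Fin d} {K : ℕ} {z : Fin d → ℕ} (hz : z ∈ cube τ K) (k : Fin d) :
    z k < 2 ^ (K + 1) := by
  obtain ⟨h1, h2⟩ := mem_cube.1 hz
  by_cases hk : k = τ
  · rw [hk, h1]; positivity
  · exact (h2 k hk).2

lemma card_cube (τ : Fin d) (K : ℕ) : (cube τ K).card = (2 ^ K) ^ (d - 1) := by
  unfold cube
  rw [Fintype.card_piFinset]
  have h : ∀ k : Fin d, (if k = τ then ({0} : Finset ℕ) else
      Finset.Ico (2 ^ K) (2 ^ (K + 1))).card = if k = τ then 1 else 2 ^ K := by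
    intro k
    split_ifs
    · simp
    · rw [Nat.card_Ico, pow_succ]; omega
  simp only [h]
  rw [Finset.prod_ite, Finset.prod_const_one, one_mul, Finset.prod_const]
  congr 1
  have : (Finset.univ.filter fun k : Fin d => ¬k = τ) = Finset.univ.erase τ := by
    ext k; simp
  rw [this, Finset.card_erase_of_mem (Finset.mem_univ τ), Finset.card_univ, Fintype.card_fin]

lemma cube_half {τ : Fin d} {K : ℕ} {z : Fin d → ℕ} (hz : z ∈ cube τ (K + 1)) :
    (fun k => z k / 2) ∈ cube τ K := by
  obtain ⟨h1, h2⟩ := mem_cube.1 hz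
  refine mem_cube.2 ⟨by simp [h1], fun k hk => ?_⟩
  obtain ⟨h3, h4⟩ := h2 k hk
  have e1 : 2 ^ (K + 1) = 2 * 2 ^ K := by ring
  have e2 : 2 ^ (K + 1 + 1) = 2 * 2 ^ (K + 1) := by ring
  rw [e1] at h3
  rw [e2] at h4
  omega

lemma cube_nonempty (τ : Fin d) (K : ℕ) : (cube τ K).Nonempty := by
  rw [← Finset.card_pos, card_cube]
  positivity

lemma fib_half {τ : Fin d} {K : ℕ} (z' : Fin d → ℕ) :
    ((cube τ (K + 1)).filter fun z => (fun k => z k / 2) = z').card ≤ 2 ^ (d - 1) := by
  have h1 : ((cube τ (K + 1)).filter fun z => (fun k => z k / 2) = z').card ≤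
      (Fintype.piFinset fun k : Fin d => if k = τ then ({0} : Finset ℕ) else {0, 1}).card := by
    refine Finset.card_le_card_of_injOn (fun z k => z k % 2) (fun z hz => ?_)
      fun z hz z2 hz2 h => ?_
    · have hz := (Finset.mem_filter.1 hz).1
      obtain ⟨h1, h2⟩ := mem_cube.1 hz
      refine Finset.mem_coe.2 (Fintype.mem_piFinset.2 fun k => ?_)
      by_cases hk : k = τ
      · subst hk; simp [h1]
      · rw [if_neg hk]
        have := Nat.mod_two_eq_zero_or_one (z k)
        simpa using this
    · have e1 := (Finset.mem_filter.1 hz).2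
      have e2 := (Finset.mem_filter.1 hz2).2
      funext k
      have e3 := congrFun (e1.trans e2.symm) k
      have e4 := congrFun h k
      simp only at e3 e4
      omega
  refine h1.trans (le_of_eq ?_)
  rw [Fintype.card_piFinset]
  have h : ∀ k : Fin d, (if k = τ then ({0} : Finset ℕ) else {0, 1}).card =
      if k = τ then 1 else 2 := by
    intro k
    split_ifs
    · simp
    · rfl
  simp only [h]
  rw [Finset.prod_ite, Finset.prod_const_one, one_mul, Finset.prod_const]
  congr 1
  have : (Finset.univ.filter fun k : Fin d => ¬k = τ) = Finset.univ.erase τ := by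
    ext k; simp
  rw [this, Finset.card_erase_of_mem (Finset.mem_univ τ), Finset.card_univ, Fintype.card_fin]

/-! ### the links of the words -/

section pos

variable {l : ℕ}

lemma rep_lk {A : Type*} [AddCommGroup A] {u : Fin d → A} {x : A} {i : Fin d} {k : ℕ}
    {f : A × Fin d} (h : f ∈ lk u x (List.replicate k i)) :
    f.2 = i ∧ ∃ s < k, f.1 = x + s • u i := by
  induction k generalizing x with
  | zero => simp [lk] at h
  | succ k ih =>
    rw [List.replicate_succ, lk, List.mem_cons] at h
    rcases h with h | h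
    · rw [h]
      exact ⟨rfl, 0, Nat.succ_pos _, by simp⟩
    · obtain ⟨h1, s, hs, h2⟩ := ih h
      refine ⟨h1, s + 1, by omega, ?_⟩
      rw [h2, add_smul, one_smul]
      abel

/-- the directions before `k` in the list `K` -/
def bf (K : List (Fin d)) (k : Fin d) : List (Fin d) := K.takeWhile fun a => decide (a ≠ k)

lemma bf_cons_self (K : List (Fin d)) (k : Fin d) : bf (k :: K) k = [] := by
  unfold bf
  simp

lemma bf_cons_ne (K : List (Fin d)) {a k : Fin d} (h : a ≠ k) : bf (a :: K) k = a :: bf K k := by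
  unfold bf
  simp [h]

lemma mem_bf {K : List (Fin d)} {k j : Fin d} (h : j ∈ bf K k) : j ∈ K :=
  (List.takeWhile_sublist _).subset h

/-- the links of a comb -/
lemma cmb_lk {x : Fin d → ZMod l} {v : Fin d → ℕ} {K : List (Fin d)} (hK : K.Nodup)
    {e : Ed d l} (he : e ∈ lk eT x (cmb v K)) : e.2 ∈ K ∧ ∃ a : Fin d → ℕ,
      e.1 = x + ct l a ∧ a e.2 < v e.2 ∧ ∀ j, j ≠ e.2 → a j = if j ∈ bf K e.2 then v j else 0 := by
  induction K generalizing x with
  | nil => simp [cmb, lk] at he
  | cons k K ih =>
    have hk := List.nodup_cons.1 hK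
    rw [cmb_cons, lk_append, List.mem_append] at he
    rcases he with he | he
    · obtain ⟨h1, s, hs, h2⟩ := rep_lk he
      refine ⟨by rw [h1]; exact List.mem_cons_self, fun j => if j = k then s else 0, ?_, ?_, ?_⟩
      · rw [h2]
        funext j
        by_cases hj : j = k
        · subst hj; simp [eT, ct]
        · simp [eT, ct, hj]
      · rw [h1]; simpa using hs
      · intro j hj
        rw [h1] at hj ⊢
        rw [bf_cons_self]
        simp [hj]
    · rw [dsp_rep] at he
      obtain ⟨h1, a, h2, h3, h4⟩ := ih hk.2 he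
      have hne : k ≠ e.2 := fun h => hk.1 (h ▸ h1)
      have hkb : k ∉ bf K e.2 := fun h => hk.1 (mem_bf h)
      have hak : a k = 0 := by rw [h4 k hne, if_neg hkb]
      refine ⟨List.mem_cons_of_mem _ h1, fun j => if j = k then v k else a j, ?_, ?_, ?_⟩
      · rw [h2]
        funext j
        by_cases hj : j = k
        · subst hj; simp [eT, ct, hak]
        · simp [eT, ct, hj]
      · show (if e.2 = k then v k else a e.2) < v e.2
        rw [if_neg (Ne.symm hne)]; exact h3
      · intro j hj
        rw [bf_cons_ne K hne]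
        by_cases hjk : j = k
        · subst hjk; simp
        · simp [hjk, h4 j hj]

lemma ct_inj {x : Fin d → ZMod l} {a b : Fin d → ℕ} {j : Fin d} (ha : a j < l) (hb : b j < l)
    (h : (x + ct l a) j = (x + ct l b) j) : a j = b j := by
  rw [Pi.add_apply, Pi.add_apply] at h
  have h1 := add_left_cancel h
  unfold ct at h1
  have h2 := congrArg ZMod.val h1
  rwa [ZMod.val_natCast_of_lt ha, ZMod.val_natCast_of_lt hb] at h2

lemma ct_add (a b : Fin d → ℕ) : ct l (fun k => a k + b k) = ct l a + ct l b := by
  funext j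
  simp [ct]

lemma i_bf (i : Fin d) {k : Fin d} (hk : k ≠ i) : i ∈ bf (od i) k := by
  unfold od
  rw [bf_cons_ne _ (Ne.symm hk)]
  exact List.mem_cons_self

lemma bf_i (i : Fin d) : bf (od i) i = [] := bf_cons_self _ _

/-- the links of the fan -/
lemma fw_lk {i τ j₀ : Fin d} (hj : j₀ ≠ i) {K : ℕ} {z : Fin d → ℕ} (hz : z ∈ cube τ K)
    {x : Fin d → ZMod l} {e : Ed d l} (he : e ∈ lk eT x (fw i K z)) :
    ∃ a : Fin d → ℕ, e.1 = x + ct l a ∧ (∀ j, a j ≤ z j) ∧ (e.2 = i → a j₀ < 2 ^ K) := by
  induction K generalizing z with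
  | zero =>
    rw [fw] at he
    obtain ⟨h1, a, h2, h3, h4⟩ := cmb_lk (od_nodup i) he
    refine ⟨a, h2, fun j => ?_, fun hi => ?_⟩
    · by_cases hje : j = e.2
      · rw [hje]; exact h3.le
      · rw [h4 j hje]; split_ifs <;> simp
    · have := h4 j₀ (by rw [hi]; exact hj)
      rw [hi, bf_i] at this
      simp at this
      rw [this]; norm_num
  | succ K ih =>
    rw [fw, lk_append, List.mem_append] at he
    have hh := cube_half hz
    rcases he with he | he
    · obtain ⟨a, h1, h2, h3⟩ := ih hh he
      refine ⟨a, h1, fun j => (h2 j).trans (Nat.div_le_self _ _), fun hi => ?_⟩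
      have := h3 hi
      rw [pow_succ]; omega
    · rw [dsp_fw] at he
      obtain ⟨h1, a, h2, h3, h4⟩ := cmb_lk (od_nodup i) he
      refine ⟨fun k => z k / 2 + a k, ?_, fun j => ?_, fun hi => ?_⟩
      · rw [h2, ct_add, add_assoc]
      · by_cases hje : j = e.2
        · rw [hje]
          simp only at h3 ⊢
          omega
        · have h5 := h4 j hje
          show z j / 2 + a j ≤ z j
          rw [h5]
          split_ifs
          · omega
          · omega
      · have h5 := h4 j₀ (by rw [hi]; exact hj)
        rw [hi, bf_i] at h5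
        simp at h5
        simp only [h5, add_zero]
        have := cube_lt hh j₀
        exact this

end pos

end

end Pool.Agent.V11260
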