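import Mathlib
import Pool.Agent.V11260.Fan

/-!
# The energy of the fans
-/

open Matrix Filter
open Pool.Agent.H906R3.YM hiding Pl
open Pool.Agent.W793.YM Pool.Agent.TH618.YM Pool.Agent.Y14

namespace Pool.Agent.V11260

set_option linter.unusedSectionVars false
set_option linter.unusedVariables false

noncomputable section

variable {d l : ℕ}

open Classical in
/-- the number of the paths through a link -/
def cn {α : Type*} (C : Finset α) (Lf : α → List (Ed d l)) (e : Ed d l) : ℕ :=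
  (C.filter fun z => e ∈ Lf z).card

lemma cn_sum [NeZero l] {α : Type*} (C : Finset α) (Lf : α → List (Ed d l)) :
    ∑ e, cn C Lf e ≤ ∑ z ∈ C, (Lf z).length := by
  classical
  unfold cn
  simp only [Finset.card_filter]
  rw [Finset.sum_comm]
  refine Finset.sum_le_sum fun z _ => ?_
  rw [← Finset.card_filter]
  refine le_trans (Finset.card_le_card (t := (Lf z).toFinset) fun e he => ?_)
    (List.toFinset_card_le _)
  exact List.mem_toFinset.2 (Finset.mem_filter.1 he).2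

lemma cn_sq [NeZero l] {α : Type*} (C : Finset α) (Lf : α → List (Ed d l)) {B Z : ℕ}
    (hB : ∀ e, cn C Lf e ≤ B) (hZ : ∀ z ∈ C, (Lf z).length ≤ Z) :
    ∑ e, cn C Lf e ^ 2 ≤ B * (C.card * Z) := by
  calc ∑ e, cn C Lf e ^ 2 ≤ ∑ e, B * cn C Lf e :=
        Finset.sum_le_sum fun e _ => by
          rw [pow_two]; exact Nat.mul_le_mul_right _ (hB e)
    _ = B * ∑ e, cn C Lf e := by rw [Finset.mul_sum]
    _ ≤ B * (C.card * Z) := by
        refine Nat.mul_le_mul_left _ ((cn_sum C Lf).trans ?_)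
        refine (Finset.sum_le_sum hZ).trans (le_of_eq ?_)
        rw [Finset.sum_const, smul_eq_mul]

variable {i τ j₀ : Fin d} {K : ℕ} {x : Fin d → ZMod l}

/-- the links of the last stage -/
def lst (i : Fin d) (x : Fin d → ZMod l) (z : Fin d → ℕ) : List (Ed d l) :=
  lk eT (x + ct l fun k => z k / 2) (cmb (fun k => z k - z k / 2) (od i))

lemma lst_lk {z : Fin d → ℕ} {e : Ed d l} (he : e ∈ lst i x z) : e.2 ∈ od i ∧
    z e.2 ≠ 0 ∧ ∃ a : Fin d → ℕ, e.1 = x + ct l a ∧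
      (∀ j, a j ≤ z j) ∧
      ∀ j, j ≠ e.2 → a j = if j ∈ bf (od i) e.2 then z j else z j / 2 := by
  unfold lst at he
  obtain ⟨h1, a, h2, h3, h4⟩ := cmb_lk (od_nodup i) he
  have h5 : ∀ j, j ≠ e.2 → (fun k => z k / 2 + a k) j =
      if j ∈ bf (od i) e.2 then z j else z j / 2 := by
    intro j hj
    show z j / 2 + a j = _
    rw [h4 j hj]
    split_ifs
    · omega
    · omega
  refine ⟨h1, ?_, fun k => z k / 2 + a k, ?_, fun j => ?_, h5⟩
  · intro h0
    rw [h0] at h3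
    simp at h3
  · rw [h2, ct_add, add_assoc]
  · by_cases hj : j = e.2
    · rw [hj]
      show z e.2 / 2 + a e.2 ≤ z e.2
      omega
    · rw [h5 j hj]
      split_ifs
      · exact le_rfl
      · exact Nat.div_le_self _ _

lemma cn_lst (hl : 2 ^ (K + 2) ≤ l) (e : Ed d l) :
    cn (cube τ (K + 1)) (lst i x) e ≤ 2 ^ (K + 1) * 2 ^ d := by
  classical
  unfold cn
  have h1 : ((cube τ (K + 1)).filter fun z => e ∈ lst i x z).card ≤
      (Finset.Ico (2 ^ (K + 1)) (2 ^ (K + 2)) ×ˢ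
        (Finset.univ : Finset (Fin d → Fin 2))).card := by
    refine Finset.card_le_card_of_injOn
      (fun z => (z e.2, fun j => ⟨z j % 2, Nat.mod_lt _ (by norm_num)⟩)) (fun z hz => ?_)
      fun z hz z' hz' h => ?_
    · obtain ⟨hz1, hz2⟩ := Finset.mem_filter.1 hz
      obtain ⟨h1, h2, -⟩ := lst_lk hz2
      obtain ⟨h3, h4⟩ := mem_cube.1 hz1
      have h5 : e.2 ≠ τ := fun h => h2 (by rw [h]; exact h3)
      refine Finset.mem_coe.2 (Finset.mem_product.2 ⟨Finset.mem_Ico.2 ?_, Finset.mem_univ _⟩)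
      exact h4 _ h5
    · obtain ⟨hz1, hz2⟩ := Finset.mem_filter.1 hz
      obtain ⟨hz1', hz2'⟩ := Finset.mem_filter.1 hz'
      obtain ⟨-, -, a, h1, h2, h3⟩ := lst_lk hz2
      obtain ⟨-, -, a', h1', h2', h3'⟩ := lst_lk hz2'
      have hlt : ∀ j, z j < l := fun j => lt_of_lt_of_le (cube_lt hz1 j) hl
      have hlt' : ∀ j, z' j < l := fun j => lt_of_lt_of_le (cube_lt hz1' j) hl
      have hp := Prod.ext_iff.1 h
      simp only at hp
      funext j
      by_cases hj : j = e.2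
      · rw [hj]; exact hp.1
      · have e1 : a j = a' j := ct_inj (x := x) (lt_of_le_of_lt (h2 j) (hlt j))
          (lt_of_le_of_lt (h2' j) (hlt' j)) (by rw [← h1, ← h1'])
        have e2 : z j % 2 = z' j % 2 := by
          have := congrFun hp.2 j
          exact congrArg Fin.val this
        rw [h3 j hj, h3' j hj] at e1
        split_ifs at e1
        · exact e1
        · omega
  refine h1.trans (le_of_eq ?_)
  rw [Finset.card_product, Nat.card_Ico, Finset.card_univ, Fintype.card_pi]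
  simp only [Fintype.card_fin, Finset.prod_const, Finset.card_univ]
  have : 2 ^ (K + 2) = 2 * 2 ^ (K + 1) := by ring
  rw [this]
  congr 1
  omega

lemma cn_step (e : Ed d l) : cn (cube τ (K + 1)) (fun z => lk eT x (fw i (K + 1) z)) e ≤
    2 ^ (d - 1) * cn (cube τ K) (fun z => lk eT x (fw i K z)) e +
      cn (cube τ (K + 1)) (lst i x) e := by
  classical
  unfold cn
  obtain ⟨A, hA⟩ : ∃ A, A = (cube τ (K + 1)).filter fun z =>
    e ∈ lk eT x (fw i K (fun k => z k / 2)) := ⟨_, rfl⟩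
  obtain ⟨B, hB⟩ : ∃ B, B = (cube τ (K + 1)).filter fun z => e ∈ lst i x z := ⟨_, rfl⟩
  have h1 : ((cube τ (K + 1)).filter fun z => e ∈ lk eT x (fw i (K + 1) z)) ⊆ A ∪ B := by
    intro z hz
    obtain ⟨hz1, hz2⟩ := Finset.mem_filter.1 hz
    rw [fw, lk_append, dsp_fw, List.mem_append] at hz2
    rw [hA, hB]
    rcases hz2 with h | h
    · exact Finset.mem_union_left _ (Finset.mem_filter.2 ⟨hz1, h⟩)
    · exact Finset.mem_union_right _ (Finset.mem_filter.2 ⟨hz1, h⟩)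
  have h2 : A.card ≤ 2 ^ (d - 1) * (A.image fun z k => z k / 2).card := by
    refine Finset.card_le_mul_card_image _ _ fun z' _ => ?_
    refine le_trans (Finset.card_le_card ?_) (fib_half (τ := τ) (K := K) z')
    intro z hz
    rw [hA, Finset.filter_filter] at hz
    obtain ⟨hz1, hz2⟩ := Finset.mem_filter.1 hz
    exact Finset.mem_filter.2 ⟨hz1, hz2.2⟩
  have h3 : (A.image fun z k => z k / 2) ⊆
      (cube τ K).filter fun z => e ∈ lk eT x (fw i K z) := by
    intro z' hz'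
    obtain ⟨z, hz, rfl⟩ := Finset.mem_image.1 hz'
    rw [hA] at hz
    obtain ⟨hz1, hz2⟩ := Finset.mem_filter.1 hz
    exact Finset.mem_filter.2 ⟨cube_half hz1, hz2⟩
  calc _ ≤ (A ∪ B).card := Finset.card_le_card h1
    _ ≤ A.card + B.card := Finset.card_union_le _ _
    _ ≤ 2 ^ (d - 1) * (A.image fun z k => z k / 2).card + B.card := by omega
    _ ≤ _ := by
        have h4 := Finset.card_le_card h3
        have h5 := Nat.mul_le_mul_left (2 ^ (d - 1)) h4
        rw [hB]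
        exact Nat.add_le_add_right h5 _

lemma cn_disj (hi : i ≠ τ) (hj : j₀ ≠ i) (hjτ : j₀ ≠ τ) (hl : 2 ^ (K + 2) ≤ l) (e : Ed d l) :
    cn (cube τ K) (fun z => lk eT x (fw i K z)) e * cn (cube τ (K + 1)) (lst i x) e = 0 := by
  classical
  by_contra hne
  have h1 : cn (cube τ K) (fun z => lk eT x (fw i K z)) e ≠ 0 := left_ne_zero_of_mul hne
  have h2 : cn (cube τ (K + 1)) (lst i x) e ≠ 0 := right_ne_zero_of_mul hne
  unfold cn at h1 h2
  obtain ⟨z, hz⟩ := Finset.card_pos.1 (Nat.pos_of_ne_zero h1)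
  obtain ⟨y, hy⟩ := Finset.card_pos.1 (Nat.pos_of_ne_zero h2)
  obtain ⟨hz1, hz2⟩ := Finset.mem_filter.1 hz
  obtain ⟨hy1, hy2⟩ := Finset.mem_filter.1 hy
  obtain ⟨a, a1, a2, a3⟩ := fw_lk hj hz1 hz2
  obtain ⟨-, -, b, b1, b2, b3⟩ := lst_lk hy2
  have hla : ∀ j, a j < l := fun j => lt_of_le_of_lt (a2 j)
    (lt_of_lt_of_le (cube_lt hz1 j) (le_trans (Nat.pow_le_pow_right (by norm_num) (by omega)) hl))
  have hlb : ∀ j, b j < l := fun j => lt_of_le_of_lt (b2 j)
    (lt_of_lt_of_le (cube_lt hy1 j) hl)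
  have hab : ∀ j, a j = b j := fun j => ct_inj (x := x) (hla j) (hlb j) (by rw [← a1, ← b1])
  obtain ⟨y1, y2⟩ := mem_cube.1 hy1
  have e1 : 2 ^ (K + 1) = 2 * 2 ^ K := by ring
  by_cases he : e.2 = i
  · have h3 := a3 he
    rw [hab, b3 j₀ (by rw [he]; exact hj), he, bf_i] at h3
    have h4 := (y2 j₀ hjτ).1
    simp at h3
    omega
  · have h3 := a2 i
    rw [hab, b3 i (Ne.symm he), if_pos (i_bf i he)] at h3
    have h4 := (y2 i hi).1
    have h5 := cube_lt hz1 i
    omega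

/-- the sum of the scales -/
def lam (d K : ℕ) : ℝ := ∑ k ∈ Finset.range (K + 1), ((2 : ℝ) ^ k) ^ 2 / (2 ^ k) ^ (d - 1)

lemma lam_nonneg (d K : ℕ) : 0 ≤ lam d K := Finset.sum_nonneg fun k _ => by positivity

/-- **the energy of the fan** -/
theorem fan_sq [NeZero l] (hi : i ≠ τ) (hj : j₀ ≠ i) (hjτ : j₀ ≠ τ) (hl : 2 ^ (K + 1) ≤ l) :
    ((∑ e, cn (cube τ K) (fun z => lk eT x (fw i K z)) e ^ 2 : ℕ) : ℝ) ≤
      d * 2 ^ d * ((2 ^ K) ^ (d - 1)) ^ 2 * lam d K := by
  induction K with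
  | zero =>
    have hc : (cube τ 0).card = 1 := by rw [card_cube]; simp
    have h1 : ∑ e, cn (cube τ 0) (fun z => lk eT x (fw i 0 z)) e ^ 2 ≤ 1 * (1 * d) := by
      rw [← hc]
      refine cn_sq _ _ (fun e => ?_) fun z hz => ?_
      · unfold cn
        exact Finset.card_filter_le _ _
      · rw [lk_length, length_fw]
        calc ∑ k, z k ≤ ∑ k : Fin d, 1 := Finset.sum_le_sum fun k _ => by
              have := cube_lt hz k
              omega
          _ = d := by simp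
    have h2 : lam d 0 = 1 := by unfold lam; simp
    rw [h2]
    have h3 : ((∑ e, cn (cube τ 0) (fun z => lk eT x (fw i 0 z)) e ^ 2 : ℕ) : ℝ) ≤ d := by
      exact_mod_cast h1.trans (by omega)
    refine h3.trans ?_
    have h4 : (1 : ℝ) ≤ 2 ^ d := one_le_pow₀ (by norm_num)
    have h5 : (0 : ℝ) ≤ d := Nat.cast_nonneg _
    simp
    nlinarith
  | succ K ih =>
    have hl' : 2 ^ (K + 1) ≤ l := le_trans (Nat.pow_le_pow_right (by norm_num) (by omega)) hl
    have h0 := ih hl'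
    obtain ⟨A, hA⟩ : ∃ A : Ed d l → ℕ, A = cn (cube τ K) (fun z => lk eT x (fw i K z)) :=
      ⟨_, rfl⟩
    obtain ⟨B, hB⟩ : ∃ B : Ed d l → ℕ, B = cn (cube τ (K + 1)) (lst i x) := ⟨_, rfl⟩
    have h1 : ∀ e, cn (cube τ (K + 1)) (fun z => lk eT x (fw i (K + 1) z)) e ^ 2 ≤
        (2 ^ (d - 1)) ^ 2 * A e ^ 2 + B e ^ 2 := by
      intro e
      have h2 := cn_step (i := i) (τ := τ) (K := K) (x := x) e
      have h3 := cn_disj (K := K) (x := x) hi hj hjτ hl e
      rw [← hA, ← hB] at h2 h3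
      calc _ ≤ (2 ^ (d - 1) * A e + B e) ^ 2 := Nat.pow_le_pow_left h2 2
        _ = (2 ^ (d - 1)) ^ 2 * A e ^ 2 + B e ^ 2 + 2 * 2 ^ (d - 1) * (A e * B e) := by ring
        _ = _ := by rw [h3]; ring
    have h2 : ∑ e, B e ^ 2 ≤ 2 ^ (K + 1) * 2 ^ d * ((2 ^ (K + 1)) ^ (d - 1) *
        (d * 2 ^ (K + 1))) := by
      rw [hB, ← card_cube τ (K + 1)]
      refine cn_sq _ _ (fun e => cn_lst hl e) fun z hz => ?_
      unfold lst
      rw [lk_length, cmb_length _ (od_nodup i), od_toFinset]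
      calc ∑ k, (z k - z k / 2) ≤ ∑ k : Fin d, 2 ^ (K + 1) := Finset.sum_le_sum fun k _ => by
            have := cube_lt hz k
            have e1 : 2 ^ (K + 1 + 1) = 2 * 2 ^ (K + 1) := by ring
            rw [e1] at this
            omega
        _ = d * 2 ^ (K + 1) := by simp
    have h3 : ((∑ e, cn (cube τ (K + 1)) (fun z => lk eT x (fw i (K + 1) z)) e ^ 2 : ℕ) : ℝ) ≤
        (2 ^ (d - 1)) ^ 2 * ((∑ e, A e ^ 2 : ℕ) : ℝ) + ((∑ e, B e ^ 2 : ℕ) : ℝ) := by
      have h4 : ∑ e, cn (cube τ (K + 1)) (fun z => lk eT x (fw i (K + 1) z)) e ^ 2 ≤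
          (2 ^ (d - 1)) ^ 2 * ∑ e, A e ^ 2 + ∑ e, B e ^ 2 := by
        rw [Finset.mul_sum, ← Finset.sum_add_distrib]
        exact Finset.sum_le_sum fun e _ => h1 e
      exact_mod_cast h4
    have h4 : ((∑ e, B e ^ 2 : ℕ) : ℝ) ≤ 2 ^ (K + 1) * 2 ^ d * ((2 ^ (K + 1)) ^ (d - 1) *
        (d * 2 ^ (K + 1))) := by exact_mod_cast h2
    have h5 : lam d (K + 1) = lam d K + ((2 : ℝ) ^ (K + 1)) ^ 2 / (2 ^ (K + 1)) ^ (d - 1) := by
      unfold lam
      rw [Finset.sum_range_succ _ (K + 1)]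
    rw [← hA] at h0
    refine h3.trans ((add_le_add (mul_le_mul_of_nonneg_left h0 (by positivity)) h4).trans
      (le_of_eq ?_))
    rw [h5]
    have e1 : (((2 : ℝ) ^ (K + 1)) ^ (d - 1)) ^ 2 =
        (2 ^ (d - 1)) ^ 2 * ((2 ^ K) ^ (d - 1)) ^ 2 := by
      rw [← mul_pow, ← mul_pow]
      congr 2
      ring
    have e2 : ((2 : ℝ) ^ (K + 1)) ^ (d - 1) ≠ 0 := by positivity
    rw [mul_add]
    congr 1
    · rw [e1]; ring
    · field_simp

/-- the links of the straight parts -/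
lemma cn_str (hi : i ≠ τ) (hl : 2 ^ (K + 1) ≤ l) (R : ℕ) (e : Ed d l) :
    cn (cube τ K) (fun z => lk eT (x + ct l z) (List.replicate R i)) e ≤ 2 ^ K := by
  classical
  unfold cn
  have h1 : ((cube τ K).filter fun z => e ∈ lk eT (x + ct l z) (List.replicate R i)).card ≤
      (Finset.Ico (2 ^ K) (2 ^ (K + 1))).card := by
    refine Finset.card_le_card_of_injOn (fun z => z i) (fun z hz => ?_)
      fun z hz z' hz' h => ?_
    · obtain ⟨hz1, hz2⟩ := Finset.mem_filter.1 hz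
      exact Finset.mem_coe.2 (Finset.mem_Ico.2 ((mem_cube.1 hz1).2 i hi))
    · obtain ⟨hz1, hz2⟩ := Finset.mem_filter.1 hz
      obtain ⟨hz1', hz2'⟩ := Finset.mem_filter.1 hz'
      obtain ⟨-, s, hs, h1⟩ := rep_lk hz2
      obtain ⟨-, s', hs', h1'⟩ := rep_lk hz2'
      funext j
      by_cases hj : j = i
      · rw [hj]; exact h
      · have h2 : (x + ct l z) j = (x + ct l z') j := by
          have h3 := congrFun (h1.symm.trans h1') j
          simpa [eT, hj] using h3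
        exact ct_inj (lt_of_lt_of_le (cube_lt hz1 j) hl) (lt_of_lt_of_le (cube_lt hz1' j) hl) h2
  refine h1.trans (le_of_eq ?_)
  rw [Nat.card_Ico, pow_succ]; omega

/-- **the energy of the family** -/
theorem fan_energy [NeZero l] (hi : i ≠ τ) (hj : j₀ ≠ i) (hjτ : j₀ ≠ τ) (hl : 2 ^ (K + 1) ≤ l)
    (x v : Fin d → ZMod l) (R : ℕ) : ∃ j : Ed d l → ℝ,
    (∀ e, ∀ S' ⊆ cube τ K, (∀ z ∈ S', e ∈ lk eT x (fw i K z ++ List.replicate R i) ++
      lk eT (x + v) (fw i K z)) → ∑ z ∈ S', (1 / ((cube τ K).card : ℝ)) ≤ j e) ∧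
    ∑ e, j e ^ 2 ≤ 3 * (2 * (d * 2 ^ d * lam d K) + R * 2 ^ K / (2 ^ K) ^ (d - 1)) := by
  classical
  obtain ⟨A, hA⟩ : ∃ A : Ed d l → ℕ, A = cn (cube τ K) (fun z => lk eT x (fw i K z)) :=
    ⟨_, rfl⟩
  obtain ⟨A', hA'⟩ : ∃ A : Ed d l → ℕ, A = cn (cube τ K) (fun z => lk eT (x + v) (fw i K z)) :=
    ⟨_, rfl⟩
  obtain ⟨B, hB⟩ : ∃ B : Ed d l → ℕ, B = cn (cube τ K)
    (fun z => lk eT (x + ct l z) (List.replicate R i)) := ⟨_, rfl⟩
  obtain ⟨c, hc⟩ : ∃ c : ℝ, c = ((cube τ K).card : ℝ) := ⟨_, rfl⟩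
  have hc1 : c = (2 ^ K) ^ (d - 1) := by rw [hc, card_cube]; push_cast; ring
  have hc0 : 0 < c := by rw [hc1]; positivity
  rw [← hc]
  refine ⟨fun e => (A e + B e + A' e) / c, fun e S' hS' h => ?_, ?_⟩
  · rw [Finset.sum_const, nsmul_eq_mul, mul_one_div]
    refine div_le_div_of_nonneg_right ?_ hc0.le
    have h1 : S' ⊆ ((cube τ K).filter fun z => e ∈ lk eT x (fw i K z)) ∪
        ((cube τ K).filter fun z => e ∈ lk eT (x + ct l z) (List.replicate R i)) ∪
        ((cube τ K).filter fun z => e ∈ lk eT (x + v) (fw i K z)) := by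
      intro z hz
      have h2 := h z hz
      rw [lk_append, dsp_fw] at h2
      simp only [List.mem_append] at h2
      simp only [Finset.mem_union, Finset.mem_filter]
      have h3 := hS' hz
      tauto
    have h2 : S'.card ≤ A e + B e + A' e := by
      refine (Finset.card_le_card h1).trans ((Finset.card_union_le _ _).trans ?_)
      rw [hA, hA', hB]
      exact Nat.add_le_add_right (Finset.card_union_le _ _) _
    exact_mod_cast h2
  · have hsq : ∀ a b c : ℝ, (a + b + c) ^ 2 ≤ 3 * (a ^ 2 + b ^ 2 + c ^ 2) := fun a b c => by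
      nlinarith [sq_nonneg (a - b), sq_nonneg (b - c), sq_nonneg (a - c)]
    have e1 : ((∑ e, A e ^ 2 : ℕ) : ℝ) ≤ d * 2 ^ d * c ^ 2 * lam d K := by
      rw [hA, hc1]; exact fan_sq hi hj hjτ hl
    have e2 : ((∑ e, A' e ^ 2 : ℕ) : ℝ) ≤ d * 2 ^ d * c ^ 2 * lam d K := by
      rw [hA', hc1]; exact fan_sq hi hj hjτ hl
    have e3 : ((∑ e, B e ^ 2 : ℕ) : ℝ) ≤ 2 ^ K * (c * R) := by
      have h1 : ∑ e, B e ^ 2 ≤ 2 ^ K * ((cube τ K).card * R) := by
        rw [hB]
        refine cn_sq _ _ (fun e => cn_str hi hl R e) fun z hz => ?_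
        rw [lk_length, List.length_replicate]
      rw [hc]
      exact_mod_cast h1
    have h1 : ∑ e, ((A e + B e + A' e : ℝ) / c) ^ 2 ≤
        3 * (((∑ e, A e ^ 2 : ℕ) : ℝ) + ((∑ e, B e ^ 2 : ℕ) : ℝ) + ((∑ e, A' e ^ 2 : ℕ) : ℝ)) /
          c ^ 2 := by
      push_cast
      rw [← Finset.sum_add_distrib, ← Finset.sum_add_distrib, Finset.mul_sum, Finset.sum_div]
      refine Finset.sum_le_sum fun e _ => ?_
      rw [div_pow]
      exact div_le_div_of_nonneg_right (hsq _ _ _) (by positivity)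
    refine h1.trans ?_
    rw [div_le_iff₀ (by positivity)]
    calc _ ≤ 3 * (d * 2 ^ d * c ^ 2 * lam d K + 2 ^ K * (c * R) + d * 2 ^ d * c ^ 2 * lam d K) := by
          linarith
      _ = _ := by
          rw [← hc1]
          field_simp
          ring

end

end Pool.Agent.V11260
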