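import Mathlib
import Pool.Agent.Y14.Sort
import Pool.Agent.V11260.Noise2

/-!
# The variation of a family of transports over one unit of time
-/

open MeasureTheory Matrix Filter
open scoped Matrix.Norms.Frobenius Topology
open Pool.Agent.H906R3.YM hiding Pl
open Pool.Agent.W793.YM Pool.Agent.TH618.YM Pool.Agent.Y14

namespace Pool.Agent.V11260

set_option linter.unusedSectionVars false
set_option linter.unusedVariables false

noncomputable section

section mm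

variable {N : ℕ} {E : Type*} [DecidableEq E] {J : Finset E}

lemma gq_MM {P Q : List E} (hl : (P ++ Q).Nodup) :
    MM fun w : IJ J N → ℝ => gq J w P Q := by
  have hd := List.disjoint_of_nodup_append hl
  intro w i t
  have h1 := pm_MM (N := N) (J := J) hl.of_append_left w i t
  have h2 := pm_MM (N := N) (J := J) hl.of_append_right w i t
  simp only at h1 h2 ⊢
  unfold gq
  have hc : ∀ {k : List E}, i.1.1 ∉ k → ∀ s : ℝ, pm J (Function.update w i s) k = pm J w k := by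
    intro k hk s
    refine pm_congr fun j hj => ?_
    have : j ≠ i := by
      rintro rfl
      exact hk hj
    simp [this]
  by_cases hP : i.1.1 ∈ P
  · have hQ : i.1.1 ∉ Q := fun h => hd hP h
    rw [hc hQ, hc hQ, hc hQ, h1, add_mul, smul_mul_assoc, smul_mul_assoc]
  · rw [hc hP, hc hP, hc hP, h2, conjTranspose_add, conjTranspose_smul, conjTranspose_smul,
      mul_add, mul_smul_comm, mul_smul_comm]
    simp

lemma msum_MM {ι : Type*} [DecidableEq ι] {K : Type*} (S : Finset K) {Q : K → (ι → ℝ) → Mat N}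
    (h : ∀ k ∈ S, MM (Q k)) : MM fun w => ∑ k ∈ S, Q k w := by
  intro w i t
  simp only
  rw [Finset.smul_sum, Finset.smul_sum, ← Finset.sum_add_distrib]
  exact Finset.sum_congr rfl fun k hk => h k hk w i t

end mm

variable {G : Type*} [Group G] [TopologicalSpace G] [IsTopologicalGroup G] [CompactSpace G]
  [SecondCountableTopology G] [MeasurableSpace G] [BorelSpace G] (μ : Measure G)
  [IsProbabilityMeasure μ] [μ.IsMulLeftInvariant] [μ.IsMulRightInvariant] [μ.IsInvInvariant]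
  {N n : ℕ} {L : LD G N n} {d m : ℕ} [NeZero m] {β : ℝ}

/-! ### the reflection -/

lemma rA_eT' (τ : Fin d) (x : Fin d → ZMod (2 * m)) (hx : x τ = 0) :
    rA τ (eT τ + x : Fin d → ZMod (2 * m)) = x := by
  unfold rA
  funext j
  by_cases h : j = τ
  · subst h
    simp [eT, hx]
  · simp [h, eT]

lemma tp_tU' (hm : 2 ≤ m) {τ : Fin d} (U : Ed d (2 * m) → G)
    (x : Fin d → ZMod (2 * m)) {w : List (Fin d)} (hw : τ ∉ w) :
    tp eT ((TR hm τ).tU U) x w = tp eT U (rA τ x) w := by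
  induction w generalizing x with
  | nil => rfl
  | cons i w ih =>
    have hi : i ≠ τ := fun h => hw (h ▸ List.mem_cons_self)
    rw [tp_cons, tp_cons, ih _ fun h => hw (List.mem_cons_of_mem _ h), rA_add hi,
      tU_ne U x hi]

lemma tp_fix' {τ : Fin d} (U : Ed d (2 * m) → G)
    (x : Fin d → ZMod (2 * m)) {w : List (Fin d)} (hw : τ ∉ w) :
    tp eT (fix τ U) x w = tp eT U x w := by
  induction w generalizing x with
  | nil => rfl
  | cons i w ih =>
    have hi : i ≠ τ := fun h => hw (h ▸ List.mem_cons_self)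
    rw [tp_cons, tp_cons, ih _ fun h => hw (List.mem_cons_of_mem _ h), fix_ne U x hi]

lemma pm_tp' {E : Type*} [Fintype E] [DecidableEq E] (T : Refl E) (U : E → G) {l : List E}
    (hl : ∀ f ∈ l, f ∈ T.J) : pm T.J (cv L T U) l = (l.map fun f => L.rho (U f)).prod := by
  induction l with
  | nil => rfl
  | cons f l ih =>
    have h1 := mx_cv (L := L) T U (hl f List.mem_cons_self)
    have h2 := ih fun k hk => hl k (List.mem_cons_of_mem _ hk)
    unfold pm at h2 ⊢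
    rw [List.map_cons, List.map_cons, List.prod_cons, List.prod_cons, h1, h2]

lemma rho_tp' (U : Ed d (2 * m) → G) (x : Fin d → ZMod (2 * m))
    (w : List (Fin d)) :
    L.rho (tp eT U x w) = ((lk eT x w).map fun f => L.rho (U f)).prod := by
  induction w generalizing x with
  | nil => rw [tp_nil, map_one]; rfl
  | cons i w ih => rw [tp_cons, map_mul, ih, lk, List.map_cons, List.prod_cons]

lemma lk_dir' {x : Fin d → ZMod (2 * m)} {w : List (Fin d)} {f : Ed d (2 * m)}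
    (hf : f ∈ lk eT x w) : f.2 ∈ w := by
  obtain ⟨w1, w2, h1, h2⟩ := mem_lk hf
  rw [h1]
  simp

lemma lk_J' (hm : 2 ≤ m) {τ : Fin d} {w : List (Fin d)} (hw : τ ∉ w)
    {x : Fin d → ZMod (2 * m)} (hx : x τ = 1) {f : Ed d (2 * m)}
    (hf : f ∈ lk eT x w) : f ∈ (TR hm τ).J := by
  obtain ⟨w1, w2, h1, h2⟩ := mem_lk hf
  show f ∈ Finset.univ.filter _
  rw [Finset.mem_filter]
  refine ⟨Finset.mem_univ _, fun h => hw (h ▸ lk_dir' hf), Or.inl ?_⟩
  rw [h2, Pi.add_apply, hx, dsp_apply]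
  have : w1.count τ = 0 := List.count_eq_zero.2 fun h => hw (by rw [h1]; simp [h])
  rw [this]
  simp

lemma Un_cv' {E : Type*} [Fintype E] [DecidableEq E] (T : Refl E) (U : E → G) {l : List E}
    (hl : ∀ f ∈ l, f ∈ T.J) : Un T.J (cv L T U) l := fun f hf => by
  refine ⟨hl f hf, ?_⟩
  rw [mx_cv T U (hl f hf)]
  exact L.unit' _

/-! ### the observable -/

section obs

variable {O : Type*} (S : Finset O) (w : O → ℝ) (P Q : O → List (Fin d))
  (v : Fin d → ZMod (2 * m))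

variable (L) in
/-- the average of the transports along the paths `P` from `x`, and back along the paths `Q` to
`x + v` -/
def FF (U : Ed d (2 * m) → G) (x : Fin d → ZMod (2 * m)) : Mat N :=
  ∑ o ∈ S, w o • (L.rho (tp eT U x (P o)) * (L.rho (tp eT U (x + v) (Q o)))ᴴ)

lemma FF_cont (x : Fin d → ZMod (2 * m)) :
    Continuous fun U : Ed d (2 * m) → G => FF L S w P Q v U x := by
  unfold FF
  refine continuous_finsetSum _ fun o _ => ?_
  have h1 : Continuous fun U : Ed d (2 * m) → G => L.rho (tp eT U x (P o)) *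
      (L.rho (tp eT U (x + v) (Q o)))ᴴ :=
    (L.cont.comp (tp_cont x (P o))).mul (L.cont.comp (tp_cont (x + v) (Q o))).star
  exact h1.const_smul (w o)

lemma FF_gt (hd : ∀ o ∈ S, (dsp eT (P o) : Fin d → ZMod (2 * m)) = v + dsp eT (Q o))
    (γ : (Fin d → ZMod (2 * m)) → G) (U : Ed d (2 * m) → G) (x : Fin d → ZMod (2 * m)) :
    FF L S w P Q v (gt γ U) x = L.rho (γ x) * FF L S w P Q v U x * (L.rho (γ (x + v)))ᴴ := by
  unfold FF
  rw [Finset.mul_sum, Finset.sum_mul]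
  refine Finset.sum_congr rfl fun o ho => ?_
  rw [mul_smul_comm, smul_mul_assoc]
  congr 1
  rw [tp_gt, tp_gt, hd o ho, ← add_assoc]
  obtain ⟨g, hg⟩ : ∃ g, g = γ (x + v + dsp eT (Q o)) := ⟨_, rfl⟩
  rw [← hg, map_mul, map_mul, map_mul, map_mul, L.rho_inv, conjTranspose_mul, conjTranspose_mul,
    conjTranspose_conjTranspose]
  have h1 : (L.rho g)ᴴ * L.rho g = 1 := L.unit' g
  calc _ = L.rho (γ x) * L.rho (tp eT U x (P o)) * ((L.rho g)ᴴ * L.rho g) *
        ((L.rho (tp eT U (x + v) (Q o)))ᴴ * (L.rho (γ (x + v)))ᴴ) := by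
        simp only [mul_assoc]
    _ = _ := by rw [h1, mul_one]; simp only [mul_assoc]

lemma FF_tr (z : Fin d → ZMod (2 * m)) (U : Ed d (2 * m) → G) (x : Fin d → ZMod (2 * m)) :
    FF L S w P Q v (tr z U) x = FF L S w P Q v U (x + z) := by
  unfold FF
  refine Finset.sum_congr rfl fun o _ => ?_
  rw [tp_tr, tp_tr, add_right_comm x v z]

variable (N) in
/-- the observable as a function of the coordinates -/
def Qh (hm : 2 ≤ m) (τ : Fin d) (y : IJ (TR (d := d) hm τ).J N → ℝ) : Mat N :=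
  ∑ o ∈ S, w o • gq (TR hm τ).J y (lk eT (eT τ) (P o)) (lk eT (eT τ + v) (Q o))

variable {S w P Q v}

lemma Qh_FF (hm : 2 ≤ m) {τ : Fin d} (hP : ∀ o ∈ S, τ ∉ P o) (hQ : ∀ o ∈ S, τ ∉ Q o)
    (hv : v τ = 0) (U : Ed d (2 * m) → G) :
    Qh N S w P Q v hm τ (cv L (TR hm τ) U) = FF L S w P Q v U (eT τ) := by
  unfold Qh FF gq
  refine Finset.sum_congr rfl fun o ho => ?_
  rw [pm_tp' (TR hm τ) U fun f hf => lk_J' hm (hP o ho) (by simp [eT]) hf,
    pm_tp' (TR hm τ) U fun f hf => lk_J' hm (hQ o ho) (by simp [eT, hv]) hf, rho_tp', rho_tp']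

lemma Qh_tU (hm : 2 ≤ m) {τ : Fin d} (hP : ∀ o ∈ S, τ ∉ P o) (hQ : ∀ o ∈ S, τ ∉ Q o)
    (hv : v τ = 0) (U : Ed d (2 * m) → G) :
    Qh N S w P Q v hm τ (cv L (TR hm τ) ((TR hm τ).tU U)) = FF L S w P Q v U 0 := by
  rw [Qh_FF hm hP hQ hv]
  unfold FF
  refine Finset.sum_congr rfl fun o ho => ?_
  have h1 := rA_eT' (m := m) τ 0 rfl
  rw [add_zero] at h1
  rw [tp_tU' hm U _ (hP o ho), tp_tU' hm U _ (hQ o ho), rA_eT' τ v hv, h1, zero_add]

lemma Qh_MM (hm : 2 ≤ m) {τ : Fin d}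
    (hn : ∀ o ∈ S, (lk eT (eT τ : Fin d → ZMod (2 * m)) (P o) ++ lk eT (eT τ + v) (Q o)).Nodup) :
    MM (Qh N S w P Q v hm τ) := msum_MM S fun o ho => (gq_MM (hn o ho)).smul _

/-- **The variation over one unit of time.** -/
theorem one_step (hm : 2 ≤ m) (hβ : 0 < β) {τ : Fin d} (hP : ∀ o ∈ S, τ ∉ P o)
    (hQ : ∀ o ∈ S, τ ∉ Q o) (hv : v τ = 0)
    (hd : ∀ o ∈ S, (dsp eT (P o) : Fin d → ZMod (2 * m)) = v + dsp eT (Q o))
    (hn : ∀ o ∈ S, (lk eT (eT τ : Fin d → ZMod (2 * m)) (P o) ++ lk eT (eT τ + v) (Q o)).Nodup)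
    (hw : ∀ o, 0 ≤ w o) {ℓ : ℕ} (hℓ : ∀ o ∈ S, (P o).length + (Q o).length ≤ ℓ)
    {j : Ed d (2 * m) → ℝ} (hj : ∀ e, ∀ S' ⊆ S, (∀ o ∈ S',
      e ∈ lk eT (eT τ : Fin d → ZMod (2 * m)) (P o) ++ lk eT (eT τ + v) (Q o)) →
        ∑ o ∈ S', w o ≤ j e) :
    EX μ L β (fun U : Ed d (2 * m) → G => ‖FF L S w P Q v U 0 * L.rho (U (v, τ)) -
      L.rho (U (0, τ)) * FF L S w P Q v U (eT τ)‖ ^ 2) ≤
      N * (2 * N / β) * (1 + 2 * N / β) ^ ℓ * ∑ e, j e ^ 2 := by
  obtain ⟨B, hB⟩ : ∃ B : ℝ, B = N * (2 * N / β) * (1 + 2 * N / β) ^ ℓ * ∑ e, j e ^ 2 :=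
    ⟨_, rfl⟩
  rw [← hB]
  obtain ⟨Φ, hΦ⟩ : ∃ Φ : (Ed d (2 * m) → G) → ℝ, Φ = fun U =>
    ‖FF L S w P Q v U 0 * L.rho (U (v, τ)) - L.rho (U (0, τ)) * FF L S w P Q v U (eT τ)‖ ^ 2 :=
    ⟨_, rfl⟩
  rw [← hΦ]
  have hc : Continuous Φ := by
    rw [hΦ]
    exact ((((FF_cont S w P Q v 0).mul (L.cont.comp (continuous_apply _))).sub
      ((L.cont.comp (continuous_apply _)).mul (FF_cont S w P Q v (eT τ)))).norm).pow 2
  have hgi : GI Φ := fun γ U => by
    rw [hΦ]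
    show ‖_‖ ^ 2 = ‖_‖ ^ 2
    have e1 : L.rho (gt γ U (v, τ)) = L.rho (γ v) * L.rho (U (v, τ)) * (L.rho (γ (v + eT τ)))ᴴ := by
      show L.rho (γ v * U (v, τ) * (γ (v + eT τ))⁻¹) = _
      rw [map_mul, map_mul, L.rho_inv]
    have e2 : L.rho (gt γ U (0, τ)) = L.rho (γ 0) * L.rho (U (0, τ)) * (L.rho (γ (eT τ)))ᴴ := by
      show L.rho (γ 0 * U (0, τ) * (γ (0 + eT τ))⁻¹) = _
      rw [map_mul, map_mul, L.rho_inv, zero_add]
    rw [FF_gt S w P Q v hd, FF_gt S w P Q v hd, e1, e2, zero_add, add_comm v (eT τ)]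
    have h1 : (L.rho (γ v))ᴴ * L.rho (γ v) = 1 := L.unit' _
    have h2 : (L.rho (γ (eT τ)))ᴴ * L.rho (γ (eT τ)) = 1 := L.unit' _
    obtain ⟨a, ha⟩ : ∃ a, a = L.rho (γ 0) := ⟨_, rfl⟩
    obtain ⟨b, hb⟩ : ∃ b, b = L.rho (γ (eT τ + v)) := ⟨_, rfl⟩
    obtain ⟨c, hc⟩ : ∃ c, c = L.rho (γ v) := ⟨_, rfl⟩
    obtain ⟨f, hf⟩ : ∃ f, f = L.rho (γ (eT τ)) := ⟨_, rfl⟩
    obtain ⟨A, hA⟩ : ∃ A, A = FF L S w P Q v U 0 := ⟨_, rfl⟩
    obtain ⟨A', hA'⟩ : ∃ A, A = FF L S w P Q v U (eT τ) := ⟨_, rfl⟩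
    rw [← hc] at h1
    rw [← hf] at h2
    rw [← ha, ← hb, ← hc, ← hf, ← hA, ← hA']
    have e3 : a * A * cᴴ * (c * L.rho (U (v, τ)) * bᴴ) -
        a * L.rho (U (0, τ)) * fᴴ * (f * A' * bᴴ) =
        a * (A * L.rho (U (v, τ)) - L.rho (U (0, τ)) * A') * bᴴ := by
      calc _ = a * A * (cᴴ * c) * L.rho (U (v, τ)) * bᴴ -
            a * L.rho (U (0, τ)) * (fᴴ * f) * A' * bᴴ := by simp only [mul_assoc]
        _ = _ := by
            rw [h1, h2, mul_one, mul_one]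
            noncomm_ring
    rw [e3, ha, hb, mul_assoc, norm_lmul, ← L.rho_inv, norm_rmul]
  have hgi1 : GI fun _ : Ed d (2 * m) → G => (1 : ℝ) := fun γ U => rfl
  obtain ⟨c, hc0, hred⟩ := Zt_red μ (L := L) hm τ β
  unfold EX
  rw [div_le_iff₀ (Zt_pos μ β), hred _ hc hgi, hred _ continuous_const hgi1]
  have hβ2 : (1 / Real.sqrt β) ^ 2 = 1 / β := by
    rw [div_pow, one_pow, Real.sq_sqrt hβ.le]
  have h7 := noise_domM μ (L := L) (TR hm τ) hβ hβ2 (Qh_MM (N := N) (S := S) (w := w) hm hn)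
    (Sm_cont (wR L β m τ)) (wR_dep hm β τ) (wR_nonneg β τ)
  have h2 : (fun U : Ed d (2 * m) → G => Φ (fix τ U)) = fun U : Ed d (2 * m) → G =>
      ‖Qh N S w P Q v hm τ (cv L (TR hm τ) U) -
        Qh N S w P Q v hm τ (cv L (TR hm τ) ((TR hm τ).tU U))‖ ^ 2 := by
    funext U
    rw [Qh_FF hm hP hQ hv, Qh_tU hm hP hQ hv, hΦ]
    simp only
    rw [fix_i0' U v (Or.inl hv), fix_i0' U 0 (Or.inl rfl), map_one, mul_one, one_mul,
      ← norm_neg]
    congr 2
    have e1 : ∀ x, FF L S w P Q v (fix τ U) x = FF L S w P Q v U x := by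
      intro x
      unfold FF
      refine Finset.sum_congr rfl fun o ho => ?_
      rw [tp_fix' U _ (hP o ho), tp_fix' U _ (hQ o ho)]
    rw [e1, e1]
    abel
  have hcv : Continuous fun U : Ed d (2 * m) → G => cv L (TR hm τ) U := cv_cont _
  have hQc : Continuous (Qh N S w P Q v hm τ) :=
    mm_cont (Qh_MM (N := N) (S := S) (w := w) hm hn)
  have h8 : (TR hm τ).Ew μ L β (wR L β m τ).1 (fun U : Ed d (2 * m) → G => av (fun s =>
      ‖Qh N S w P Q v hm τ (cv L (TR hm τ) U + sg (1 / Real.sqrt β) s) -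
        Qh N S w P Q v hm τ (cv L (TR hm τ) U)‖ ^ 2)) ≤
      (TR hm τ).Ew μ L β (wR L β m τ).1 (fun _ => B * 1) := by
    refine Ew_mono μ (TR hm τ) (Sm_cont (wR L β m τ)) (wR_nonneg β τ)
      (av_cont fun s => (((hQc.comp (hcv.add continuous_const)).sub (hQc.comp hcv)).norm).pow 2)
      continuous_const fun U => ?_
    rw [mul_one, hB]
    have hJ1 : ∀ o ∈ S, ∀ f ∈ lk eT (eT τ : Fin d → ZMod (2 * m)) (P o) ++
        lk eT (eT τ + v) (Q o), f ∈ (TR hm τ).J := by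
      intro o ho f hf
      rcases List.mem_append.1 hf with h | h
      · exact lk_J' hm (hP o ho) (by simp [eT]) h
      · exact lk_J' hm (hQ o ho) (by simp [eT, hv]) h
    have h9 := fam_resp' (J := (TR hm τ).J) (x := cv L (TR hm τ) U) (δ := 1 / Real.sqrt β) S
      (P := fun o => lk eT (eT τ : Fin d → ZMod (2 * m)) (P o))
      (Q := fun o => lk eT (eT τ + v) (Q o)) hn
      (fun o ho => Un_cv' (L := L) (TR hm τ) U (hJ1 o ho)) hw (ℓ := ℓ)
      (fun o ho => by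
        rw [List.length_append, lk_length, lk_length]
        exact hℓ o ho) hj
    rw [hβ2] at h9
    have e1 : 2 * (N : ℝ) * (1 / β) = 2 * N / β := by ring
    rw [e1] at h9
    unfold Qh
    exact h9
  rw [h2]
  have h10 : (TR hm τ).Ew μ L β (wR L β m τ).1 (fun _ => B * 1) =
      B * (TR hm τ).Ew μ L β (wR L β m τ).1 (fun _ => 1) := Refl.Ew_smul _ _ _
  rw [h10] at h8
  calc _ ≤ c * (B * (TR hm τ).Ew μ L β (wR L β m τ).1 (fun _ => 1)) :=
        mul_le_mul_of_nonneg_left (h7.trans h8) hc0.le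
    _ = _ := by ring

end obs

end

end Pool.Agent.V11260
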