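import Mathlib
import Pool.Agent.V11260.Step

/-!
# The variation of a family of transports over longer times
-/

open MeasureTheory Matrix Filter
open scoped Matrix.Norms.Frobenius Topology
open Pool.Agent.H906R3.YM hiding Pl
open Pool.Agent.W793.YM Pool.Agent.TH618.YM Pool.Agent.Y14

namespace Pool.Agent.V11260

set_option linter.unusedSectionVars false
set_option linter.unusedVariables false

noncomputable section

section mat

variable {N : ℕ}

lemma nsq_sub (A B : Mat N) : ‖A - B‖ ^ 2 = ‖A‖ ^ 2 + ‖B‖ ^ 2 - 2 * ip A B := by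
  rw [sub_eq_add_neg, nsq_add, norm_neg, map_neg]
  ring

lemma sum_co_ip (A B : Mat N) : ∑ c, co c A * co c B = ip A B := by
  have h : ip A B = ip B A := by
    rw [ip_apply, ip_apply]
    have h3 : trace ((Aᴴ * B)ᴴ) = star (trace (Aᴴ * B)) := trace_conjTranspose _
    rw [conjTranspose_mul, conjTranspose_conjTranspose] at h3
    rw [h3]
    simp
  rw [sum_co_mul, h, ip_apply, trace_mul_comm]

/-- unitary matrices moved to the other side -/
lemma ip_move {C D X Y : Mat N} : ip (X * C) (D * Y) = ip (Dᴴ * X) (Y * Cᴴ) := by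
  rw [ip_apply, ip_apply, conjTranspose_mul, conjTranspose_mul, conjTranspose_conjTranspose]
  congr 1
  calc trace (Cᴴ * Xᴴ * (D * Y)) = trace (Cᴴ * (Xᴴ * (D * Y))) := by rw [mul_assoc]
    _ = trace (Xᴴ * (D * Y) * Cᴴ) := trace_mul_comm _ _
    _ = _ := by simp only [mul_assoc]

end mat

variable {G : Type*} [Group G] [TopologicalSpace G] [IsTopologicalGroup G] [CompactSpace G]
  [SecondCountableTopology G] [MeasurableSpace G] [BorelSpace G] (μ : Measure G)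
  [IsProbabilityMeasure μ] [μ.IsMulLeftInvariant] [μ.IsMulRightInvariant] [μ.IsInvInvariant]
  {N n : ℕ} {L : LD G N n} {d m : ℕ} [NeZero m] {β : ℝ} {τ : Fin d}

/-! ### the reflection in the sites -/

lemma tp_sU (hm : 2 ≤ m) (U : Ed d (2 * m) → G)
    (x : Fin d → ZMod (2 * m)) {w : List (Fin d)} (hw : τ ∉ w) :
    tp eT ((SR hm τ).tU U) x w = tp eT U (rB τ x) w := by
  induction w generalizing x with
  | nil => rfl
  | cons i w ih =>
    have hi : i ≠ τ := fun h => hw (h ▸ List.mem_cons_self)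
    rw [tp_cons, tp_cons, ih _ fun h => hw (List.mem_cons_of_mem _ h), rB_add hi,
      sU_ne U x hi]

lemma tp_HQ {U U' : Ed d (2 * m) → G} (h : ∀ e, HQ τ e → U e = U' e)
    {z : Fin d → ZMod (2 * m)} (hz : (z τ).val ≤ m) {w : List (Fin d)} (hw : τ ∉ w) :
    tp eT U z w = tp eT U' z w := by
  induction w generalizing z with
  | nil => rfl
  | cons i w ih =>
    have hi : i ≠ τ := fun h => hw (h ▸ List.mem_cons_self)
    rw [tp_cons, tp_cons, ih (z := z + eT i) (by rw [add_ne z hi]; exact hz)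
      fun h => hw (List.mem_cons_of_mem _ h)]
    congr 1
    refine h _ ?_
    unfold HQ
    rw [if_neg hi]; exact hz

section obs

variable {O : Type*} {S : Finset O} {w : O → ℝ} {P Q : O → List (Fin d)}
  {v : Fin d → ZMod (2 * m)}

lemma FF_sU (hm : 2 ≤ m) (hP : ∀ o ∈ S, τ ∉ P o) (hQ : ∀ o ∈ S, τ ∉ Q o)
    (hv : v τ = 0) (U : Ed d (2 * m) → G) (x : Fin d → ZMod (2 * m)) :
    FF L S w P Q v ((SR hm τ).tU U) x = FF L S w P Q v U (rB τ x) := by
  have h1 : rB τ (x + v) = rB τ x + v := by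
    funext i
    unfold rB
    by_cases h : i = τ
    · subst h; simp [hv]
    · simp [h]
  unfold FF
  refine Finset.sum_congr rfl fun o ho => ?_
  rw [tp_sU hm U _ (hP o ho), tp_sU hm U _ (hQ o ho), h1]

lemma FF_HQ (hP : ∀ o ∈ S, τ ∉ P o) (hQ : ∀ o ∈ S, τ ∉ Q o)
    (hv : v τ = 0) {U U' : Ed d (2 * m) → G} (h : ∀ e, HQ τ e → U e = U' e)
    {z : Fin d → ZMod (2 * m)} (hz : (z τ).val ≤ m) :
    FF L S w P Q v U z = FF L S w P Q v U' z := by
  unfold FF
  refine Finset.sum_congr rfl fun o ho => ?_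
  rw [tp_HQ h hz (hP o ho), tp_HQ h (z := z + v) (by rw [Pi.add_apply, hv, add_zero]; exact hz)
    (hQ o ho)]

variable (L S w P Q v τ) in
/-- the family at the time `T`, transported to the time `0` -/
def ZF (T : ℕ) (U : Ed d (2 * m) → G) : Mat N :=
  L.rho (ln U τ T 0) * FF L S w P Q v U (T • eT τ) * (L.rho (ln U τ T v))ᴴ

lemma ZF_cont (T : ℕ) : Continuous fun U : Ed d (2 * m) → G => ZF L τ S w P Q v T U :=
  ((L.cont.comp (ln_cont τ T 0)).mul (FF_cont S w P Q v _)).mul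
    (L.cont.comp (ln_cont τ T v)).star

lemma ZF_HQ (hm : 2 ≤ m) (hP : ∀ o ∈ S, τ ∉ P o) (hQ : ∀ o ∈ S, τ ∉ Q o)
    (hv : v τ = 0) {T : ℕ} (hT : T ≤ m) : Dep (HQ τ) fun U : Ed d (2 * m) → G =>
      ZF L τ S w P Q v T U := by
  intro U U' h
  show ZF L τ S w P Q v T U = ZF L τ S w P Q v T U'
  unfold ZF
  have h1 : (((T • eT τ : Fin d → ZMod (2 * m))) τ).val ≤ m := by
    have h2 : (T • eT τ : Fin d → ZMod (2 * m)) τ = (T : ZMod (2 * m)) := by simp [eT]
    rw [h2, val_nat (by omega)]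
    exact hT
  rw [ln_HQ_same hm h rfl hT, ln_HQ_same hm h hv hT, FF_HQ hP hQ hv h h1]

variable (L S w P Q v τ) in
/-- the coordinates with the weight -/
def zs (β : ℝ) (T : ℕ) (c : Fin N × Fin N × Bool) (U : Ed d (2 * m) → G) : ℝ :=
  co c (ZF L τ S w P Q v T U) * Real.exp (-(β * sS L τ U))

lemma zs_cont (β : ℝ) (T : ℕ) (c : Fin N × Fin N × Bool) :
    Continuous (zs L τ S w P Q v β T c : (Ed d (2 * m) → G) → ℝ) :=
  ((co c).continuous.comp (ZF_cont T)).mul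
    (Real.continuous_exp.comp (continuous_const.mul (sS_cont τ)).neg)

lemma zs_dep (hm : 2 ≤ m) (hP : ∀ o ∈ S, τ ∉ P o) (hQ : ∀ o ∈ S, τ ∉ Q o)
    (hv : v τ = 0) (β : ℝ) {T : ℕ} (hT : T ≤ m) (c : Fin N × Fin N × Bool) :
    Dep (fun e => PP τ e ∨ (SR hm τ).R e)
      (zs L τ S w P Q v β T c : (Ed d (2 * m) → G) → ℝ) := by
  refine Dep_HQ hm fun U U' h => ?_
  unfold zs
  have h1 := ZF_HQ (L := L) (w := w) hm hP hQ hv hT U U' h
  simp only at h1
  rw [h1, sS_dep (L := L) hm U U' h]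

variable (L S w P Q v τ) in
/-- the correlation of the family at the times `0` and `T` -/
def fF (β : ℝ) (T : ℕ) : ℝ := EX μ L β fun U : Ed d (2 * m) → G =>
  ip (FF L S w P Q v U 0 * L.rho (ln U τ T v)) (L.rho (ln U τ T 0) * FF L S w P Q v U (T • eT τ))

variable (L S w P Q v τ) in
/-- the variation of the family between the times `0` and `T` -/
def DF (β : ℝ) (T : ℕ) : ℝ := EX μ L β fun U : Ed d (2 * m) → G =>
  ‖FF L S w P Q v U 0 * L.rho (ln U τ T v) - L.rho (ln U τ T 0) * FF L S w P Q v U (T • eT τ)‖ ^ 2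

lemma ip_cont {X : Type*} [TopologicalSpace X] {A B : X → Mat N} (hA : Continuous A)
    (hB : Continuous B) : Continuous fun x => ip (A x) (B x) := by
  have h : (fun x => ip (A x) (B x)) = fun x => ∑ c, co c (A x) * co c (B x) := by
    funext x; rw [sum_co_ip]
  rw [h]
  exact continuous_finsetSum _ fun c _ =>
    ((co c).continuous.comp hA).mul ((co c).continuous.comp hB)

lemma site_ip (hm : 2 ≤ m) (hP : ∀ o ∈ S, τ ∉ P o) (hQ : ∀ o ∈ S, τ ∉ Q o)
    (hv : v τ = 0) (U : Ed d (2 * m) → G) (T1 T2 : ℕ) :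
    ip (FF L S w P Q v U (0 - T1 • eT τ) * L.rho (ln U τ (T1 + T2) (v + (0 - T1 • eT τ))))
      (L.rho (ln U τ (T1 + T2) (0 - T1 • eT τ)) *
        FF L S w P Q v U ((T1 + T2) • eT τ + (0 - T1 • eT τ))) =
      ip (ZF L τ S w P Q v T2 U) (ZF L τ S w P Q v T1 ((SR hm τ).tU U)) := by
  have e0 : v + (0 - T1 • eT τ) = v - T1 • (eT τ : Fin d → ZMod (2 * m)) := by abel
  have e1 : (0 - T1 • eT τ : Fin d → ZMod (2 * m)) = 0 - T1 • eT τ := rfl
  have f0 : rB τ (0 : Fin d → ZMod (2 * m)) = 0 := rB_fix (Or.inl rfl)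
  have fv : rB τ v = v := rB_fix (Or.inl hv)
  have e2 : (T1 + T2) • eT τ + (0 - T1 • eT τ) = T2 • (eT τ : Fin d → ZMod (2 * m)) := by
    rw [add_smul T1 T2]; abel
  have e3 : rB τ (T1 • eT τ : Fin d → ZMod (2 * m)) = 0 - T1 • eT τ := by
    funext k
    unfold rB eT
    by_cases hk : k = τ
    · subst hk; simp
    · simp [hk]
  have l1 : ln U τ (T1 + T2) (v - T1 • eT τ) =
      (ln ((SR hm τ).tU U) τ T1 v)⁻¹ * ln U τ T2 v := by
    rw [ln_add, sub_add_cancel, ln_sU_same, fv, inv_inv]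
  have l2 : ln U τ (T1 + T2) (0 - T1 • eT τ) =
      (ln ((SR hm τ).tU U) τ T1 0)⁻¹ * ln U τ T2 0 := by
    rw [ln_add, sub_add_cancel, ln_sU_same, f0, inv_inv]
  have l3 : FF L S w P Q v U (0 - T1 • eT τ) =
      FF L S w P Q v ((SR hm τ).tU U) (T1 • eT τ) := by
    rw [FF_sU hm hP hQ hv, e3]
  rw [e0, e2, l1, l2, l3, map_mul L.rho, map_mul L.rho, L.rho_inv, L.rho_inv]
  unfold ZF
  obtain ⟨a, ha⟩ : ∃ a, a = L.rho (ln ((SR hm τ).tU U) τ T1 v) := ⟨_, rfl⟩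
  obtain ⟨b, hb⟩ : ∃ b, b = L.rho (ln ((SR hm τ).tU U) τ T1 0) := ⟨_, rfl⟩
  rw [← ha, ← hb, ← mul_assoc, mul_assoc bᴴ, ip_move, conjTranspose_conjTranspose,
    ← mul_assoc b]
  rw [← sum_co_ip, ← sum_co_ip]
  exact Finset.sum_congr rfl fun c _ => mul_comm _ _

/-- the correlation, with site reflection positivity -/
theorem fF_srp (hm : 2 ≤ m) (hP : ∀ o ∈ S, τ ∉ P o) (hQ : ∀ o ∈ S, τ ∉ Q o)
    (hv : v τ = 0) (β : ℝ) (T1 T2 : ℕ) :
    Zt μ L β (fun U : Ed d (2 * m) → G =>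
      ip (FF L S w P Q v U 0 * L.rho (ln U τ (T1 + T2) v))
        (L.rho (ln U τ (T1 + T2) 0) * FF L S w P Q v U ((T1 + T2) • eT τ))) =
      ∑ c, SB μ (SR hm τ) (zs L τ S w P Q v β T2 c) (zs L τ S w P Q v β T1 c) := by
  rw [← Zt_tr μ β (0 - T1 • eT τ) (fun U : Ed d (2 * m) → G =>
      ip (FF L S w P Q v U 0 * L.rho (ln U τ (T1 + T2) v))
        (L.rho (ln U τ (T1 + T2) 0) * FF L S w P Q v U ((T1 + T2) • eT τ)))]
  simp only [FF_tr, ln_tr, zero_add]
  have hi2 : ∀ c ∈ (Finset.univ : Finset (Fin N × Fin N × Bool)), Integrable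
      (fun U : Ed d (2 * m) → G => zs L τ S w P Q v β T2 c U *
        zs L τ S w P Q v β T1 c ((SR hm τ).tU U)) (ME μ (Ed d (2 * m))) := fun c _ =>
    integrable_cont μ ((zs_cont β T2 c).mul ((zs_cont β T1 c).comp (SR hm τ).tU_cont))
  unfold Zt SB
  rw [← integral_finsetSum _ hi2]
  refine integral_congr_ae (Filter.Eventually.of_forall fun U => ?_)
  simp only
  rw [site_ip hm hP hQ hv, ← sum_co_ip, Finset.sum_mul, act_sS (i0 := τ) hm]
  refine Finset.sum_congr rfl fun k _ => ?_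
  unfold zs
  have h2 : ∀ a b : ℝ, Real.exp (-(β * (a + b))) =
      Real.exp (-(β * a)) * Real.exp (-(β * b)) := by
    intro a b
    rw [← Real.exp_add]
    congr 1; ring
  rw [h2]
  ring

theorem fF_cs (hm : 2 ≤ m) (hP : ∀ o ∈ S, τ ∉ P o) (hQ : ∀ o ∈ S, τ ∉ Q o)
    (hv : v τ = 0) (β : ℝ) {T : ℕ} (hT : T ≤ m) :
    fF μ L τ S w P Q v β T ^ 2 ≤ fF μ L τ S w P Q v β 0 * fF μ L τ S w P Q v β (2 * T) ∧
    0 ≤ fF μ L τ S w P Q v β (2 * T) := by
  have h := fF_srp μ (L := L) (w := w) hm hP hQ hv β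
  obtain ⟨B, hB⟩ : ∃ B : ℕ → ℕ → ℝ, B = fun T T' =>
    ∑ c, SB μ (SR hm τ) (zs L τ S w P Q v β T c) (zs L τ S w P Q v β T' c) := ⟨_, rfl⟩
  have e1 := h 0 T
  have e2 := h T T
  have e3 := h 0 0
  rw [zero_add] at e1 e3
  have a2 : T + T = 2 * T := by omega
  rw [a2] at e2
  have n1 : 0 ≤ B T T := by
    rw [hB]
    exact Finset.sum_nonneg fun c _ => SB_self μ (SR hm τ) (PP τ) PP_fix PP_th (zs_cont β T c)
      (zs_dep hm hP hQ hv β hT c)
  have cs : B T 0 ^ 2 ≤ B T T * B 0 0 := by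
    refine Pool.Agent.H906R3.YM.sq_le_of_forall fun t => ?_
    rw [hB]
    simp only
    rw [Finset.mul_sum, Finset.mul_sum, ← Finset.sum_add_distrib, ← Finset.sum_add_distrib]
    exact Finset.sum_nonneg fun c _ => SB_quad μ (SR hm τ) (PP τ) PP_fix PP_th (zs_cont β T c)
      (zs_dep hm hP hQ hv β hT c) (zs_cont β 0 c) (zs_dep hm hP hQ hv β (Nat.zero_le _) c) t
  have hZ := Zt_pos μ (L := L) (d := d) (l := 2 * m) β
  have f1 : fF μ L τ S w P Q v β T = B T 0 / Zt μ L β (fun _ : Ed d (2 * m) → G => 1) := by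
    unfold fF EX
    rw [e1, hB]
  have f2 : fF μ L τ S w P Q v β (2 * T) =
      B T T / Zt μ L β (fun _ : Ed d (2 * m) → G => 1) := by
    unfold fF EX
    rw [e2, hB]
  have f3 : fF μ L τ S w P Q v β 0 = B 0 0 / Zt μ L β (fun _ : Ed d (2 * m) → G => 1) := by
    unfold fF EX
    rw [e3, hB]
  rw [f1, f2, f3]
  constructor
  · rw [div_pow, div_mul_div_comm, pow_two (Zt μ L β _)]
    refine div_le_div_of_nonneg_right ?_ (by positivity)
    linarith
  · exact div_nonneg n1 hZ.le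

lemma DF_eq (β : ℝ) (T : ℕ) : DF μ L τ S w P Q v β T =
    2 * (fF μ L τ S w P Q v β 0 - fF μ L τ S w P Q v β T) := by
  have c1 : ∀ x, Continuous fun U : Ed d (2 * m) → G => FF L S w P Q v U x := fun x =>
    FF_cont S w P Q v x
  have c2 : ∀ x, Continuous fun U : Ed d (2 * m) → G => L.rho (ln U τ T x) := fun x =>
    L.cont.comp (ln_cont τ T x)
  have c3 : Continuous fun U : Ed d (2 * m) → G => ‖FF L S w P Q v U 0‖ ^ 2 :=
    (c1 0).norm.pow 2
  have c4 : Continuous fun U : Ed d (2 * m) → G => ‖FF L S w P Q v U (T • eT τ)‖ ^ 2 :=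
    (c1 _).norm.pow 2
  have c5 : Continuous fun U : Ed d (2 * m) → G => ip (FF L S w P Q v U 0 * L.rho (ln U τ T v))
      (L.rho (ln U τ T 0) * FF L S w P Q v U (T • eT τ)) :=
    ip_cont ((c1 0).mul (c2 v)) ((c2 0).mul (c1 _))
  have h0 : fF μ L τ S w P Q v β 0 = EX μ L β fun U : Ed d (2 * m) → G =>
      ‖FF L S w P Q v U 0‖ ^ 2 := by
    unfold fF
    congr 1
    funext U
    rw [ln_zero, ln_zero, map_one, mul_one, one_mul, zero_smul, norm_sq_ip]
  have h1 : EX μ L β (fun U : Ed d (2 * m) → G => ‖FF L S w P Q v U (T • eT τ)‖ ^ 2) =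
      fF μ L τ S w P Q v β 0 := by
    rw [h0, ← EX_tr μ (T • eT τ) (fun U : Ed d (2 * m) → G => ‖FF L S w P Q v U 0‖ ^ 2)]
    simp only [FF_tr, zero_add]
  have h2 : DF μ L τ S w P Q v β T = EX μ L β (fun U : Ed d (2 * m) → G =>
      (‖FF L S w P Q v U 0‖ ^ 2 + ‖FF L S w P Q v U (T • eT τ)‖ ^ 2) -
      2 * ip (FF L S w P Q v U 0 * L.rho (ln U τ T v))
      (L.rho (ln U τ T 0) * FF L S w P Q v U (T • eT τ))) := by
    unfold DF
    congr 1
    funext U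
    rw [nsq_sub, norm_rmul, norm_lmul]
  have c6 : Continuous fun U : Ed d (2 * m) → G =>
      ‖FF L S w P Q v U 0‖ ^ 2 + ‖FF L S w P Q v U (T • eT τ)‖ ^ 2 := c3.add c4
  have c7 : Continuous fun U : Ed d (2 * m) → G => 2 * ip (FF L S w P Q v U 0 *
      L.rho (ln U τ T v)) (L.rho (ln U τ T 0) * FF L S w P Q v U (T • eT τ)) :=
    continuous_const.mul c5
  have h3 := EX_sub μ (L := L) (β := β) c6 c7
  have h4 := EX_add μ (L := L) (β := β) c3 c4
  have h5 := EX_smul μ (L := L) (β := β) 2 (fun U : Ed d (2 * m) → G =>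
    ip (FF L S w P Q v U 0 * L.rho (ln U τ T v))
      (L.rho (ln U τ T 0) * FF L S w P Q v U (T • eT τ)))
  have h6 : EX μ L β (fun U : Ed d (2 * m) → G =>
    ip (FF L S w P Q v U 0 * L.rho (ln U τ T v))
      (L.rho (ln U τ T 0) * FF L S w P Q v U (T • eT τ))) = fF μ L τ S w P Q v β T := rfl
  rw [h2]
  refine h3.trans ?_
  rw [h4, h5, h6, h1, ← h0]
  ring

lemma DF_nonneg (β : ℝ) (T : ℕ) : 0 ≤ DF μ L τ S w P Q v β T :=
  EX_nonneg μ fun U => sq_nonneg _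

/-- **doubling of the time** -/
theorem DF_dbl (hm : 2 ≤ m) (hP : ∀ o ∈ S, τ ∉ P o) (hQ : ∀ o ∈ S, τ ∉ Q o)
    (hv : v τ = 0) (β : ℝ) {T : ℕ} (hT : T ≤ m) :
    DF μ L τ S w P Q v β (2 * T) ≤ 2 * DF μ L τ S w P Q v β T := by
  rw [DF_eq, DF_eq]
  obtain ⟨h1, h2⟩ := fF_cs μ (L := L) (w := w) hm hP hQ hv β hT
  have h0 := (fF_cs μ (L := L) (w := w) hm hP hQ hv β (Nat.zero_le m)).2
  rw [mul_zero] at h0
  generalize fF μ L τ S w P Q v β 0 = a at *
  generalize fF μ L τ S w P Q v β T = b at *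
  generalize fF μ L τ S w P Q v β (2 * T) = c at *
  have h3 : (2 * b) ^ 2 ≤ (a + c) ^ 2 := by nlinarith [sq_nonneg (a - c)]
  have h4 : 2 * b ≤ a + c := le_of_abs_le (abs_le_of_sq_le_sq h3 (by linarith))
  linarith

theorem DF_pow (hm : 2 ≤ m) (hP : ∀ o ∈ S, τ ∉ P o) (hQ : ∀ o ∈ S, τ ∉ Q o)
    (hv : v τ = 0) (β : ℝ) {k : ℕ} (hk : 2 ^ k ≤ m) :
    DF μ L τ S w P Q v β (2 ^ k) ≤ 2 ^ k * DF μ L τ S w P Q v β 1 := by
  induction k with
  | zero => rw [pow_zero, pow_zero, one_mul]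
  | succ k ih =>
    have h1 : 2 ^ k ≤ m := le_trans (Nat.pow_le_pow_right (by norm_num) (by omega)) hk
    have h2 := DF_dbl μ (L := L) (w := w) hm hP hQ hv β h1
    have e : 2 * 2 ^ k = 2 ^ (k + 1) := by ring
    rw [e] at h2
    have h3 := ih h1
    calc _ ≤ 2 * DF μ L τ S w P Q v β (2 ^ k) := h2
      _ ≤ 2 * (2 ^ k * DF μ L τ S w P Q v β 1) := by linarith
      _ = _ := by ring

end obs

end

end Pool.Agent.V11260
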