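import Mathlib
import Pool.Agent.V11260.Dbl
import Pool.Agent.V11260.Count

/-!
# Transports along different paths are close: general bounds
-/

open MeasureTheory Matrix Filter
open scoped Matrix.Norms.Frobenius Topology
open Pool.Agent.H906R3.YM hiding Pl
open Pool.Agent.W793.YM Pool.Agent.TH618.YM Pool.Agent.Y14

namespace Pool.Agent.V11260

set_option linter.unusedSectionVars false
set_option linter.unusedVariables false

noncomputable section

/-! ### the paths of the family have no common links -/

section nodup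

variable {d l : ℕ} {i τ j₀ : Fin d} {K : ℕ}

lemma PQ_nodup (hi : i ≠ τ) (hj : j₀ ≠ i) (hjτ : j₀ ≠ τ) {z : Fin d → ℕ} (hz : z ∈ cube τ K)
    {R : ℕ} (hR : 2 ^ (K + 1) ≤ R) (hl : R + d * 2 ^ (K + 1) < l) (x : Fin d → ZMod l) :
    (lk eT x (fw i K z ++ List.replicate R i) ++ lk eT (x + R • eT i) (fw i K z)).Nodup := by
  have hs : ∑ k, z k ≤ d * 2 ^ (K + 1) := by
    calc ∑ k, z k ≤ ∑ k : Fin d, 2 ^ (K + 1) := Finset.sum_le_sum fun k _ => (cube_lt hz k).le
      _ = d * 2 ^ (K + 1) := by simp
  have hd : 1 ≤ d := Nat.one_le_of_lt (Fin.pos i)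
  have hK : 2 ^ (K + 1) ≤ d * 2 ^ (K + 1) := Nat.le_mul_of_pos_left _ hd
  refine List.nodup_append.2 ⟨lk_nodup x ?_, lk_nodup _ ?_, ?_⟩
  · rw [List.length_append, length_fw, List.length_replicate]
    omega
  · rw [length_fw]; omega
  · intro e he e' he' hee
    subst hee
    obtain ⟨b, b1, b2, b3⟩ := fw_lk hj hz he'
    obtain ⟨z1, z2⟩ := mem_cube.1 hz
    rw [lk_append, dsp_fw, List.mem_append] at he
    rcases he with he | he
    · obtain ⟨a, a1, a2, a3⟩ := fw_lk hj hz he
      have h1 : (x + ct l a) i = (x + ct l (fun k => if k = i then R + b i else b k)) i := by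
        rw [← a1, b1]
        simp [ct, eT]
        ring
      have h2 := cube_lt hz i
      have h3 := a2 i
      have h4 := b2 i
      have h5 := ct_inj (a := a) (b := fun k => if k = i then R + b i else b k) (by omega)
        (by simp only [if_true]; omega) h1
      simp only [if_true] at h5
      omega
    · obtain ⟨h1, s, hs', h2⟩ := rep_lk he
      have h3 := b3 h1
      have h4 := (z2 j₀ hjτ).1
      have h5 : (x + ct l z) j₀ = (x + ct l b) j₀ := by
        have h6 := congrFun (h2.symm.trans b1) j₀
        simpa [eT, hj] using h6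
      have h6 := cube_lt hz j₀
      have h7 := ct_inj (by omega) (by omega) h5
      omega

end nodup

variable {G : Type*} [Group G] [TopologicalSpace G] [IsTopologicalGroup G] [CompactSpace G]
  [SecondCountableTopology G] [MeasurableSpace G] [BorelSpace G] (μ : Measure G)
  [IsProbabilityMeasure μ] [μ.IsMulLeftInvariant] [μ.IsMulRightInvariant] [μ.IsInvInvariant]
  {N n : ℕ} {L : LD G N n} {d m : ℕ} [NeZero m] {β : ℝ}

/-! ### sorting -/

variable (L m) in
/-- the size of the deviation of the rectangle with the sides `a`, `b` -/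
def sR (β : ℝ) (i j : Fin d) (a b : ℕ) : ℝ :=
  en μ L β (fun U : Ed d (2 * m) → G => dv L (rect U 0 i j a b))

lemma sR_nonneg (i j : Fin d) (a b : ℕ) : 0 ≤ sR μ L m β i j a b := en_nonneg μ _

lemma en_tr (z : Fin d → ZMod (2 * m)) (F : (Ed d (2 * m) → G) → ℝ) :
    en μ L β (fun U => F (tr z U)) = en μ L β F := by
  unfold en
  rw [EX_tr μ z (fun U => F U ^ 2)]

lemma sR_x (i j : Fin d) (a b : ℕ) (x : Fin d → ZMod (2 * m)) :
    en μ L β (fun U : Ed d (2 * m) → G => dv L (rect U x i j a b)) = sR μ L m β i j a b := by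
  unfold sR
  rw [← en_tr μ x (fun U : Ed d (2 * m) → G => dv L (rect U 0 i j a b))]
  simp only [rect_tr, zero_add]

lemma sR_swap (i j : Fin d) (a b : ℕ) : sR μ L m β i j a b = sR μ L m β j i b a := by
  unfold sR
  congr 1
  funext U
  rw [rect_swap, dv_inv]

lemma swap_s (i j : Fin d) (x : Fin d → ZMod (2 * m)) (a b : ℕ) :
    en μ L β (fun U => dd L (tp eT U x (List.replicate a i ++ List.replicate b j))
      (tp eT U x (List.replicate b j ++ List.replicate a i))) = sR μ L m β i j a b := by
  simp only [dd_swap]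
  exact sR_x μ i j a b x

lemma move_s {i : Fin d} {nn : ℕ} {v : Fin d → ℕ} {B : ℝ} {K : List (Fin d)}
    (hb : ∀ k ∈ K, sR μ L m β k i (v k) nn ≤ B) (x : Fin d → ZMod (2 * m)) :
    en μ L β (fun U => dd L (tp eT U x (cmb v K ++ List.replicate nn i))
      (tp eT U x (List.replicate nn i ++ cmb v K))) ≤ K.length * B := by
  induction K generalizing x with
  | nil =>
    simp only [cmb, List.nil_append, List.append_nil, dd_self, en_zero, List.length_nil,
      Nat.cast_zero, zero_mul, le_refl]
  | cons k K ih =>
    have e1 : cmb v (k :: K) ++ List.replicate nn i =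
        List.replicate (v k) k ++ (cmb v K ++ List.replicate nn i) := by
      rw [cmb_cons, List.append_assoc]
    have e2 : List.replicate nn i ++ cmb v (k :: K) =
        (List.replicate nn i ++ List.replicate (v k) k) ++ cmb v K := by
      rw [cmb_cons, List.append_assoc]
    have e3 : List.replicate (v k) k ++ (List.replicate nn i ++ cmb v K) =
        (List.replicate (v k) k ++ List.replicate nn i) ++ cmb v K := by
      rw [List.append_assoc]
    have t := en_tri μ (L := L) (β := β)
      (tp_cont (u := eT) x (List.replicate (v k) k ++ (cmb v K ++ List.replicate nn i)))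
      (tp_cont (G := G) (u := eT) x
        (List.replicate (v k) k ++ (List.replicate nn i ++ cmb v K)))
      (tp_cont (u := eT) x ((List.replicate nn i ++ List.replicate (v k) k) ++ cmb v K))
    rw [e1, e2]
    refine t.trans ?_
    have s1 : (fun U : Ed d (2 * m) → G => dd L
        (tp eT U x (List.replicate (v k) k ++ (cmb v K ++ List.replicate nn i)))
        (tp eT U x (List.replicate (v k) k ++ (List.replicate nn i ++ cmb v K)))) =
        fun U => dd L (tp eT U (x + dsp eT (List.replicate (v k) k))
          (cmb v K ++ List.replicate nn i))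
        (tp eT U (x + dsp eT (List.replicate (v k) k)) (List.replicate nn i ++ cmb v K)) := by
      funext U
      rw [tp_append x (List.replicate (v k) k), tp_append x (List.replicate (v k) k), dd_lmul]
    have s2 : (fun U : Ed d (2 * m) → G => dd L
        (tp eT U x (List.replicate (v k) k ++ (List.replicate nn i ++ cmb v K)))
        (tp eT U x ((List.replicate nn i ++ List.replicate (v k) k) ++ cmb v K))) =
        fun U => dd L (tp eT U x (List.replicate (v k) k ++ List.replicate nn i))
        (tp eT U x (List.replicate nn i ++ List.replicate (v k) k)) := by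
      funext U
      have hd : (dsp eT (List.replicate (v k) k ++ List.replicate nn i) :
          Fin d → ZMod (2 * m)) = dsp eT (List.replicate nn i ++ List.replicate (v k) k) := by
        rw [dsp_append, dsp_append, add_comm]
      rw [e3, tp_append x _ (cmb v K), tp_append x _ (cmb v K), hd, dd_rmul]
    rw [s1, s2, swap_s]
    have h1 := ih (fun k' hk' => hb k' (List.mem_cons_of_mem _ hk'))
      (x + dsp eT (List.replicate (v k) k))
    have h2 := hb k List.mem_cons_self
    rw [List.length_cons]
    push_cast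
    linarith

lemma ins_s {i : Fin d} {nn : ℕ} {v : Fin d → ℕ} {B : ℝ} (hB : 0 ≤ B) {K : List (Fin d)}
    (hK : K.Nodup) (hi : i ∈ K)
    (hb : ∀ k ∈ K, k ≠ i → sR μ L m β k i (v k) nn ≤ B) (x : Fin d → ZMod (2 * m)) :
    en μ L β (fun U => dd L (tp eT U x (cmb v K ++ List.replicate nn i))
      (tp eT U x (cmb (fun k => v k + if k = i then nn else 0) K))) ≤ K.length * B := by
  induction K generalizing x with
  | nil => simp at hi
  | cons k K ih =>
    have hk := List.nodup_cons.1 hK
    by_cases hki : k = i
    · subst hki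
      have e2 : cmb (fun k' => v k' + if k' = k then nn else 0) (k :: K) =
          List.replicate (v k) k ++ (List.replicate nn k ++ cmb v K) := by
        rw [cmb_cons, if_pos rfl, ← List.replicate_append_replicate, List.append_assoc]
        congr 2
        refine cmb_congr fun k' hk' => ?_
        have : k' ≠ k := fun h => hk.1 (h ▸ hk')
        simp [this]
      have s1 : (fun U : Ed d (2 * m) → G => dd L
          (tp eT U x (cmb v (k :: K) ++ List.replicate nn k))
          (tp eT U x (cmb (fun k' => v k' + if k' = k then nn else 0) (k :: K)))) =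
          fun U => dd L (tp eT U (x + dsp eT (List.replicate (v k) k))
            (cmb v K ++ List.replicate nn k))
          (tp eT U (x + dsp eT (List.replicate (v k) k)) (List.replicate nn k ++ cmb v K)) := by
        funext U
        rw [e2, cmb_cons, List.append_assoc, tp_append x (List.replicate (v k) k),
          tp_append x (List.replicate (v k) k), dd_lmul]
      rw [s1]
      refine (move_s μ (B := B) (fun k' hk' => hb k' (List.mem_cons_of_mem _ hk')
        fun h => hk.1 (h ▸ hk')) _).trans ?_
      rw [List.length_cons]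
      push_cast
      linarith
    · have hiK : i ∈ K := by
        rcases List.mem_cons.1 hi with h | h
        · exact absurd h.symm hki
        · exact h
      have s1 : (fun U : Ed d (2 * m) → G => dd L
          (tp eT U x (cmb v (k :: K) ++ List.replicate nn i))
          (tp eT U x (cmb (fun k' => v k' + if k' = i then nn else 0) (k :: K)))) =
          fun U => dd L (tp eT U (x + dsp eT (List.replicate (v k) k))
            (cmb v K ++ List.replicate nn i))
          (tp eT U (x + dsp eT (List.replicate (v k) k))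
            (cmb (fun k' => v k' + if k' = i then nn else 0) K)) := by
        funext U
        rw [cmb_cons, cmb_cons, if_neg hki, add_zero, List.append_assoc,
          tp_append x (List.replicate (v k) k), tp_append x (List.replicate (v k) k), dd_lmul]
      rw [s1]
      refine (ih hk.2 hiK (fun k' hk' => hb k' (List.mem_cons_of_mem _ hk')) _).trans ?_
      rw [List.length_cons]
      push_cast
      linarith

variable (L) in
/-- the transport along `w` is close to the one along the comb -/
def St (β : ℝ) (i₀ : Fin d) (x : Fin d → ZMod (2 * m)) (w : List (Fin d)) (v : Fin d → ℕ)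
    (b : ℝ) : Prop :=
  (dsp eT w : Fin d → ZMod (2 * m)) = ct (2 * m) v ∧
    en μ L β (fun U => dd L (tp eT U x w) (tp eT U x (cmb v (od i₀)))) ≤ b

lemma dsp_cmb_od (i₀ : Fin d) (v : Fin d → ℕ) :
    (dsp eT (cmb v (od i₀)) : Fin d → ZMod (2 * m)) = ct (2 * m) v := by
  rw [dsp_cmb v (od_nodup i₀), od_toFinset, sum_eT]

lemma od_length (i : Fin d) : (od i).length = d := by
  have h := List.toFinset_card_of_nodup (od_nodup i)
  rw [od_toFinset, Finset.card_univ, Fintype.card_fin] at h
  exact h.symm

lemma St.rep {i₀ : Fin d} {ρ nn : ℕ} (hn : nn ≤ ρ) {x : Fin d → ZMod (2 * m)}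
    {w : List (Fin d)} {v : Fin d → ℕ} {b B : ℝ} (hB : 0 ≤ B)
    (hb : ∀ i j : Fin d, i ≠ j → ∀ a b, a ≤ ρ → b ≤ ρ → sR μ L m β i j a b ≤ B)
    (hv : ∀ k, v k ≤ ρ) (h : St μ L β i₀ x w v b) (i : Fin d) :
    St μ L β i₀ x (w ++ List.replicate nn i) (fun k => v k + if k = i then nn else 0)
      (b + d * B) := by
  obtain ⟨h1, h2⟩ := h
  refine ⟨?_, ?_⟩
  · rw [dsp_append, h1, dsp_rep, ct_addv v fun k => if k = i then nn else 0]
    congr 1
    funext k
    by_cases hk : k = i
    · subst hk; simp [eT, ct]
    · simp [eT, ct, hk]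
  · refine (en_tri μ (tp_cont _ _) (tp_cont (u := eT) x (cmb v (od i₀) ++ List.replicate nn i))
      (tp_cont _ _)).trans ?_
    have s1 : (fun U : Ed d (2 * m) → G => dd L (tp eT U x (w ++ List.replicate nn i))
        (tp eT U x (cmb v (od i₀) ++ List.replicate nn i))) =
        fun U => dd L (tp eT U x w) (tp eT U x (cmb v (od i₀))) := by
      funext U
      rw [tp_append, tp_append, h1, dsp_cmb_od, dd_rmul]
    rw [s1]
    have h3 := ins_s μ (L := L) (β := β) (v := v) (nn := nn) hB (od_nodup i₀) (mem_od i₀ i)
      (fun k _ hk => hb k i hk (v k) nn (hv k) hn) x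
    rw [od_length] at h3
    exact add_le_add h2 h3

lemma St.mono {i₀ : Fin d} {x : Fin d → ZMod (2 * m)} {w : List (Fin d)} {v v' : Fin d → ℕ}
    {b b' : ℝ} (h : St μ L β i₀ x w v b) (hv : ∀ k, v k = v' k) (hb : b ≤ b') :
    St μ L β i₀ x w v' b' := by
  obtain rfl : v = v' := funext hv
  exact ⟨h.1, h.2.trans hb⟩

lemma St.cmb {i₀ : Fin d} {ρ : ℕ} {x : Fin d → ZMod (2 * m)} {w : List (Fin d)}
    {v v' : Fin d → ℕ} {b B : ℝ} (hB : 0 ≤ B)
    (hb : ∀ i j : Fin d, i ≠ j → ∀ a b, a ≤ ρ → b ≤ ρ → sR μ L m β i j a b ≤ B)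
    (hv0 : ∀ k, v k ≤ ρ) {K : List (Fin d)} (hv : ∀ k ∈ K, v k + v' k ≤ ρ)
    (h : St μ L β i₀ x w v b) (hK : K.Nodup) :
    St μ L β i₀ x (w ++ Y14.cmb v' K) (fun k => v k + if k ∈ K then v' k else 0)
      (b + K.length * (d * B)) := by
  induction K generalizing w v b with
  | nil =>
    simpa [Y14.cmb] using h
  | cons k K ih =>
    have hk := List.nodup_cons.1 hK
    have hvk := hv k List.mem_cons_self
    have h1 := h.rep μ (nn := v' k) (by omega) hB hb hv0 k
    have h2 := ih (v := fun k' => v k' + if k' = k then v' k else 0)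
      (w := w ++ List.replicate (v' k) k) (b := b + d * B)
      (fun k' => by
        by_cases hkk : k' = k
        · subst hkk; simpa using hvk
        · simpa [hkk] using hv0 k')
      (fun k' hk' => by
        have hkk : k' ≠ k := fun h => hk.1 (h ▸ hk')
        simpa [hkk] using hv k' (List.mem_cons_of_mem _ hk')) h1 hk.2
    rw [cmb_cons, ← List.append_assoc]
    refine h2.mono μ (fun k' => ?_) (le_of_eq ?_)
    · by_cases hkk : k' = k
      · subst hkk
        simp [hk.1]
      · simp [hkk]
    · rw [List.length_cons]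
      push_cast; ring

/-- the words of the fan are sorted -/
lemma fw_St {i₀ τ : Fin d} {Bf : ℕ → ℝ} (hB : ∀ k, 0 ≤ Bf k) {K : ℕ}
    (hb : ∀ k ≤ K + 1, ∀ i j : Fin d, i ≠ j → ∀ a b, a ≤ 2 ^ k → b ≤ 2 ^ k →
      sR μ L m β i j a b ≤ Bf k) {z : Fin d → ℕ} (hz : z ∈ cube τ K)
    (x : Fin d → ZMod (2 * m)) :
    St μ L β i₀ x (fw i₀ K z) z (d ^ 2 * ∑ k ∈ Finset.range K, Bf (k + 2)) := by
  induction K generalizing z with
  | zero =>
    refine ⟨dsp_fw i₀ 0 z, ?_⟩
    rw [fw]
    simp only [dd_self, en_zero, Finset.range_zero, Finset.sum_empty, mul_zero, le_refl]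
  | succ K ih =>
    have hh := cube_half hz
    have h1 := ih (fun k hk => hb k (by omega)) hh
    have e1 : 2 ^ (K + 1 + 1) = 2 * 2 ^ (K + 1) := by ring
    have h2 := h1.cmb μ (v' := fun k => z k - z k / 2) (hB (K + 2))
      (hb (K + 2) (by omega)) (fun k => by
        have := cube_lt hz k
        show z k / 2 ≤ 2 ^ (K + 2)
        have e2 : 2 ^ (K + 1 + 1) = 2 ^ (K + 2) := rfl
        omega) (K := od i₀) (fun k _ => by
        have := cube_lt hz k
        show z k / 2 + (z k - z k / 2) ≤ 2 ^ (K + 2)
        have e2 : 2 ^ (K + 1 + 1) = 2 ^ (K + 2) := rfl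
        omega) (od_nodup i₀)
    rw [fw]
    refine h2.mono μ (fun k => ?_) (le_of_eq ?_)
    · rw [if_pos (mem_od i₀ k)]
      omega
    · rw [od_length, Finset.sum_range_succ]
      ring

/-- the fan and the straight line commute approximately -/
theorem coh {i τ : Fin d} {Bf : ℕ → ℝ} (hB : ∀ k, 0 ≤ Bf k) {K : ℕ}
    (hb : ∀ k ≤ K + 1, ∀ i j : Fin d, i ≠ j → ∀ a b, a ≤ 2 ^ k → b ≤ 2 ^ k →
      sR μ L m β i j a b ≤ Bf k) {z : Fin d → ℕ} (hz : z ∈ cube τ K) {R : ℕ} {B : ℝ}
    (hBr : ∀ k : Fin d, k ≠ i → sR μ L m β k i (z k) R ≤ B) (hB0 : 0 ≤ B)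
    (x : Fin d → ZMod (2 * m)) :
    en μ L β (fun U => dd L (tp eT U x (List.replicate R i ++ fw i K z))
      (tp eT U x (fw i K z ++ List.replicate R i))) ≤
      2 * (d ^ 2 * ∑ k ∈ Finset.range K, Bf (k + 2)) + d * B := by
  have h1 := fw_St μ (L := L) (β := β) (i₀ := i) hB hb hz (x + R • eT i)
  have h2 := fw_St μ (L := L) (β := β) (i₀ := i) hB hb hz x
  have e0 : (fun U : Ed d (2 * m) → G => dd L (tp eT U x (List.replicate R i ++ fw i K z))
      (tp eT U x (List.replicate R i ++ cmb z (od i)))) = fun U =>
      dd L (tp eT U (x + R • eT i) (fw i K z)) (tp eT U (x + R • eT i) (cmb z (od i))) := by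
    funext U
    rw [tp_append, tp_append x _ (cmb z (od i)), dd_lmul, dsp_rep]
  have e1 : (fun U : Ed d (2 * m) → G => dd L (tp eT U x (cmb z (od i) ++ List.replicate R i))
      (tp eT U x (fw i K z ++ List.replicate R i))) = fun U =>
      dd L (tp eT U x (fw i K z)) (tp eT U x (cmb z (od i))) := by
    funext U
    rw [tp_append, tp_append x (fw i K z), dsp_cmb_od, dsp_fw, dd_rmul, dd_comm]
  have hrest : od i = i :: (List.finRange d).filter (fun k => k ≠ i) := rfl
  obtain ⟨K', hK'⟩ : ∃ K', K' = (List.finRange d).filter (fun k => k ≠ i) := ⟨_, rfl⟩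
  rw [← hK'] at hrest
  have hnK' : ∀ k ∈ K', k ≠ i := by
    intro k hk
    rw [hK'] at hk
    have := (List.mem_filter.1 hk).2
    simpa using this
  have hlen : (K'.length : ℝ) ≤ d := by
    have h3 := od_length i
    rw [hrest, List.length_cons] at h3
    have : K'.length ≤ d := by omega
    exact_mod_cast this
  have h3 : en μ L β (fun U => dd L (tp eT U x (List.replicate R i ++ cmb z (od i)))
      (tp eT U x (cmb z (od i) ++ List.replicate R i))) ≤ d * B := by
    have e3 : (fun U : Ed d (2 * m) → G =>
        dd L (tp eT U x (List.replicate R i ++ cmb z (od i)))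
        (tp eT U x (cmb z (od i) ++ List.replicate R i))) = fun U =>
        dd L (tp eT U (x + z i • eT i) (cmb z K' ++ List.replicate R i))
          (tp eT U (x + z i • eT i) (List.replicate R i ++ cmb z K')) := by
      funext U
      have f1 : List.replicate R i ++ cmb z (od i) =
          List.replicate (z i) i ++ (List.replicate R i ++ cmb z K') := by
        rw [hrest, cmb_cons, ← List.append_assoc, rep_comm, List.append_assoc]
      have f2 : cmb z (od i) ++ List.replicate R i =
          List.replicate (z i) i ++ (cmb z K' ++ List.replicate R i) := by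
        rw [hrest, cmb_cons, List.append_assoc]
      rw [f1, f2, tp_append, tp_append x _ (cmb z K' ++ List.replicate R i), dd_lmul, dsp_rep,
        dd_comm]
    rw [e3]
    refine (move_s μ (B := B) (fun k hk => hBr k (hnK' k hk)) _).trans ?_
    exact mul_le_mul_of_nonneg_right hlen hB0
  have t1 := en_tri μ (L := L) (β := β)
    (tp_cont (u := eT) x (List.replicate R i ++ fw i K z))
    (tp_cont (G := G) (u := eT) x (List.replicate R i ++ cmb z (od i)))
    (tp_cont (u := eT) x (fw i K z ++ List.replicate R i))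
  have t2 := en_tri μ (L := L) (β := β)
    (tp_cont (u := eT) x (List.replicate R i ++ cmb z (od i)))
    (tp_cont (G := G) (u := eT) x (cmb z (od i) ++ List.replicate R i))
    (tp_cont (u := eT) x (fw i K z ++ List.replicate R i))
  rw [e0] at t1
  rw [e1] at t2
  have g1 := h1.2
  have g2 := h2.2
  linarith

end

end Pool.Agent.V11260
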