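import Mathlib
import Pool.Agent.V11260.Coh

/-!
# The recursion for the deviations of the rectangles
-/

open MeasureTheory Matrix Filter
open scoped Matrix.Norms.Frobenius Topology
open Pool.Agent.H906R3.YM hiding Pl
open Pool.Agent.W793.YM Pool.Agent.TH618.YM Pool.Agent.Y14

namespace Pool.Agent.V11260

set_option linter.unusedSectionVars false
set_option linter.unusedVariables false

noncomputable section

variable {G : Type*} [Group G] [TopologicalSpace G] [IsTopologicalGroup G] [CompactSpace G]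
  [SecondCountableTopology G] [MeasurableSpace G] [BorelSpace G] (μ : Measure G)
  [IsProbabilityMeasure μ] [μ.IsMulLeftInvariant] [μ.IsMulRightInvariant] [μ.IsInvInvariant]
  {N n : ℕ} {L : LD G N n} {d m : ℕ} [NeZero m] {β : ℝ}

/-- the weight of the paths of the fan -/
def wt (τ : Fin d) (K : ℕ) (z : Fin d → ℕ) : ℝ := 1 / ((cube τ K).card : ℝ)

lemma wt_nonneg (τ : Fin d) (K : ℕ) (z : Fin d → ℕ) : 0 ≤ wt τ K z := by
  unfold wt; positivity

lemma wt_sum (τ : Fin d) (K : ℕ) : ∑ z ∈ cube τ K, wt τ K z = 1 := by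
  unfold wt
  rw [Finset.sum_const, nsmul_eq_mul]
  have h : ((cube τ K).card : ℝ) ≠ 0 := by
    have := Finset.card_pos.2 (cube_nonempty τ K)
    positivity
  field_simp

variable (L m) in
/-- the average over the fan -/
def Fa (i τ : Fin d) (K R : ℕ) (U : Ed d (2 * m) → G) (x : Fin d → ZMod (2 * m)) : Mat N :=
  FF L (cube τ K) (wt τ K) (fun z => fw i K z ++ List.replicate R i) (fun z => fw i K z)
    (R • eT i) U x

lemma Fa_tr (i τ : Fin d) (K R : ℕ) (z : Fin d → ZMod (2 * m)) (U : Ed d (2 * m) → G)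
    (x : Fin d → ZMod (2 * m)) : Fa L m i τ K R (tr z U) x = Fa L m i τ K R U (x + z) :=
  FF_tr _ _ _ _ _ z U x

lemma Fa_cont (i τ : Fin d) (K R : ℕ) (x : Fin d → ZMod (2 * m)) :
    Continuous fun U : Ed d (2 * m) → G => Fa L m i τ K R U x := FF_cont _ _ _ _ _ x

/-- the straight line and the average over the fan -/
lemma Fa_close (i τ : Fin d) (K R : ℕ) (U : Ed d (2 * m) → G) (x : Fin d → ZMod (2 * m)) :
    ‖L.rho (ln U i R x) - Fa L m i τ K R U x‖ ≤ ∑ z ∈ cube τ K, wt τ K z *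
      dd L (tp eT U x (List.replicate R i ++ fw i K z))
        (tp eT U x (fw i K z ++ List.replicate R i)) := by
  have h1 : L.rho (ln U i R x) - Fa L m i τ K R U x = ∑ z ∈ cube τ K, wt τ K z •
      (L.rho (ln U i R x) - L.rho (tp eT U x (fw i K z ++ List.replicate R i)) *
        (L.rho (tp eT U (x + R • eT i) (fw i K z)))ᴴ) := by
    simp only [smul_sub]
    rw [Finset.sum_sub_distrib, ← Finset.sum_smul, wt_sum, one_smul]
    rfl
  rw [h1]
  refine (norm_sum_le _ _).trans (Finset.sum_le_sum fun z _ => ?_)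
  rw [norm_smul, Real.norm_eq_abs, abs_of_nonneg (wt_nonneg τ K z)]
  refine mul_le_mul_of_nonneg_left (le_of_eq ?_) (wt_nonneg τ K z)
  unfold dd
  rw [tp_append x (List.replicate R i), tp_rep, dsp_rep, map_mul]
  obtain ⟨q, hq⟩ : ∃ q, q = tp eT U (x + R • eT i) (fw i K z) := ⟨_, rfl⟩
  obtain ⟨p, hp⟩ : ∃ p, p = L.rho (tp eT U x (fw i K z ++ List.replicate R i)) := ⟨_, rfl⟩
  rw [← hq, ← hp, ← norm_rmul q, sub_mul, mul_assoc p, L.unit' q, mul_one]

/-- the deviation and the variation of the average -/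
theorem sR_Fa {i τ : Fin d} (hi : i ≠ τ) (K R T : ℕ) {Bc : ℝ}
    (hc : ∀ z ∈ cube τ K, ∀ x : Fin d → ZMod (2 * m),
      en μ L β (fun U : Ed d (2 * m) → G => dd L (tp eT U x (List.replicate R i ++ fw i K z))
        (tp eT U x (fw i K z ++ List.replicate R i))) ≤ Bc) :
    sR μ L m β i τ R T ≤ Real.sqrt (DF μ L τ (cube τ K) (wt τ K)
      (fun z => fw i K z ++ List.replicate R i) (fun z => fw i K z)
      (R • eT i : Fin d → ZMod (2 * m)) β T) + 2 * Bc := by
  obtain ⟨g, hg⟩ : ∃ g : (Fin d → ZMod (2 * m)) → (Ed d (2 * m) → G) → ℝ, g = fun x U =>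
    ∑ z ∈ cube τ K, wt τ K z * dd L (tp eT U x (List.replicate R i ++ fw i K z))
        (tp eT U x (fw i K z ++ List.replicate R i)) := ⟨_, rfl⟩
  obtain ⟨h, hh⟩ : ∃ h : (Ed d (2 * m) → G) → ℝ, h = fun U =>
    ‖Fa L m i τ K R U 0 * L.rho (ln U τ T (R • eT i)) -
      L.rho (ln U τ T 0) * Fa L m i τ K R U (T • eT τ)‖ := ⟨_, rfl⟩
  have hgc : ∀ x, Continuous (g x) := fun x => by
    rw [hg]
    exact continuous_finsetSum _ fun z _ => continuous_const.mul (ddc _ _ _ _)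
  have hhc : Continuous h := by
    rw [hh]
    exact (((Fa_cont i τ K R 0).mul (L.cont.comp (ln_cont _ _ _))).sub
      ((L.cont.comp (ln_cont _ _ _)).mul (Fa_cont i τ K R _))).norm
  have hge : ∀ x, en μ L β (g x) ≤ Bc := by
    intro x
    rw [hg]
    have e1 : en μ L β (fun U : Ed d (2 * m) → G => ∑ z ∈ cube τ K, wt τ K z *
        dd L (tp eT U x (List.replicate R i ++ fw i K z))
        (tp eT U x (fw i K z ++ List.replicate R i))) ≤
        ∑ z ∈ cube τ K, en μ L β (fun U : Ed d (2 * m) → G => wt τ K z *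
        dd L (tp eT U x (List.replicate R i ++ fw i K z))
        (tp eT U x (fw i K z ++ List.replicate R i))) :=
      en_sum μ _ fun z => continuous_const.mul (ddc _ _ _ _)
    refine e1.trans ?_
    have e2 : ∀ z ∈ cube τ K, en μ L β (fun U : Ed d (2 * m) → G => wt τ K z *
        dd L (tp eT U x (List.replicate R i ++ fw i K z))
        (tp eT U x (fw i K z ++ List.replicate R i))) ≤ wt τ K z * Bc := by
      intro z hz
      rw [en_smul μ (wt_nonneg τ K z)]
      exact mul_le_mul_of_nonneg_left (hc z hz x) (wt_nonneg τ K z)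
    refine (Finset.sum_le_sum e2).trans (le_of_eq ?_)
    rw [← Finset.sum_mul, wt_sum, one_mul]
  have hpt : ∀ U : Ed d (2 * m) → G, |dv L (rect U 0 i τ R T)| ≤ (g 0 U + h U) + g (T • eT τ) U := by
    intro U
    rw [abs_of_nonneg (dv_nonneg _), ← dd_swap]
    unfold dd
    rw [tp_append, tp_append, tp_rep, tp_rep, tp_rep, tp_rep, dsp_rep, dsp_rep, zero_add,
      zero_add, map_mul, map_mul]
    have f1 := Fa_close (L := L) i τ K R U 0
    have f2 := Fa_close (L := L) i τ K R U (T • eT τ)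
    have e1 : g 0 U = ∑ z ∈ cube τ K, wt τ K z *
        dd L (tp eT U 0 (List.replicate R i ++ fw i K z))
        (tp eT U 0 (fw i K z ++ List.replicate R i)) := by rw [hg]
    have e2 : g (T • eT τ) U = ∑ z ∈ cube τ K, wt τ K z *
        dd L (tp eT U (T • eT τ) (List.replicate R i ++ fw i K z))
        (tp eT U (T • eT τ) (fw i K z ++ List.replicate R i)) := by rw [hg]
    have e3 : h U = ‖Fa L m i τ K R U 0 * L.rho (ln U τ T (R • eT i)) -
      L.rho (ln U τ T 0) * Fa L m i τ K R U (T • eT τ)‖ := by rw [hh]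
    rw [← e1] at f1
    rw [← e2] at f2
    have f3 : ‖(L.rho (ln U i R 0) - Fa L m i τ K R U 0) * L.rho (ln U τ T (R • eT i))‖ ≤
        g 0 U := by rw [norm_rmul]; exact f1
    have f4 : ‖L.rho (ln U τ T 0) * (L.rho (ln U i R (T • eT τ)) -
        Fa L m i τ K R U (T • eT τ))‖ ≤ g (T • eT τ) U := by rw [norm_lmul]; exact f2
    have f5 : L.rho (ln U i R 0) * L.rho (ln U τ T (R • eT i)) -
        L.rho (ln U τ T 0) * L.rho (ln U i R (T • eT τ)) =
        (L.rho (ln U i R 0) - Fa L m i τ K R U 0) * L.rho (ln U τ T (R • eT i)) +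
        (Fa L m i τ K R U 0 * L.rho (ln U τ T (R • eT i)) -
          L.rho (ln U τ T 0) * Fa L m i τ K R U (T • eT τ)) -
        L.rho (ln U τ T 0) * (L.rho (ln U i R (T • eT τ)) -
        Fa L m i τ K R U (T • eT τ)) := by
      noncomm_ring
    rw [f5, e3]
    refine (norm_sub_le _ _).trans (add_le_add ((norm_add_le _ _).trans
      (add_le_add f3 le_rfl)) f4)
  have hc1 : Continuous fun U => g 0 U + h U := (hgc 0).add hhc
  have h1 : sR μ L m β i τ R T ≤ (en μ L β (g 0) + en μ L β h) + en μ L β (g (T • eT τ)) := by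
    unfold sR
    refine (en_mono μ (dv_cont.comp (rect_cont _ _ _ _ _)) (hc1.add (hgc _)) hpt).trans ?_
    refine (en_add μ hc1 (hgc _)).trans ?_
    exact add_le_add (en_add μ (hgc 0) hhc) le_rfl
  have h2 : en μ L β h = Real.sqrt (DF μ L τ (cube τ K) (wt τ K)
      (fun z => fw i K z ++ List.replicate R i) (fun z => fw i K z)
      (R • eT i : Fin d → ZMod (2 * m)) β T) := by
    rw [hh]
    rfl
  rw [h2] at h1
  have h3 := hge 0
  have h4 := hge (T • eT τ)
  linarith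

/-- the variation of the average -/
theorem DF_fan (hm : 2 ≤ m) (hβ : 0 < β) {i τ j₀ : Fin d} (hi : i ≠ τ) (hj : j₀ ≠ i)
    (hjτ : j₀ ≠ τ) {K R k : ℕ} (hR : 2 ^ (K + 1) ≤ R) (hl : R + d * 2 ^ (K + 1) < 2 * m)
    (hk : 2 ^ k ≤ m) {ℓ : ℕ} (hℓ : R + 2 * (d * 2 ^ (K + 1)) ≤ ℓ) :
    DF μ L τ (cube τ K) (wt τ K) (fun z => fw i K z ++ List.replicate R i)
      (fun z => fw i K z) ((R • eT i : Fin d → ZMod (2 * m))) β (2 ^ k) ≤
      2 ^ k * (N * (2 * N / β) * (1 + 2 * N / β) ^ ℓ *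
        (3 * (2 * (d * 2 ^ d * lam d K) + R * 2 ^ K / (2 ^ K) ^ (d - 1)))) := by
  have hz0 : ∀ z ∈ cube τ K, z τ = 0 := fun z hz => (mem_cube.1 hz).1
  have hP : ∀ z ∈ cube τ K, τ ∉ fw i K z ++ List.replicate R i := by
    intro z hz h
    rcases List.mem_append.1 h with h | h
    · exact not_mem_fw (hz0 z hz) h
    · exact hi (List.eq_of_mem_replicate h).symm
  have hQ : ∀ z ∈ cube τ K, τ ∉ fw i K z := fun z hz => not_mem_fw (hz0 z hz)
  have hv : (R • eT i : Fin d → ZMod (2 * m)) τ = 0 := by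
    simp [eT, hi.symm]
  have hd1 : 1 ≤ d := Nat.one_le_of_lt (Fin.pos i)
  have hKd : 2 ^ (K + 1) ≤ d * 2 ^ (K + 1) := Nat.le_mul_of_pos_left _ hd1
  have hlen : ∀ z ∈ cube τ K, (fw i K z).length ≤ d * 2 ^ (K + 1) := by
    intro z hz
    rw [length_fw]
    calc ∑ k, z k ≤ ∑ k : Fin d, 2 ^ (K + 1) :=
          Finset.sum_le_sum fun k _ => (cube_lt hz k).le
      _ = d * 2 ^ (K + 1) := by simp
  obtain ⟨j, hj1, hj2⟩ := fan_energy (l := 2 * m) (K := K) hi hj hjτ (by omega)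
    (eT τ) (R • eT i) R
  refine (DF_pow μ (w := wt τ K) hm hP hQ hv β hk).trans ?_
  refine mul_le_mul_of_nonneg_left ?_ (by positivity)
  have h1 := one_step μ (L := L) (S := cube τ K) (w := wt τ K)
    (P := fun z => fw i K z ++ List.replicate R i) (Q := fun z => fw i K z)
    (v := (R • eT i : Fin d → ZMod (2 * m))) hm hβ hP hQ hv
    (fun z hz => by rw [dsp_append, dsp_rep, add_comm])
    (fun z hz => by
      exact PQ_nodup hi hj hjτ hz hR hl (eT τ))
    (wt_nonneg τ K) (ℓ := ℓ) (fun z hz => by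
      have := hlen z hz
      rw [List.length_append, List.length_replicate]
      omega) (j := j) (fun e S' hS' h => hj1 e S' hS' h)
  have h2 : DF μ L τ (cube τ K) (wt τ K) (fun z => fw i K z ++ List.replicate R i)
      (fun z => fw i K z) ((R • eT i : Fin d → ZMod (2 * m))) β 1 =
      EX μ L β (fun U : Ed d (2 * m) → G => ‖FF L (cube τ K) (wt τ K)
        (fun z => fw i K z ++ List.replicate R i) (fun z => fw i K z) (R • eT i) U 0 *
        L.rho (U (R • eT i, τ)) - L.rho (U (0, τ)) * FF L (cube τ K) (wt τ K)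
        (fun z => fw i K z ++ List.replicate R i) (fun z => fw i K z) (R • eT i) U (eT τ)‖ ^ 2) := by
    unfold DF
    congr 1
    funext U
    have e1 : ∀ x : Fin d → ZMod (2 * m), ln U τ 1 x = U (x, τ) := fun x => by
      show U (x, τ) * 1 = _
      rw [mul_one]
    rw [e1, e1, one_smul]
  rw [h2]
  refine h1.trans (mul_le_mul_of_nonneg_left hj2 (by positivity))

/-- **the recursion** -/
theorem sR_rec (hm : 2 ≤ m) (hβ : 0 < β) {i τ j₀ : Fin d} (hi : i ≠ τ) (hj : j₀ ≠ i)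
    (hjτ : j₀ ≠ τ) {K R k : ℕ} (hR : 2 ^ (K + 1) ≤ R) (hl : R + d * 2 ^ (K + 1) < 2 * m)
    (hk : 2 ^ k ≤ m) {ℓ : ℕ} (hℓ : R + 2 * (d * 2 ^ (K + 1)) ≤ ℓ)
    {Bf : ℕ → ℝ} (hB : ∀ k, 0 ≤ Bf k)
    (hb : ∀ k ≤ K + 1, ∀ i j : Fin d, i ≠ j → ∀ a b, a ≤ 2 ^ k → b ≤ 2 ^ k →
      sR μ L m β i j a b ≤ Bf k) {B : ℝ} (hB0 : 0 ≤ B)
    (hBr : ∀ k : Fin d, k ≠ i → ∀ a, a ≤ 2 ^ (K + 1) → sR μ L m β k i a R ≤ B) :
    sR μ L m β i τ R (2 ^ k) ≤ Real.sqrt (2 ^ k * (N * (2 * N / β) * (1 + 2 * N / β) ^ ℓ *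
        (3 * (2 * (d * 2 ^ d * lam d K) + R * 2 ^ K / (2 ^ K) ^ (d - 1))))) +
      2 * (2 * (d ^ 2 * ∑ k ∈ Finset.range K, Bf (k + 2)) + d * B) := by
  have h1 := sR_Fa μ (L := L) (β := β) hi K R (2 ^ k)
    (Bc := 2 * (d ^ 2 * ∑ k ∈ Finset.range K, Bf (k + 2)) + d * B) fun z hz x =>
      coh μ hB hb hz (fun k hk => hBr k hk _ (cube_lt hz k).le) hB0 x
  have h2 := DF_fan μ (L := L) hm hβ hi hj hjτ hR hl hk hℓ
  have h3 := Real.sqrt_le_sqrt h2
  linarith

end

end Pool.Agent.V11260
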