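import Mathlib
import Pool.Agent.V11260.Rec

/-!
# The perimeter bound on the torus
-/

open MeasureTheory Matrix Filter
open scoped Matrix.Norms.Frobenius Topology
open Pool.Agent.H906R3.YM hiding Pl
open Pool.Agent.W793.YM Pool.Agent.TH618.YM Pool.Agent.Y14

namespace Pool.Agent.V11260

set_option linter.unusedSectionVars false
set_option linter.unusedVariables false

noncomputable section

/-! ### log-convex sequences -/

section conv

variable {W : ℕ → ℝ} {M : ℕ}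

lemma lc_step (h0 : W 0 = 1) (hn : ∀ n < M, 0 ≤ W n)
    (hc : ∀ n, n + 2 < M → W (n + 1) ^ 2 ≤ W n * W (n + 2)) (n : ℕ) (hnM : n + 1 < M) :
    W n ^ (n + 1) ≤ W (n + 1) ^ n := by
  induction n with
  | zero => simp [h0]
  | succ n ih =>
    have h1 := ih (by omega)
    have h2 := hc n hnM
    have p0 := hn n (by omega)
    have p1 := hn (n + 1) (by omega)
    have p2 := hn (n + 2) (by omega)
    show W (n + 1) ^ (n + 2) ≤ W (n + 2) ^ (n + 1)
    rcases eq_or_lt_of_le p1 with h | h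
    · rw [← h, zero_pow (by omega)]
      positivity
    · have h3 : W (n + 1) ^ (2 * (n + 1)) ≤ W (n + 1) ^ n * W (n + 2) ^ (n + 1) := by
        calc W (n + 1) ^ (2 * (n + 1)) = (W (n + 1) ^ 2) ^ (n + 1) := by rw [← pow_mul]
          _ ≤ (W n * W (n + 2)) ^ (n + 1) := pow_le_pow_left₀ (by positivity) h2 _
          _ = W n ^ (n + 1) * W (n + 2) ^ (n + 1) := by rw [mul_pow]
          _ ≤ _ := mul_le_mul_of_nonneg_right h1 (by positivity)
      have h4 : W (n + 1) ^ (2 * (n + 1)) = W (n + 1) ^ n * W (n + 1) ^ (n + 2) := by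
        rw [← pow_add]; congr 1; omega
      rw [h4] at h3
      exact le_of_mul_le_mul_left h3 (by positivity)

lemma lc_pow (h0 : W 0 = 1) (hn : ∀ n < M, 0 ≤ W n)
    (hc : ∀ n, n + 2 < M → W (n + 1) ^ 2 ≤ W n * W (n + 2)) {t : ℕ} (ht : 1 ≤ t) {b : ℕ}
    (htb : t ≤ b) (hb : b < M) : W t ^ b ≤ W b ^ t := by
  induction b, htb using Nat.le_induction with
  | base => exact le_rfl
  | succ b htb ih =>
    have h1 := ih (by omega)
    have h2 := lc_step h0 hn hc b hb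
    have p0 := hn t (by omega)
    have p1 := hn b (by omega)
    have p2 := hn (b + 1) hb
    have h3 : (W t ^ (b + 1)) ^ b ≤ (W (b + 1) ^ t) ^ b := by
      calc (W t ^ (b + 1)) ^ b = (W t ^ b) ^ (b + 1) := by rw [← pow_mul, ← pow_mul, mul_comm]
        _ ≤ (W b ^ t) ^ (b + 1) := pow_le_pow_left₀ (by positivity) h1 _
        _ = (W b ^ (b + 1)) ^ t := by rw [← pow_mul, ← pow_mul, mul_comm]
        _ ≤ (W (b + 1) ^ b) ^ t := pow_le_pow_left₀ (by positivity) h2 _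
        _ = _ := by rw [← pow_mul, ← pow_mul, mul_comm]
    exact (pow_le_pow_iff_left₀ (by positivity) (by positivity) (by omega)).1 h3

lemma lc_sq (h0 : W 0 = 1) (hn : ∀ n < M, 0 ≤ W n) (h1 : ∀ n, W n ≤ 1)
    (hc : ∀ n, n + 2 < M → W (n + 1) ^ 2 ≤ W n * W (n + 2)) {t b : ℕ} (ht : 1 ≤ t)
    (htb : t ≤ b) (hb2 : b ≤ 2 * t) (hb : b < M) : W t ^ 2 ≤ W b := by
  have h2 := lc_pow h0 hn hc ht htb hb
  have p0 := hn t (by omega)
  have p1 := hn b hb
  have h3 : (W t ^ 2) ^ t ≤ W b ^ t := by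
    rw [← pow_mul]
    exact (pow_le_pow_of_le_one p0 (h1 t) hb2).trans h2
  exact (pow_le_pow_iff_left₀ (by positivity) p1 (by omega)).1 h3

end conv

variable {G : Type*} [Group G] [TopologicalSpace G] [IsTopologicalGroup G] [CompactSpace G]
  [SecondCountableTopology G] [MeasurableSpace G] [BorelSpace G] (μ : Measure G)
  [IsProbabilityMeasure μ] [μ.IsMulLeftInvariant] [μ.IsMulRightInvariant] [μ.IsInvInvariant]
  {N n : ℕ} {L : LD G N n} {d m : ℕ} [NeZero m] {β : ℝ}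

lemma sR_sq (hN : 1 ≤ N) (i j : Fin d) (a b : ℕ) :
    sR μ L m β i j a b ^ 2 = 2 * N * (1 - wR2 μ L m β i j a b) := by
  unfold sR
  rw [en_sq, EX_dv_rect μ hN]

lemma sR_area (hm : 2 ≤ m) (hN : 1 ≤ N) (hβ : 0 < β) {i j : Fin d} (hij : i ≠ j) {a b : ℕ}
    (ha : a < 2 * m) (hb : b < 2 * m) :
    sR μ L m β i j a b ^ 2 ≤ 2 * N ^ 2 / β * (a * b) := by
  unfold sR
  rw [en_sq]
  exact rect_bound μ hm hN hβ hij 0 ha hb

lemma sR_triv (hm : 2 ≤ m) (hN : 1 ≤ N) (hβ : 0 < β) {i j : Fin d} (hij : i ≠ j) {a : ℕ} (b : ℕ)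
    (ha : a < 2 * m) : sR μ L m β i j a b ^ 2 ≤ 2 * N := by
  rw [sR_sq μ hN]
  have h := wR2_nonneg μ (L := L) hm hij hβ.le ha b
  have hN0 : (0 : ℝ) ≤ N := Nat.cast_nonneg _
  nlinarith

lemma sR_conv (hm : 2 ≤ m) (hN : 1 ≤ N) (hβ : 0 < β) {i j : Fin d} (hij : i ≠ j) (a : ℕ)
    {t b : ℕ} (ht : 1 ≤ t) (htb : t ≤ b) (hb2 : b ≤ 2 * t) (hb : b < 2 * m) :
    sR μ L m β i j a b ^ 2 ≤ 2 * sR μ L m β i j a t ^ 2 := by
  rw [sR_sq μ hN, sR_sq μ hN, wR2_swap μ β i j a b, wR2_swap μ β i j a t]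
  have h1 := lc_sq (W := fun t => wR2 μ L m β j i t a) (M := 2 * m) (wR2_zero μ hN β j i a)
    (fun n hn => wR2_nonneg μ hm hij.symm hβ.le hn a) (fun n => wR2_le μ hN β j i n a)
    (fun n hn => wR2_cs μ hm hij.symm hβ.le hn a) ht htb hb2 hb
  have h2 := wR2_le μ (L := L) (m := m) hN β j i t a
  have h3 := wR2_nonneg μ (L := L) hm hij.symm hβ.le (lt_of_le_of_lt htb hb) a
  have hN0 : (0 : ℝ) ≤ N := Nat.cast_nonneg _
  generalize wR2 μ L m β j i b a = p at *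
  generalize wR2 μ L m β j i t a = q at *
  have h4 : 1 - p ≤ 2 * (1 - q) := by nlinarith
  nlinarith

/-! ### the constants -/

/-- the scale of the fans -/
def qd (d : ℕ) : ℕ := 7 + 2 * d

/-- the constant in the main bound -/
def cA (N d : ℕ) : ℝ := 12 * 4 ^ qd d * N

/-- the constant in the main bound -/
def cB (N d : ℕ) : ℝ := 3 * (2 * d + 1) * cA N d

lemma lam_last (d K : ℕ) : ((2 : ℝ) ^ K) ^ 2 / (2 ^ K) ^ (d - 1) ≤ lam d K := by
  unfold lam
  rw [Finset.sum_range_succ]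
  have : 0 ≤ ∑ k ∈ Finset.range K, ((2 : ℝ) ^ k) ^ 2 / (2 ^ k) ^ (d - 1) :=
    Finset.sum_nonneg fun k _ => by positivity
  linarith

lemma geo (K : ℕ) : ∑ k ∈ Finset.range K, Real.sqrt (2 ^ (k + 2)) ≤ 5 * Real.sqrt (2 ^ K) := by
  have h2 : Real.sqrt 2 * Real.sqrt 2 = 2 := Real.mul_self_sqrt (by norm_num)
  have h3 : 1.4 ≤ Real.sqrt 2 := Real.le_sqrt_of_sq_le (by norm_num)
  have h4 : ∀ k : ℕ, Real.sqrt (2 ^ (k + 2)) = 2 * Real.sqrt (2 ^ k) := fun k => by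
    have : (2 : ℝ) ^ (k + 2) = 2 ^ 2 * 2 ^ k := by ring
    rw [this, Real.sqrt_mul (by norm_num), Real.sqrt_sq (by norm_num)]
  induction K with
  | zero => simp
  | succ K ih =>
    rw [Finset.sum_range_succ, h4]
    have h5 : Real.sqrt (2 ^ (K + 1)) = Real.sqrt 2 * Real.sqrt (2 ^ K) := by
      rw [← Real.sqrt_mul (by norm_num)]; congr 1; ring
    rw [h5]
    have h6 : 0 ≤ Real.sqrt ((2 : ℝ) ^ K) := Real.sqrt_nonneg _
    nlinarith

lemma exp_three {σ : ℝ} (hσ : 0 ≤ σ) {ℓ : ℕ} (h : σ * ℓ ≤ 1) : (1 + σ) ^ ℓ ≤ 3 :=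
  pow_le_three hσ le_rfl h

/-- **the perimeter bound on the torus** -/
theorem core (hm : 2 ≤ m) (hN : 1 ≤ N) (hd : 3 ≤ d) (hβ : 0 < β) {Λ : ℝ} (hΛ1 : 1 ≤ Λ)
    (hΛ : ∀ K : ℕ, (2 : ℝ) ^ K * N ≤ β → lam d K ≤ Λ) {X : ℕ} (hX : X < m) :
    ∀ a ≤ X, ∀ i j : Fin d, i ≠ j → ∀ b ≤ X,
      sR μ L m β i j a b ≤ Real.sqrt (Λ / β) * (cA N d * Real.sqrt b + cB N d * Real.sqrt a) := by
  obtain ⟨r, hr⟩ : ∃ r, r = Real.sqrt (Λ / β) := ⟨_, rfl⟩
  have hr0 : 0 ≤ r := by rw [hr]; exact Real.sqrt_nonneg _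
  have hr2 : r ^ 2 = Λ / β := by rw [hr]; exact Real.sq_sqrt (by positivity)
  have hN1 : (1 : ℝ) ≤ N := by exact_mod_cast hN
  have hd3 : (3 : ℝ) ≤ d := by exact_mod_cast hd
  have h4q : (1 : ℝ) ≤ 4 ^ qd d := one_le_pow₀ (by norm_num)
  obtain ⟨A, hA⟩ : ∃ A, A = cA N d := ⟨_, rfl⟩
  obtain ⟨B, hB⟩ : ∃ B, B = cB N d := ⟨_, rfl⟩
  have hA1 : 12 * N ≤ A := by
    rw [hA]; unfold cA
    nlinarith
  have hA0 : 0 ≤ A := by linarith
  have hBA : B = 3 * (2 * d + 1) * A := by rw [hB, hA]; rfl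
  have hB0 : 0 ≤ B := by rw [hBA]; positivity
  have hAB : A ≤ B := by rw [hBA]; nlinarith
  rw [← hA, ← hB, ← hr]
  -- the size of `2 ^ qd d`
  obtain ⟨s, hs⟩ : ∃ s : ℝ, s = 2 ^ qd d := ⟨_, rfl⟩
  have hs4 : (4 : ℝ) ^ qd d = s ^ 2 := by
    rw [hs, ← pow_mul, mul_comm, pow_mul]; norm_num
  have hsd : 128 * (d : ℝ) ^ 2 ≤ s := by
    have h1 : (d : ℝ) ≤ 2 ^ d := by exact_mod_cast (Nat.lt_two_pow_self (n := d)).le
    have h2 : (d : ℝ) ^ 2 ≤ (2 ^ d) ^ 2 := pow_le_pow_left₀ (by positivity) h1 2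
    have h3 : s = 128 * (2 ^ d) ^ 2 := by
      rw [hs]; unfold qd
      rw [pow_add, ← pow_mul, mul_comm 2 d]; norm_num
    rw [h3]; linarith
  have hs1 : 1 ≤ s := by nlinarith
  have hdd : (d : ℝ) * 2 ^ d ≤ s := by
    have h1 : (d : ℝ) ≤ 2 ^ d := by exact_mod_cast (Nat.lt_two_pow_self (n := d)).le
    have h3 : s = 128 * (2 ^ d) ^ 2 := by
      rw [hs]; unfold qd
      rw [pow_add, ← pow_mul, mul_comm 2 d]; norm_num
    rw [h3]
    have h4 : (0 : ℝ) < 2 ^ d := by positivity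
    nlinarith
  have hA2 : A = 12 * s ^ 2 * N := by rw [hA]; unfold cA; rw [hs4]
  intro a
  induction a using Nat.strong_induction_on with
  | _ a ih =>
  intro haX i τ hiτ b hbX
  have hsa0 : 0 ≤ Real.sqrt a := Real.sqrt_nonneg _
  have hsb0 : 0 ≤ Real.sqrt b := Real.sqrt_nonneg _
  have hsR0 := sR_nonneg μ (L := L) (m := m) (β := β) i τ a b
  by_cases hbig : β < 4 * N * a
  · -- large `a`
    have h1 := sR_triv μ (L := L) hm hN hβ hiτ b (a := a) (by omega)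
    have h2 : (2 : ℝ) * N ≤ (r * (B * Real.sqrt a)) ^ 2 := by
      rw [mul_pow, mul_pow, hr2, Real.sq_sqrt (Nat.cast_nonneg _), div_mul_eq_mul_div,
        le_div_iff₀ hβ]
      have h3 : 144 * (N : ℝ) ^ 2 ≤ B ^ 2 := by nlinarith
      have h4 : (0 : ℝ) ≤ a := Nat.cast_nonneg _
      have h5 : 2 * (N : ℝ) * β ≤ 8 * N ^ 2 * a := by nlinarith
      have h6 : 8 * (N : ℝ) ^ 2 * a ≤ B ^ 2 * a := by
        refine mul_le_mul_of_nonneg_right ?_ h4
        nlinarith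
      have h7 : B ^ 2 * a ≤ Λ * (B ^ 2 * a) := le_mul_of_one_le_left (by positivity) hΛ1
      linarith
    have h3 : sR μ L m β i τ a b ≤ r * (B * Real.sqrt a) :=
      (pow_le_pow_iff_left₀ hsR0 (by positivity) two_ne_zero).1 (h1.trans h2)
    refine h3.trans (mul_le_mul_of_nonneg_left ?_ hr0)
    have : 0 ≤ A * Real.sqrt b := by positivity
    linarith
  push Not at hbig
  by_cases hsmall : a < 4 ^ qd d
  · -- small `a`
    have h1 := sR_area μ (L := L) hm hN hβ hiτ (a := a) (b := b) (by omega) (by omega)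
    have h2 : 2 * (N : ℝ) ^ 2 / β * (a * b) ≤ (r * (A * Real.sqrt b)) ^ 2 := by
      rw [mul_pow, mul_pow, hr2, Real.sq_sqrt (Nat.cast_nonneg _), div_mul_eq_mul_div,
        div_mul_eq_mul_div]
      refine div_le_div_of_nonneg_right ?_ hβ.le
      have h3 : (a : ℝ) ≤ s ^ 2 := by
        rw [← hs4]; exact_mod_cast hsmall.le
      have h4 : (0 : ℝ) ≤ b := Nat.cast_nonneg _
      have h5 : 2 * (N : ℝ) ^ 2 * s ^ 2 ≤ A ^ 2 := by
        rw [hA2]
        have : (1 : ℝ) ≤ s ^ 2 := one_le_pow₀ hs1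
        have h6 : 2 * (N : ℝ) ^ 2 * s ^ 2 ≤ 144 * (N : ℝ) ^ 2 * s ^ 2 := by
          have : (0 : ℝ) ≤ N ^ 2 * s ^ 2 := by positivity
          nlinarith
        calc _ ≤ 144 * (N : ℝ) ^ 2 * s ^ 2 := h6
          _ ≤ 144 * (N : ℝ) ^ 2 * s ^ 2 * s ^ 2 := le_mul_of_one_le_right (by positivity) this
          _ = _ := by ring
      calc 2 * (N : ℝ) ^ 2 * (a * b) ≤ 2 * (N : ℝ) ^ 2 * (s ^ 2 * b) := by
            refine mul_le_mul_of_nonneg_left (mul_le_mul_of_nonneg_right h3 h4) (by positivity)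
        _ = 2 * (N : ℝ) ^ 2 * s ^ 2 * b := by ring
        _ ≤ A ^ 2 * b := mul_le_mul_of_nonneg_right h5 h4
        _ ≤ Λ * (A ^ 2 * b) := le_mul_of_one_le_left (by positivity) hΛ1
    have h3 : sR μ L m β i τ a b ≤ r * (A * Real.sqrt b) :=
      (pow_le_pow_iff_left₀ hsR0 (by positivity) two_ne_zero).1 (h1.trans h2)
    refine h3.trans (mul_le_mul_of_nonneg_left ?_ hr0)
    have : 0 ≤ B * Real.sqrt a := by positivity
    linarith
  push Not at hsmall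
  rcases Nat.eq_zero_or_pos b with hb0 | hb0
  · subst hb0
    have h1 := sR_area μ (L := L) hm hN hβ hiτ (a := a) (b := 0) (by omega) (by omega)
    have h2 : sR μ L m β i τ a 0 ^ 2 ≤ 0 := by simpa using h1
    have h3 : sR μ L m β i τ a 0 = 0 := by
      have := le_antisymm h2 (sq_nonneg _)
      exact pow_eq_zero_iff two_ne_zero |>.1 this
    rw [h3]; positivity
  -- the scales
  have ha0 : a ≠ 0 := by
    have : 0 < 4 ^ qd d := by positivity
    omega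
  obtain ⟨K, hK⟩ : ∃ K, K = Nat.log 2 a - 2 * qd d := ⟨_, rfl⟩
  have hlog : 2 * qd d ≤ Nat.log 2 a := by
    refine (Nat.le_log_iff_pow_le (by norm_num) ha0).2 ?_
    rw [pow_mul]; exact hsmall
  have hKa : 2 ^ K * 4 ^ qd d ≤ a := by
    have h1 := Nat.pow_log_le_self 2 ha0
    have h2 : Nat.log 2 a = K + 2 * qd d := by omega
    rw [h2, pow_add, pow_mul 2 2 (qd d)] at h1
    exact h1
  have hKa' : a < 2 * (2 ^ K * 4 ^ qd d) := by
    have h1 := Nat.lt_pow_succ_log_self (b := 2) (by norm_num) a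
    have h2 : Nat.log 2 a = K + 2 * qd d := by omega
    rw [h2, pow_succ, pow_add, pow_mul 2 2 (qd d)] at h1
    have h3 : (2 : ℕ) ^ 2 = 4 := rfl
    rw [h3] at h1
    omega
  obtain ⟨k, hk⟩ : ∃ k, k = Nat.log 2 b := ⟨_, rfl⟩
  have hkb : 2 ^ k ≤ b := by rw [hk]; exact Nat.pow_log_le_self 2 (by omega)
  have hkb' : b < 2 * 2 ^ k := by
    have := Nat.lt_pow_succ_log_self (b := 2) (by norm_num) b
    rw [← hk, pow_succ] at this
    omega
  have hKaR : (2 : ℝ) ^ K * s ^ 2 ≤ a := by rw [← hs4]; exact_mod_cast hKa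
  have hKaR' : (a : ℝ) ≤ 2 * (2 ^ K * s ^ 2) := by rw [← hs4]; exact_mod_cast hKa'.le
  have haβ : 4 * (N : ℝ) * a ≤ β := hbig
  -- `d 2 ^ (K + 1)` is smaller than `a`
  have hdK : 4 * (d * 2 ^ (K + 1)) < a := by
    have h1 : (4 * (d * 2 ^ (K + 1)) : ℝ) < a := by
      have h2 : (0 : ℝ) < 2 ^ K := by positivity
      have h3 : 8 * (d : ℝ) < s ^ 2 := by nlinarith
      calc (4 * (d * 2 ^ (K + 1)) : ℝ) = 8 * d * 2 ^ K := by ring
        _ < s ^ 2 * 2 ^ K := mul_lt_mul_of_pos_right h3 h2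
        _ = 2 ^ K * s ^ 2 := by ring
        _ ≤ a := hKaR
    exact_mod_cast h1
  have hd1 : 1 ≤ d := by omega
  have hKd : 2 ^ (K + 1) ≤ d * 2 ^ (K + 1) := Nat.le_mul_of_pos_left _ hd1
  obtain ⟨j₀, hj, hjτ⟩ : ∃ j₀ : Fin d, j₀ ≠ i ∧ j₀ ≠ τ := by
    by_contra hcon
    push Not at hcon
    have h1 : (Finset.univ : Finset (Fin d)) ⊆ {i, τ} := by
      intro k _
      by_cases hk : k = i
      · rw [hk]; simp
      · rw [hcon k hk]; simp
    have h2 := Finset.card_le_card h1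
    rw [Finset.card_univ, Fintype.card_fin] at h2
    have h3 : ({i, τ} : Finset (Fin d)).card ≤ 2 := Finset.card_le_two
    omega
  -- the recursion
  have hrec := sR_rec μ (L := L) (ℓ := 2 * a) hm hβ hiτ hj hjτ (K := K) (R := a) (k := k)
    (by omega) (by omega) (by omega) (by omega)
    (Bf := fun k => r * ((A + B) * Real.sqrt (2 ^ k))) (fun k => by positivity)
    (fun k' hk' i' j' hij' a' b' ha' hb' => by
      have h1 : 2 ^ k' ≤ 2 ^ (K + 1) := Nat.pow_le_pow_right (by norm_num) hk'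
      have h2 := ih a' (by omega) (by omega) i' j' hij' b' (by omega)
      refine h2.trans (mul_le_mul_of_nonneg_left ?_ hr0)
      have h3 : Real.sqrt a' ≤ Real.sqrt (2 ^ k') := Real.sqrt_le_sqrt (by exact_mod_cast ha')
      have h4 : Real.sqrt b' ≤ Real.sqrt (2 ^ k') := Real.sqrt_le_sqrt (by exact_mod_cast hb')
      have h5 := mul_le_mul_of_nonneg_left h3 hB0
      have h6 := mul_le_mul_of_nonneg_left h4 hA0
      linarith)
    (B := r * (A * Real.sqrt a + B * Real.sqrt (2 ^ (K + 1)))) (by positivity)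
    (fun k' hk' a' ha' => by
      have h2 := ih a' (by omega) (by omega) k' i hk' a haX
      refine h2.trans (mul_le_mul_of_nonneg_left ?_ hr0)
      have h3 : Real.sqrt a' ≤ Real.sqrt (2 ^ (K + 1)) :=
        Real.sqrt_le_sqrt (by exact_mod_cast ha')
      have h5 := mul_le_mul_of_nonneg_left h3 hB0
      linarith)
  -- the first term
  have hK1 : (2 : ℝ) ^ K * N ≤ β := by
    have h1 : (1 : ℝ) ≤ s ^ 2 := one_le_pow₀ hs1
    have h2 : (2 : ℝ) ^ K ≤ 2 ^ K * s ^ 2 := le_mul_of_one_le_right (by positivity) h1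
    have h3 : (0 : ℝ) ≤ a := Nat.cast_nonneg _
    have h4 : (2 : ℝ) ^ K * N ≤ a * N :=
      mul_le_mul_of_nonneg_right (h2.trans hKaR) (by linarith)
    nlinarith
  have hlamK := hΛ K hK1
  have ht1 : Real.sqrt (2 ^ k * (N * (2 * N / β) * (1 + 2 * N / β) ^ (2 * a) *
      (3 * (2 * (d * 2 ^ d * lam d K) + a * 2 ^ K / (2 ^ K) ^ (d - 1))))) ≤
      r * (A / 2 * Real.sqrt (2 ^ k)) := by
    rw [Real.sqrt_le_left (by positivity), mul_pow, mul_pow, hr2,
      Real.sq_sqrt (by positivity)]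
    have e1 : (1 + 2 * (N : ℝ) / β) ^ (2 * a) ≤ 3 := by
      refine exp_three (by positivity) ?_
      rw [div_mul_eq_mul_div, div_le_one hβ]
      push_cast
      linarith
    have e2 : (a : ℝ) * 2 ^ K / (2 ^ K) ^ (d - 1) ≤ 2 * s ^ 2 * Λ := by
      calc (a : ℝ) * 2 ^ K / (2 ^ K) ^ (d - 1) ≤
            2 * (2 ^ K * s ^ 2) * 2 ^ K / (2 ^ K) ^ (d - 1) := by gcongr
        _ = 2 * s ^ 2 * ((2 ^ K) ^ 2 / (2 ^ K) ^ (d - 1)) := by ring
        _ ≤ 2 * s ^ 2 * Λ :=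
            mul_le_mul_of_nonneg_left ((lam_last d K).trans hlamK) (by positivity)
    have e3 : (d : ℝ) * 2 ^ d * lam d K ≤ s * Λ := by
      refine mul_le_mul hdd hlamK (lam_nonneg d K) (by linarith)
    have e4 : 3 * (2 * (d * 2 ^ d * lam d K) + a * 2 ^ K / (2 ^ K) ^ (d - 1)) ≤
        12 * s ^ 2 * Λ := by
      have : s * Λ ≤ s ^ 2 * Λ := mul_le_mul_of_nonneg_right (by nlinarith) (by linarith)
      linarith
    have e5 : 0 ≤ 3 * (2 * (d * 2 ^ d * lam d K) + (a : ℝ) * 2 ^ K / (2 ^ K) ^ (d - 1)) := by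
      have := lam_nonneg d K
      positivity
    calc _ ≤ 2 ^ k * (N * (2 * N / β) * 3 * (12 * s ^ 2 * Λ)) := by
          refine mul_le_mul_of_nonneg_left ?_ (by positivity)
          refine mul_le_mul (mul_le_mul_of_nonneg_left e1 (by positivity)) e4 e5 (by positivity)
      _ = 72 * s ^ 2 * N ^ 2 * (Λ / β) * 2 ^ k := by ring
      _ ≤ Λ / β * ((A / 2) ^ 2 * 2 ^ k) := by
          have e6 : 72 * s ^ 2 * (N : ℝ) ^ 2 ≤ (A / 2) ^ 2 := by
            rw [hA2]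
            have h1 : (4 : ℝ) ≤ s ^ 2 := by nlinarith
            have h2 : (0 : ℝ) ≤ N ^ 2 * s ^ 2 := by positivity
            have h3 : (12 * s ^ 2 * N / 2) ^ 2 = 36 * s ^ 2 * (N ^ 2 * s ^ 2) := by ring
            rw [h3]
            nlinarith
          have e7 := mul_le_mul_of_nonneg_right e6
            (show (0 : ℝ) ≤ Λ / β * 2 ^ k by positivity)
          linarith
  -- the second term
  have hsq : Real.sqrt (2 ^ K) * s ≤ Real.sqrt a := by
    rw [← Real.sqrt_sq (by linarith : (0 : ℝ) ≤ s), ← Real.sqrt_mul (by positivity)]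
    exact Real.sqrt_le_sqrt hKaR
  have hKs0 : 0 ≤ Real.sqrt ((2 : ℝ) ^ K) := Real.sqrt_nonneg _
  have h2K : Real.sqrt (2 ^ (K + 1)) ≤ 2 * Real.sqrt (2 ^ K) := by
    have h1 : Real.sqrt ((2 : ℝ) ^ (K + 1)) = Real.sqrt 2 * Real.sqrt (2 ^ K) := by
      rw [← Real.sqrt_mul (by norm_num)]; congr 1; ring
    have h3 : Real.sqrt 2 ≤ 2 := by
      rw [Real.sqrt_le_left (by norm_num)]; norm_num
    rw [h1]
    exact mul_le_mul_of_nonneg_right h3 hKs0
  have ht2 : 2 * (2 * ((d : ℝ) ^ 2 * ∑ k ∈ Finset.range K,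
      r * ((A + B) * Real.sqrt (2 ^ (k + 2)))) +
      d * (r * (A * Real.sqrt a + B * Real.sqrt (2 ^ (K + 1))))) ≤
      r * (B * (2 / 3) * Real.sqrt a) := by
    have e1 : ∑ k ∈ Finset.range K, r * ((A + B) * Real.sqrt (2 ^ (k + 2))) ≤
        r * ((A + B) * (5 * Real.sqrt (2 ^ K))) := by
      rw [← Finset.mul_sum, ← Finset.mul_sum]
      exact mul_le_mul_of_nonneg_left (mul_le_mul_of_nonneg_left (geo K) (by linarith)) hr0
    have e2 := mul_le_mul_of_nonneg_left e1 (by positivity : (0 : ℝ) ≤ 4 * (d : ℝ) ^ 2)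
    have e3 : d * (r * (A * Real.sqrt a + B * Real.sqrt (2 ^ (K + 1)))) ≤
        d * (r * (A * Real.sqrt a + B * (2 * Real.sqrt (2 ^ K)))) := by gcongr
    have e4 : r * (20 * (d : ℝ) ^ 2 * (A + B) * Real.sqrt (2 ^ K) + 2 * d * A * Real.sqrt a +
        4 * d * B * Real.sqrt (2 ^ K)) ≤ r * (B * (2 / 3) * Real.sqrt a) := by
      refine mul_le_mul_of_nonneg_left ?_ hr0
      have f1 : 128 * (d : ℝ) ^ 2 * Real.sqrt (2 ^ K) ≤ Real.sqrt a := by
        calc 128 * (d : ℝ) ^ 2 * Real.sqrt (2 ^ K) ≤ s * Real.sqrt (2 ^ K) :=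
              mul_le_mul_of_nonneg_right hsd hKs0
          _ = Real.sqrt (2 ^ K) * s := mul_comm _ _
          _ ≤ _ := hsq
      -- 20 d² (A + B) ≤ 40 d² B, 4 d B ≤ 2 d² B
      have f2 : 20 * (d : ℝ) ^ 2 * (A + B) * Real.sqrt (2 ^ K) ≤
          40 * (d : ℝ) ^ 2 * B * Real.sqrt (2 ^ K) := by
        have : 20 * (d : ℝ) ^ 2 * (A + B) ≤ 40 * (d : ℝ) ^ 2 * B := by
          have := mul_le_mul_of_nonneg_left hAB (by positivity : (0 : ℝ) ≤ 20 * (d : ℝ) ^ 2)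
          linarith
        exact mul_le_mul_of_nonneg_right this hKs0
      have f3 : 4 * (d : ℝ) * B * Real.sqrt (2 ^ K) ≤
          2 * (d : ℝ) ^ 2 * B * Real.sqrt (2 ^ K) := by
        have h1 : 4 * (d : ℝ) ≤ 2 * (d : ℝ) ^ 2 := by nlinarith
        exact mul_le_mul_of_nonneg_right (mul_le_mul_of_nonneg_right h1 hB0) hKs0
      have f4 : 42 * (d : ℝ) ^ 2 * B * Real.sqrt (2 ^ K) ≤ (42 / 128) * B * Real.sqrt a := by
        have := mul_le_mul_of_nonneg_left f1 (by positivity : (0 : ℝ) ≤ (42 / 128) * B)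
        calc _ = 42 / 128 * B * (128 * (d : ℝ) ^ 2 * Real.sqrt (2 ^ K)) := by ring
          _ ≤ _ := this
      have f5 : 2 * (d : ℝ) * A * Real.sqrt a ≤ (1 / 3) * B * Real.sqrt a := by
        refine mul_le_mul_of_nonneg_right ?_ hsa0
        rw [hBA]
        nlinarith
      have f6 : (42 / 128 : ℝ) * B * Real.sqrt a + (1 / 3) * B * Real.sqrt a ≤
          B * (2 / 3) * Real.sqrt a := by
        have : 0 ≤ B * Real.sqrt a := by positivity
        nlinarith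
      linarith
    refine le_trans ?_ e4
    calc _ ≤ 4 * (d : ℝ) ^ 2 * (r * ((A + B) * (5 * Real.sqrt (2 ^ K)))) +
        2 * (d * (r * (A * Real.sqrt a + B * (2 * Real.sqrt (2 ^ K))))) := by linarith
      _ = _ := by ring
  have h1 : sR μ L m β i τ a (2 ^ k) ≤
      r * (A / 2 * Real.sqrt (2 ^ k) + B * (2 / 3) * Real.sqrt a) := by
    have : r * (A / 2 * Real.sqrt (2 ^ k) + B * (2 / 3) * Real.sqrt a) =
      r * (A / 2 * Real.sqrt (2 ^ k)) + r * (B * (2 / 3) * Real.sqrt a) := by ring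
    rw [this]
    exact hrec.trans (add_le_add ht1 ht2)
  -- from `2 ^ k` to `b`
  have h2 := sR_conv μ (L := L) hm hN hβ hiτ a (t := 2 ^ k) (b := b) Nat.one_le_two_pow hkb
    hkb'.le (by omega)
  have h3 : sR μ L m β i τ a b ≤ Real.sqrt 2 * sR μ L m β i τ a (2 ^ k) := by
    have hs0 := sR_nonneg μ (L := L) (m := m) (β := β) i τ a (2 ^ k)
    refine (pow_le_pow_iff_left₀ hsR0 (by positivity) two_ne_zero).1 ?_
    rw [mul_pow, Real.sq_sqrt (by norm_num)]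
    exact h2
  have h4 : Real.sqrt 2 ≤ 1.5 := by
    rw [Real.sqrt_le_left (by norm_num)]; norm_num
  have h5 : Real.sqrt (2 ^ k) ≤ Real.sqrt b := Real.sqrt_le_sqrt (by exact_mod_cast hkb)
  calc sR μ L m β i τ a b ≤ Real.sqrt 2 * sR μ L m β i τ a (2 ^ k) := h3
    _ ≤ 1.5 * (r * (A / 2 * Real.sqrt (2 ^ k) + B * (2 / 3) * Real.sqrt a)) :=
        mul_le_mul h4 h1 (sR_nonneg μ i τ a _) (by norm_num)
    _ = r * (0.75 * A * Real.sqrt (2 ^ k) + B * Real.sqrt a) := by ring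
    _ ≤ _ := by
        refine mul_le_mul_of_nonneg_left (add_le_add ?_ le_rfl) hr0
        refine mul_le_mul ?_ h5 (Real.sqrt_nonneg _) hA0
        linarith

end

end Pool.Agent.V11260
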