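import Mathlib
import Pool.Agent.V11260.Core
import Pool.Agent.TH618.YM.Pot

/-!
# The Wilson loops in the infinite volume
-/

open MeasureTheory Matrix Filter
open scoped Matrix.Norms.Frobenius Topology
open Pool.Agent.H906R3.YM hiding Pl
open Pool.Agent.W793.YM Pool.Agent.TH618.YM Pool.Agent.Y14

namespace Pool.Agent.V11260

set_option linter.unusedSectionVars false
set_option linter.unusedVariables false

noncomputable section

/-! ### double sequences -/

lemma conc_le {f : ℕ → ℝ} (h0 : f 0 = 0) (hc : ∀ k, f k + f (k + 2) ≤ 2 * f (k + 1)) {r R : ℕ}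
    (hr : 1 ≤ r) (hR : r ≤ R) : f R ≤ R / r * f r := by
  have hr0 : (0 : ℝ) < r := by exact_mod_cast hr
  have key : ∀ R, r ≤ R → (r : ℝ) * f R ≤ R * f r := by
    intro R hR
    induction R, hR using Nat.le_induction with
    | base => exact le_rfl
    | succ R hR ih =>
      have h1 := concave_mono h0 hc R
      have hR0 : (0 : ℝ) < R := by
        have : (r : ℝ) ≤ R := by exact_mod_cast hR
        linarith
      push_cast
      have h2 : (R : ℝ) * (r * f (R + 1)) ≤ R * ((R + 1) * f r) := by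
        calc (R : ℝ) * (r * f (R + 1)) = r * (R * f (R + 1)) := by ring
          _ ≤ r * ((R + 1) * f R) := mul_le_mul_of_nonneg_left h1 hr0.le
          _ = (R + 1) * (r * f R) := by ring
          _ ≤ (R + 1) * (R * f r) := mul_le_mul_of_nonneg_left ih (by positivity)
          _ = _ := by ring
      exact le_of_mul_le_mul_left h2 hR0
  have h1 := key R hR
  rw [div_mul_eq_mul_div, le_div_iff₀ hr0]
  linarith

/-- Bounds for a double sequence which is logarithmically convex, from bounds at the scale `r`. -/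
lemma double_le {w : ℕ → ℕ → ℝ} (h0 : ∀ T, w 0 T = 1) (h0' : ∀ R, w R 0 = 1)
    (hle : ∀ R T, w R T ≤ 1) (hc : ∀ R T, w (R + 1) T ^ 2 ≤ w R T * w (R + 2) T)
    (hc' : ∀ R T, w R (T + 1) ^ 2 ≤ w R T * w R (T + 2)) {ε : ℝ} (hε : 0 ≤ ε) {r : ℕ}
    (hr : 1 ≤ r) (hεr : ε * (2 * r) ≤ 1 / 2)
    (hw : ∀ R T, R ≤ r → T ≤ r → 1 - ε * (R + T) ≤ w R T) :
    (∀ R T : ℕ, Real.exp (-(4 * ε * (R + T) + 4 * ε / r * (R * T))) ≤ w R T) ∧
    ∃ (P : ℕ → ℝ) (σ : ℝ),
      (∀ R, Tendsto (fun T : ℕ => -Real.log (w R T) / T) atTop (𝓝 (P R))) ∧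
      Tendsto (fun R : ℕ => P R / R) atTop (𝓝 σ) ∧
      (∀ R : ℕ, P R ≤ 8 * ε + 4 * ε / r * R) ∧ 0 ≤ σ ∧ σ ≤ 12 * ε / r := by
  have hr1 : (1 : ℝ) ≤ r := by exact_mod_cast hr
  have hr0 : (0 : ℝ) < r := by linarith
  have h11 : 0 < w 1 1 := by
    have h1 := hw 1 1 hr hr
    have h2 : ε * (1 + 1) ≤ ε * (2 * r) := mul_le_mul_of_nonneg_left (by linarith) hε
    push_cast at h1
    linarith
  obtain ⟨hpos, P, σ, hPl, hσl, hσ0, hPle, hσle⟩ := double h0 h0' hle hc hc' h11
  obtain ⟨v, hv⟩ : ∃ v : ℕ → ℕ → ℝ, v = fun R T => -Real.log (w R T) := ⟨_, rfl⟩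
  have v0 : ∀ T, v 0 T = 0 := fun T => by rw [hv]; simp [h0]
  have v0' : ∀ R, v R 0 = 0 := fun R => by rw [hv]; simp [h0']
  have vc : ∀ R T, v R T + v (R + 2) T ≤ 2 * v (R + 1) T := fun R T => by
    rw [hv]; exact log_conc (hpos _ _) (hpos _ _) (hpos _ _) (hc R T)
  have vc' : ∀ R T, v R T + v R (T + 2) ≤ 2 * v R (T + 1) := fun R T => by
    rw [hv]; exact log_conc (hpos _ _) (hpos _ _) (hpos _ _) (hc' R T)
  have hs : ∀ R T, R ≤ r → T ≤ r → v R T ≤ 2 * ε * (R + T) := by
    intro R T hR hT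
    have h1 := hw R T hR hT
    have hR' : (R : ℝ) ≤ r := by exact_mod_cast hR
    have hT' : (T : ℝ) ≤ r := by exact_mod_cast hT
    have hR0 : (0 : ℝ) ≤ R := Nat.cast_nonneg _
    have hT0 : (0 : ℝ) ≤ T := Nat.cast_nonneg _
    obtain ⟨E, hE⟩ : ∃ E : ℝ, E = ε * (R + T) := ⟨_, rfl⟩
    have hE0 : 0 ≤ E := by rw [hE]; positivity
    have hE1 : E ≤ 1 / 2 := by
      rw [hE]
      exact (mul_le_mul_of_nonneg_left (by linarith) hε).trans hεr
    rw [← hE] at h1
    have h2 := Real.log_le_log (by linarith : 0 < 1 - E) h1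
    have h3 := neg_log_le hE0 hE1
    have h4 : E ^ 2 ≤ E * (1 / 2) := by nlinarith
    rw [hv]
    simp only
    have h5 : 2 * ε * (R + T) = 2 * E := by rw [hE]; ring
    rw [h5]
    linarith
  have main : ∀ R T : ℕ, v R T ≤ 4 * ε * (R + T) + 4 * ε / r * (R * T) := by
    intro R T
    have hR0 : (0 : ℝ) ≤ R := Nat.cast_nonneg _
    have hT0 : (0 : ℝ) ≤ T := Nat.cast_nonneg _
    have hp : 0 ≤ 4 * ε / r * (R * T) := by positivity
    have hq : 0 ≤ ε * (R + T) := by positivity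
    have hq1 : 0 ≤ ε * T := by positivity
    have hq2 : 0 ≤ ε * R := by positivity
    rcases Nat.le_total R r with hR | hR
    · rcases Nat.le_total T r with hT | hT
      · have := hs R T hR hT
        linarith
      · have h1 := conc_le (f := fun T => v R T) (v0' R) (fun k => vc' R k) hr hT
        have h2 := hs R r hR le_rfl
        have hR' : (R : ℝ) ≤ r := by exact_mod_cast hR
        have h3 : (T : ℝ) / r * v R r ≤ T / r * (2 * ε * (r + r)) := by
          refine mul_le_mul_of_nonneg_left (h2.trans ?_) (by positivity)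
          exact mul_le_mul_of_nonneg_left (by linarith) (by positivity)
        have h4 : (T : ℝ) / r * (2 * ε * (r + r)) = 4 * (ε * T) := by field_simp; ring
        linarith
    · have h1 := conc_le (f := fun R => v R T) (v0 T) (fun k => vc k T) hr hR
      rcases Nat.le_total T r with hT | hT
      · have h2 := hs r T le_rfl hT
        have hT' : (T : ℝ) ≤ r := by exact_mod_cast hT
        have h3 : (R : ℝ) / r * v r T ≤ R / r * (2 * ε * (r + r)) := by
          refine mul_le_mul_of_nonneg_left (h2.trans ?_) (by positivity)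
          exact mul_le_mul_of_nonneg_left (by linarith) (by positivity)
        have h4 : (R : ℝ) / r * (2 * ε * (r + r)) = 4 * (ε * R) := by field_simp; ring
        linarith
      · have h2 := conc_le (f := fun T => v r T) (v0' r) (fun k => vc' r k) hr hT
        have h3 := hs r r le_rfl le_rfl
        have h4 : (R : ℝ) / r * v r T ≤ R / r * (T / r * (2 * ε * (r + r))) := by
          refine mul_le_mul_of_nonneg_left (h2.trans ?_) (by positivity)
          exact mul_le_mul_of_nonneg_left h3 (by positivity)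
        have h5 : (R : ℝ) / r * (T / r * (2 * ε * (r + r))) = 4 * ε / r * (R * T) := by
          field_simp; ring
        linarith
  refine ⟨fun R T => ?_, P, σ, hPl, hσl, ?_, hσ0, ?_⟩
  · have h1 := main R T
    rw [hv] at h1
    simp only at h1
    rw [← Real.le_log_iff_exp_le (hpos R T)]
    linarith
  · intro R
    have h1 := hPle R (max R 1) (le_max_right _ _)
    have h2 := main R (max R 1)
    rw [hv] at h2
    simp only at h2
    obtain ⟨T, hT⟩ : ∃ T, T = max R 1 := ⟨_, rfl⟩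
    rw [← hT] at h1 h2
    have hT1 : (1 : ℝ) ≤ T := by
      have : 1 ≤ T := by rw [hT]; exact le_max_right _ _
      exact_mod_cast this
    have hT0 : (0 : ℝ) < T := by linarith
    have hRT : (R : ℝ) ≤ T := by
      have : R ≤ T := by rw [hT]; exact le_max_left _ _
      exact_mod_cast this
    refine h1.trans ((div_le_div_of_nonneg_right h2 hT0.le).trans ?_)
    rw [div_le_iff₀ hT0]
    have h3 : 4 * ε * (R + T) ≤ 8 * ε * T := by nlinarith
    have h4 : (8 * ε + 4 * ε / r * R) * T = 8 * ε * T + 4 * ε / r * (R * T) := by ring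
    linarith
  · have h1 := hσle r hr
    have h2 : P r ≤ 8 * ε + 4 * ε / r * r := by
      have h1 := hPle r r hr
      have h2 := main r r
      rw [hv] at h2
      simp only at h2
      refine h1.trans ((div_le_div_of_nonneg_right h2 hr0.le).trans (le_of_eq ?_))
      field_simp
      ring
    have h3 : 4 * ε / r * r = 4 * ε := by field_simp
    rw [h3] at h2
    refine h1.trans (div_le_div_of_nonneg_right (by linarith) hr0.le)

/-! ### the logarithmic factor -/

/-- `log β` in dimension `3`, and `1` in the dimensions `d ≥ 4` -/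
def Lg (d : ℕ) (β : ℝ) : ℝ := if d = 3 then Real.log β else 1

lemma Lg_one {e : ℕ} {β : ℝ} (hβ : 3 ≤ β) : 1 ≤ Lg e β := by
  unfold Lg
  split_ifs
  · rw [Real.le_log_iff_exp_le (by linarith)]
    have := Real.exp_one_lt_d9
    linarith
  · exact le_rfl

lemma lam_le {e : ℕ} (hd : 3 ≤ e) {β : ℝ} (hβ : 3 ≤ β) {K : ℕ} (hK : (2 : ℝ) ^ K ≤ β) :
    lam e K ≤ 3 * Lg e β := by
  have hL := Lg_one (e := e) hβ
  by_cases h3 : e = 3
  · subst h3
    have h1 : lam 3 K = K + 1 := by
      unfold lam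
      have : ∀ k ∈ Finset.range (K + 1), ((2 : ℝ) ^ k) ^ 2 / (2 ^ k) ^ (3 - 1) = 1 := by
        intro k _
        rw [show 3 - 1 = 2 from rfl]
        exact div_self (by positivity)
      rw [Finset.sum_congr rfl this]
      simp
    have h2 : (K : ℝ) * Real.log 2 ≤ Real.log β := by
      rw [← Real.log_pow]
      exact Real.log_le_log (by positivity) hK
    have h4 : 0.6931471803 < Real.log 2 := Real.log_two_gt_d9
    have h5 : Lg 3 β = Real.log β := by unfold Lg; simp
    rw [h1, h5]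
    rw [h5] at hL
    have hK0 : (0 : ℝ) ≤ K := Nat.cast_nonneg _
    nlinarith
  · have h1 : lam e K ≤ 2 := by
      unfold lam
      calc ∑ k ∈ Finset.range (K + 1), ((2 : ℝ) ^ k) ^ 2 / (2 ^ k) ^ (e - 1) ≤
          ∑ k ∈ Finset.range (K + 1), (1 / 2 : ℝ) ^ k := by
            refine Finset.sum_le_sum fun k _ => ?_
            rw [div_le_iff₀ (by positivity)]
            have h2 : ((2 : ℝ) ^ k) ^ 3 ≤ (2 ^ k) ^ (e - 1) :=
              pow_le_pow_right₀ (one_le_pow₀ (by norm_num)) (by omega)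
            have h4 : ((1 / 2 : ℝ)) ^ k * (2 ^ k) ^ 3 = (2 ^ k) ^ 2 := by
              rw [one_div, inv_pow]
              field_simp
            rw [← h4]
            exact mul_le_mul_of_nonneg_left h2 (by positivity)
        _ ≤ 2 := by
            have h2 := Summable.sum_le_tsum (Finset.range (K + 1))
              (fun k _ => by positivity) summable_geometric_two
            rw [tsum_geometric_two] at h2
            exact h2
    linarith

variable {G : Type*} [Group G] [TopologicalSpace G] [IsTopologicalGroup G] [CompactSpace G]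
  [SecondCountableTopology G] [MeasurableSpace G] [BorelSpace G] (μ : Measure G)
  [IsProbabilityMeasure μ] [μ.IsMulLeftInvariant] [μ.IsMulRightInvariant] [μ.IsInvInvariant]
  {N n : ℕ} {L : LD G N n} {d : ℕ} {β : ℝ}

/-- the constant of the perimeter bound -/
def cP (N d : ℕ) : ℝ := 3 * cB N d ^ 2

lemma cA_one (hN : 1 ≤ N) : 1 ≤ cA N d := by
  unfold cA
  have hN1 : (1 : ℝ) ≤ N := by exact_mod_cast hN
  have h4 : (1 : ℝ) ≤ 4 ^ qd d := one_le_pow₀ (by norm_num)
  nlinarith

lemma cA_cB (hN : 1 ≤ N) : cA N d ≤ cB N d := by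
  have h := cA_one (N := N) (d := d) hN
  unfold cB
  have hd : (0 : ℝ) ≤ d := Nat.cast_nonneg _
  nlinarith

lemma cP_one (hN : 1 ≤ N) : 1 ≤ cP N d := by
  have h1 := (cA_one (N := N) (d := d) hN).trans (cA_cB hN)
  unfold cP
  nlinarith

/-- **the perimeter bound** -/
theorem peri {m : ℕ} [NeZero m] (hm : 2 ≤ m) (hN : 1 ≤ N) (hd : 3 ≤ d) (hβ : 3 ≤ β) {i j : Fin d}
    (hij : i ≠ j) {a b : ℕ} (ha : a < m) (hb : b < m) :
    1 - cP N d * Lg d β / β * (a + b) ≤ wR2 μ L m β i j a b := by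
  have hβ0 : 0 < β := by linarith
  have hN1 : (1 : ℝ) ≤ N := by exact_mod_cast hN
  have hL := Lg_one (e := d) hβ
  have h1 := core μ (L := L) hm hN hd hβ0 (Λ := 3 * Lg d β) (by linarith)
    (fun K hK => lam_le hd hβ ((le_mul_of_one_le_right (by positivity) hN1).trans hK)) (X := m - 1) (by omega) a (by omega) i j hij b (by omega)
  have h2 := sR_sq μ (L := L) (m := m) (β := β) hN i j a b
  have hA1 := cA_one (N := N) (d := d) hN
  have hAB := cA_cB (N := N) (d := d) hN
  have ha0 : (0 : ℝ) ≤ a := Nat.cast_nonneg _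
  have hb0 : (0 : ℝ) ≤ b := Nat.cast_nonneg _
  have h3 : sR μ L m β i j a b ^ 2 ≤
      3 * Lg d β / β * (2 * (cB N d ^ 2 * (a + b))) := by
    have h4 := pow_le_pow_left₀ (sR_nonneg μ i j a b) h1 2
    rw [mul_pow, Real.sq_sqrt (by positivity)] at h4
    refine h4.trans (mul_le_mul_of_nonneg_left ?_ (by positivity))
    have h5 : (cA N d * Real.sqrt b + cB N d * Real.sqrt a) ^ 2 ≤
        2 * (cA N d * Real.sqrt b) ^ 2 + 2 * (cB N d * Real.sqrt a) ^ 2 := by
      nlinarith [sq_nonneg (cA N d * Real.sqrt b - cB N d * Real.sqrt a)]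
    rw [mul_pow, mul_pow, Real.sq_sqrt ha0, Real.sq_sqrt hb0] at h5
    have h6 : cA N d ^ 2 ≤ cB N d ^ 2 := pow_le_pow_left₀ (by linarith) hAB 2
    have h7 := mul_le_mul_of_nonneg_right h6 hb0
    linarith
  rw [h2] at h3
  have h4 : 1 - wR2 μ L m β i j a b ≤ 3 * Lg d β / β * (cB N d ^ 2 * (a + b)) / N := by
    rw [le_div_iff₀ (by linarith)]
    linarith
  have h5 : 3 * Lg d β / β * (cB N d ^ 2 * (a + b)) / N ≤
      3 * Lg d β / β * (cB N d ^ 2 * (a + b)) := div_le_self (by positivity) hN1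
  have h6 : 3 * Lg d β / β * (cB N d ^ 2 * (a + b)) = cP N d * Lg d β / β * (a + b) := by
    unfold cP; ring
  linarith

/-- the threshold for the inverse coupling -/
def bP (N d : ℕ) : ℝ := 64 * cP N d ^ 2

lemma bP_spec (hN : 1 ≤ N) {β : ℝ} (hβ : bP N d ≤ β) :
    3 ≤ β ∧ 4 * cP N d * Lg d β ≤ β := by
  have h1 := cP_one (N := N) (d := d) hN
  unfold bP at hβ
  have h2 : 64 ≤ β := by nlinarith
  refine ⟨by linarith, ?_⟩
  have h3 : Lg d β ≤ 2 * Real.sqrt β := by
    have h4 : 1 ≤ Real.sqrt β := by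
      rw [Real.one_le_sqrt]; linarith
    unfold Lg
    split_ifs
    · have h5 : Real.log β = 2 * Real.log (Real.sqrt β) := by
        rw [Real.log_sqrt (by linarith)]; ring
      rw [h5]
      have := Real.log_le_sub_one_of_pos (by linarith : 0 < Real.sqrt β)
      linarith
    · linarith
  have h5 : 8 * cP N d ≤ Real.sqrt β := by
    refine Real.le_sqrt_of_sq_le ?_
    nlinarith
  have h6 : Real.sqrt β * Real.sqrt β = β := Real.mul_self_sqrt (by linarith)
  have h7 : 0 ≤ Real.sqrt β := Real.sqrt_nonneg _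
  calc 4 * cP N d * Lg d β ≤ 4 * cP N d * (2 * Real.sqrt β) :=
        mul_le_mul_of_nonneg_left h3 (by linarith)
    _ = (8 * cP N d) * Real.sqrt β := by ring
    _ ≤ Real.sqrt β * Real.sqrt β := mul_le_mul_of_nonneg_right h5 h7
    _ = β := h6

/-- **The Wilson loops in the infinite volume.** -/
theorem loops_main (hN : 1 ≤ N) (hd : 3 ≤ d) {β : ℝ} (hβ : bP N d ≤ β) {i j : Fin d}
    (hij : i ≠ j) {w : ℕ → ℕ → ℝ} {s : ℕ → ℕ} (hs : Tendsto s atTop atTop)
    (hw : ∀ R T, Tendsto (fun k => wR2 μ L (s k + 1) β i j R T) atTop (𝓝 (w R T))) :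
    (∀ R T : ℕ, Real.exp (-(96 * cP N d ^ 2 * (Lg d β / β * (R + T) +
      (Lg d β / β) ^ 2 * (R * T)))) ≤ w R T) ∧
    ∃ (P : ℕ → ℝ) (σ : ℝ),
      (∀ R, Tendsto (fun T : ℕ => -Real.log (w R T) / T) atTop (𝓝 (P R))) ∧
      Tendsto (fun R : ℕ => P R / R) atTop (𝓝 σ) ∧
      (∀ R : ℕ, P R ≤ 96 * cP N d ^ 2 * (Lg d β / β + (Lg d β / β) ^ 2 * R)) ∧
      0 ≤ σ ∧ σ ≤ 96 * cP N d ^ 2 * (Lg d β / β) ^ 2 := by
  obtain ⟨hβ3, hβP⟩ := bP_spec hN hβ
  have hβ0 : 0 < β := by linarith
  have hL := Lg_one (e := d) hβ3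
  have hP1 := cP_one (N := N) (d := d) hN
  have hev : ∀ K : ℕ, ∀ᶠ k in atTop, K < s k + 1 := fun K => by
    filter_upwards [hs.eventually_ge_atTop K] with k hk
    omega
  have w0 : ∀ T, w 0 T = 1 := fun T => by
    refine tendsto_nhds_unique (hw 0 T) ?_
    simp only [wR2_zero μ hN]
    exact tendsto_const_nhds
  have w0' : ∀ R, w R 0 = 1 := fun R => by
    refine tendsto_nhds_unique (hw R 0) ?_
    have : ∀ k, wR2 μ L (s k + 1) β i j R 0 = 1 := fun k => by
      rw [wR2_swap, wR2_zero μ hN]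
    simp only [this]
    exact tendsto_const_nhds
  have wle : ∀ R T, w R T ≤ 1 := fun R T =>
    le_of_tendsto' (hw R T) fun k => wR2_le μ hN _ _ _ _ _
  have wc : ∀ R T, w (R + 1) T ^ 2 ≤ w R T * w (R + 2) T := fun R T => by
    refine le_of_tendsto_of_tendsto ((hw (R + 1) T).pow 2) ((hw R T).mul (hw (R + 2) T)) ?_
    filter_upwards [hev (R + 2)] with k hk
    exact wR2_cs μ (by omega) hij hβ0.le (by omega) T
  have wc' : ∀ R T, w R (T + 1) ^ 2 ≤ w R T * w R (T + 2) := fun R T => by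
    refine le_of_tendsto_of_tendsto ((hw R (T + 1)).pow 2) ((hw R T).mul (hw R (T + 2))) ?_
    filter_upwards [hev (T + 2)] with k hk
    rw [wR2_swap μ β i j R (T + 1), wR2_swap μ β i j R T, wR2_swap μ β i j R (T + 2)]
    exact wR2_cs μ (by omega) hij.symm hβ0.le (by omega) R
  obtain ⟨ε, hε⟩ : ∃ ε : ℝ, ε = cP N d * Lg d β / β := ⟨_, rfl⟩
  have hε0 : 0 ≤ ε := by rw [hε]; positivity
  obtain ⟨y, hy⟩ : ∃ y : ℝ, y = β / (4 * cP N d * Lg d β) := ⟨_, rfl⟩
  have hc0 : 0 < 4 * cP N d * Lg d β := by positivity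
  have hy1 : 1 ≤ y := by rw [hy, le_div_iff₀ hc0, one_mul]; exact hβP
  obtain ⟨r, hr⟩ : ∃ r : ℕ, r = ⌊y⌋₊ := ⟨_, rfl⟩
  have hry : (r : ℝ) ≤ y := by rw [hr]; exact Nat.floor_le (by linarith)
  have hyr : y < r + 1 := by rw [hr]; exact Nat.lt_floor_add_one _
  have hr1 : 1 ≤ r := by
    rw [hr]; exact Nat.le_floor (by simpa using hy1)
  have hr1R : (1 : ℝ) ≤ r := by exact_mod_cast hr1
  have hr0 : (0 : ℝ) < r := by linarith
  have hεy : ε * y = 1 / 4 := by rw [hε, hy]; field_simp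
  have hεr : ε * (2 * r) ≤ 1 / 2 := by nlinarith
  have hlow : ∀ R T, R ≤ r → T ≤ r → 1 - ε * (R + T) ≤ w R T := by
    intro R T hR hT
    refine ge_of_tendsto (hw R T) ?_
    filter_upwards [hev (R + T + 1)] with k hk
    rw [hε]
    exact peri μ (by omega) hN hd hβ3 hij (by omega) (by omega)
  obtain ⟨h1, P, σ, h2, h3, h4, h5, h6⟩ :=
    double_le w0 w0' wle wc wc' hε0 hr1 hεr hlow
  -- the bound for `ε / r`
  have hεr2 : ε / r ≤ 8 * cP N d ^ 2 * (Lg d β / β) ^ 2 := by
    rw [div_le_iff₀ hr0]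
    have e1 : y ≤ 2 * r := by linarith
    have e2 : ε = 8 * cP N d ^ 2 * (Lg d β / β) ^ 2 * (y / 2) := by
      rw [hε, hy]; field_simp; ring
    rw [e2]
    exact mul_le_mul_of_nonneg_left (by linarith) (by positivity)
  have hε2 : ε ≤ cP N d ^ 2 * (Lg d β / β) := by
    have e1 : ε = cP N d * (Lg d β / β) := by rw [hε]; ring
    rw [e1]
    exact mul_le_mul_of_nonneg_right (by nlinarith) (by positivity)
  have hx0 : 0 ≤ cP N d ^ 2 * (Lg d β / β) := by positivity
  refine ⟨fun R T => le_trans (Real.exp_le_exp.2 ?_) (h1 R T), P, σ, h2, h3, fun R => ?_, h5, ?_⟩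
  · have hR0 : (0 : ℝ) ≤ R := Nat.cast_nonneg _
    have hT0 : (0 : ℝ) ≤ T := Nat.cast_nonneg _
    have e1 := mul_le_mul_of_nonneg_right hε2 (by positivity : (0 : ℝ) ≤ 4 * (R + T))
    have e2 := mul_le_mul_of_nonneg_right hεr2 (by positivity : (0 : ℝ) ≤ 4 * (R * T))
    have e3 : 4 * ε / r * (R * T) = ε / r * (4 * (R * T)) := by ring
    have e4 : 0 ≤ cP N d ^ 2 * (Lg d β / β) * (R + T) := by positivity
    have e5 : 0 ≤ cP N d ^ 2 * (Lg d β / β) ^ 2 * (R * T) := by positivity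
    rw [e3]
    nlinarith
  · have hR0 : (0 : ℝ) ≤ R := Nat.cast_nonneg _
    have e0 := h4 R
    have e2 := mul_le_mul_of_nonneg_right hεr2 (by positivity : (0 : ℝ) ≤ 4 * (R : ℝ))
    have e3 : 4 * ε / r * R = ε / r * (4 * R) := by ring
    have e5 : 0 ≤ cP N d ^ 2 * (Lg d β / β) ^ 2 * R := by positivity
    rw [e3] at e0
    nlinarith
  · have e3 : 12 * ε / r = 12 * (ε / r) := by ring
    rw [e3] at h6
    linarith

end

end Pool.Agent.V11260
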