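import Mathlib
import Pool.Agent.V11260.Dseq

/-!
# The Wilson loops in the infinite volume, uniformly in `N`
-/

open MeasureTheory Matrix Filter
open scoped Matrix.Norms.Frobenius Topology
open Pool.Agent.H906R3.YM hiding Pl
open Pool.Agent.W793.YM Pool.Agent.TH618.YM Pool.Agent.Y14

namespace Pool.Agent.V11260

set_option linter.unusedSectionVars false
set_option linter.unusedVariables false

noncomputable section

variable {G : Type*} [Group G] [TopologicalSpace G] [IsTopologicalGroup G] [CompactSpace G]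
  [SecondCountableTopology G] [MeasurableSpace G] [BorelSpace G] (μ : Measure G)
  [IsProbabilityMeasure μ] [μ.IsMulLeftInvariant] [μ.IsMulRightInvariant] [μ.IsInvInvariant]
  {N n : ℕ} {L : LD G N n} {d : ℕ} {β : ℝ}

lemma cA_eq (N d : ℕ) : cA N d = N * cA 1 d := by
  unfold cA; push_cast; ring

lemma cB_eq (N d : ℕ) : cB N d = N * cB 1 d := by
  unfold cB; rw [cA_eq]; ring

/-- the constant of the perimeter bound, uniform in `N` -/
def cU (d : ℕ) : ℝ := cP 1 d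

lemma cU_one : 1 ≤ cU d := cP_one le_rfl

/-- **the perimeter bound, uniformly in `N`**; `b = β / N` is the inverse coupling of 't Hooft -/
theorem periU {m : ℕ} [NeZero m] (hm : 2 ≤ m) (hN : 1 ≤ N) (hd : 3 ≤ d) {b : ℝ} (hb3 : 3 ≤ b)
    (hβ : β = b * N) {i j : Fin d} (hij : i ≠ j) {a a' : ℕ} (ha : a < m) (ha' : a' < m) :
    1 - cU d * Lg d b / b * (a + a') ≤ wR2 μ L m β i j a a' := by
  have hN1 : (1 : ℝ) ≤ N := by exact_mod_cast hN
  have hN0 : (0 : ℝ) < N := by linarith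
  have hb0 : 0 < b := by linarith
  have hβ0 : 0 < β := by rw [hβ]; positivity
  have hL := Lg_one (e := d) hb3
  have h1 := core μ (L := L) hm hN hd hβ0 (Λ := 3 * Lg d b) (by linarith)
    (fun K hK => lam_le hd hb3 (by
      rw [hβ] at hK
      exact le_of_mul_le_mul_right hK hN0)) (X := m - 1) (by omega) a (by omega) i j hij a'
      (by omega)
  have h2 := sR_sq μ (L := L) (m := m) (β := β) hN i j a a'
  have hA1 := cA_one (N := 1) (d := d) le_rfl
  have hAB := cA_cB (N := 1) (d := d) le_rfl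
  have ha0 : (0 : ℝ) ≤ a := Nat.cast_nonneg _
  have hb0' : (0 : ℝ) ≤ a' := Nat.cast_nonneg _
  rw [cA_eq, cB_eq] at h1
  have h3 : sR μ L m β i j a a' ^ 2 ≤
      3 * Lg d b / β * (N ^ 2 * (2 * (cB 1 d ^ 2 * (a + a')))) := by
    have h4 := pow_le_pow_left₀ (sR_nonneg μ i j a a') h1 2
    rw [mul_pow, Real.sq_sqrt (by positivity)] at h4
    refine h4.trans (mul_le_mul_of_nonneg_left ?_ (by positivity))
    have h5 : (N * cA 1 d * Real.sqrt a' + N * cB 1 d * Real.sqrt a) ^ 2 ≤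
        N ^ 2 * (2 * (cA 1 d * Real.sqrt a') ^ 2 + 2 * (cB 1 d * Real.sqrt a) ^ 2) := by
      have e1 : (N * cA 1 d * Real.sqrt a' + N * cB 1 d * Real.sqrt a) ^ 2 =
          (N : ℝ) ^ 2 * (cA 1 d * Real.sqrt a' + cB 1 d * Real.sqrt a) ^ 2 := by ring
      rw [e1]
      refine mul_le_mul_of_nonneg_left ?_ (by positivity)
      nlinarith [sq_nonneg (cA 1 d * Real.sqrt a' - cB 1 d * Real.sqrt a)]
    rw [mul_pow (cA 1 d), mul_pow (cB 1 d), Real.sq_sqrt ha0, Real.sq_sqrt hb0'] at h5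
    refine h5.trans (mul_le_mul_of_nonneg_left ?_ (by positivity))
    have h6 : cA 1 d ^ 2 ≤ cB 1 d ^ 2 := pow_le_pow_left₀ (by linarith) hAB 2
    have h7 := mul_le_mul_of_nonneg_right h6 hb0'
    linarith
  rw [h2] at h3
  have h4 : 1 - wR2 μ L m β i j a a' ≤
      3 * Lg d b / β * (N ^ 2 * (cB 1 d ^ 2 * (a + a'))) / N := by
    rw [le_div_iff₀ hN0]
    linarith
  have h6 : 3 * Lg d b / β * (N ^ 2 * (cB 1 d ^ 2 * (a + a'))) / N =
      cU d * Lg d b / b * (a + a') := by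
    rw [hβ]
    unfold cU cP
    field_simp
  rw [h6] at h4
  linarith

/-- the threshold for the inverse coupling -/
def bU (d : ℕ) : ℝ := bP 1 d

/-- **The Wilson loops in the infinite volume, uniformly in `N`.** -/
theorem loopsU (hN : 1 ≤ N) (hd : 3 ≤ d) {b : ℝ} (hb : bU d ≤ b) (hβ : β = b * N) {i j : Fin d}
    (hij : i ≠ j) {w : ℕ → ℕ → ℝ} {s : ℕ → ℕ} (hs : Tendsto s atTop atTop)
    (hw : ∀ R T, Tendsto (fun k => wR2 μ L (s k + 1) β i j R T) atTop (𝓝 (w R T))) :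
    (∀ R T : ℕ, Real.exp (-(96 * cU d ^ 2 * (Lg d b / b * (R + T) +
      (Lg d b / b) ^ 2 * (R * T)))) ≤ w R T) ∧
    ∃ (P : ℕ → ℝ) (σ : ℝ),
      (∀ R, Tendsto (fun T : ℕ => -Real.log (w R T) / T) atTop (𝓝 (P R))) ∧
      Tendsto (fun R : ℕ => P R / R) atTop (𝓝 σ) ∧
      (∀ R : ℕ, P R ≤ 96 * cU d ^ 2 * (Lg d b / b + (Lg d b / b) ^ 2 * R)) ∧
      0 ≤ σ ∧ σ ≤ 96 * cU d ^ 2 * (Lg d b / b) ^ 2 := by
  obtain ⟨hβ3, hβP⟩ := bP_spec (d := d) le_rfl hb
  have hb0 : 0 < b := by linarith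
  have hN1 : (1 : ℝ) ≤ N := by exact_mod_cast hN
  have hβ0 : 0 < β := by rw [hβ]; positivity
  have hL := Lg_one (e := d) hβ3
  have hP1 := cU_one (d := d)
  rw [show cP 1 d = cU d from rfl] at hβP
  have hev : ∀ K : ℕ, ∀ᶠ k in atTop, K < s k + 1 := fun K => by
    filter_upwards [hs.eventually_ge_atTop K] with k hk
    omega
  have w0 : ∀ T, w 0 T = 1 := fun T => by
    refine tendsto_nhds_unique (hw 0 T) ?_
    simp only [wR2_zero μ hN]
    exact tendsto_const_nhds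
  have w0' : ∀ R, w R 0 = 1 := fun R => by
    refine tendsto_nhds_unique (hw R 0) ?_
    have : ∀ k, wR2 μ L (s k + 1) β i j R 0 = 1 := fun k => by
      rw [wR2_swap, wR2_zero μ hN]
    simp only [this]
    exact tendsto_const_nhds
  have wle : ∀ R T, w R T ≤ 1 := fun R T =>
    le_of_tendsto' (hw R T) fun k => wR2_le μ hN _ _ _ _ _
  have wc : ∀ R T, w (R + 1) T ^ 2 ≤ w R T * w (R + 2) T := fun R T => by
    refine le_of_tendsto_of_tendsto ((hw (R + 1) T).pow 2) ((hw R T).mul (hw (R + 2) T)) ?_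
    filter_upwards [hev (R + 2)] with k hk
    exact wR2_cs μ (by omega) hij hβ0.le (by omega) T
  have wc' : ∀ R T, w R (T + 1) ^ 2 ≤ w R T * w R (T + 2) := fun R T => by
    refine le_of_tendsto_of_tendsto ((hw R (T + 1)).pow 2) ((hw R T).mul (hw R (T + 2))) ?_
    filter_upwards [hev (T + 2)] with k hk
    rw [wR2_swap μ β i j R (T + 1), wR2_swap μ β i j R T, wR2_swap μ β i j R (T + 2)]
    exact wR2_cs μ (by omega) hij.symm hβ0.le (by omega) R
  obtain ⟨ε, hε⟩ : ∃ ε : ℝ, ε = cU d * Lg d b / b := ⟨_, rfl⟩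
  have hε0 : 0 ≤ ε := by rw [hε]; positivity
  obtain ⟨y, hy⟩ : ∃ y : ℝ, y = b / (4 * cU d * Lg d b) := ⟨_, rfl⟩
  have hc0 : 0 < 4 * cU d * Lg d b := by positivity
  have hy1 : 1 ≤ y := by rw [hy, le_div_iff₀ hc0, one_mul]; exact hβP
  obtain ⟨r, hr⟩ : ∃ r : ℕ, r = ⌊y⌋₊ := ⟨_, rfl⟩
  have hry : (r : ℝ) ≤ y := by rw [hr]; exact Nat.floor_le (by linarith)
  have hyr : y < r + 1 := by rw [hr]; exact Nat.lt_floor_add_one _
  have hr1 : 1 ≤ r := by
    rw [hr]; exact Nat.le_floor (by simpa using hy1)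
  have hr1R : (1 : ℝ) ≤ r := by exact_mod_cast hr1
  have hr0 : (0 : ℝ) < r := by linarith
  have hεy : ε * y = 1 / 4 := by rw [hε, hy]; field_simp
  have hεr : ε * (2 * r) ≤ 1 / 2 := by nlinarith
  have hlow : ∀ R T, R ≤ r → T ≤ r → 1 - ε * (R + T) ≤ w R T := by
    intro R T hR hT
    refine ge_of_tendsto (hw R T) ?_
    filter_upwards [hev (R + T + 1)] with k hk
    rw [hε]
    exact periU μ (by omega) hN hd hβ3 hβ hij (by omega) (by omega)
  obtain ⟨h1, P, σ, h2, h3, h4, h5, h6⟩ :=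
    double_le w0 w0' wle wc wc' hε0 hr1 hεr hlow
  -- the bound for `ε / r`
  have hεr2 : ε / r ≤ 8 * cU d ^ 2 * (Lg d b / b) ^ 2 := by
    rw [div_le_iff₀ hr0]
    have e1 : y ≤ 2 * r := by linarith
    have e2 : ε = 8 * cU d ^ 2 * (Lg d b / b) ^ 2 * (y / 2) := by
      rw [hε, hy]; field_simp; ring
    rw [e2]
    exact mul_le_mul_of_nonneg_left (by linarith) (by positivity)
  have hε2 : ε ≤ cU d ^ 2 * (Lg d b / b) := by
    have e1 : ε = cU d * (Lg d b / b) := by rw [hε]; ring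
    rw [e1]
    exact mul_le_mul_of_nonneg_right (by nlinarith) (by positivity)
  have hx0 : 0 ≤ cU d ^ 2 * (Lg d b / b) := by positivity
  refine ⟨fun R T => le_trans (Real.exp_le_exp.2 ?_) (h1 R T), P, σ, h2, h3, fun R => ?_, h5, ?_⟩
  · have hR0 : (0 : ℝ) ≤ R := Nat.cast_nonneg _
    have hT0 : (0 : ℝ) ≤ T := Nat.cast_nonneg _
    have e1 := mul_le_mul_of_nonneg_right hε2 (by positivity : (0 : ℝ) ≤ 4 * (R + T))
    have e2 := mul_le_mul_of_nonneg_right hεr2 (by positivity : (0 : ℝ) ≤ 4 * (R * T))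
    have e3 : 4 * ε / r * (R * T) = ε / r * (4 * (R * T)) := by ring
    have e4 : 0 ≤ cU d ^ 2 * (Lg d b / b) * (R + T) := by positivity
    have e5 : 0 ≤ cU d ^ 2 * (Lg d b / b) ^ 2 * (R * T) := by positivity
    rw [e3]
    nlinarith
  · have hR0 : (0 : ℝ) ≤ R := Nat.cast_nonneg _
    have e0 := h4 R
    have e2 := mul_le_mul_of_nonneg_right hεr2 (by positivity : (0 : ℝ) ≤ 4 * (R : ℝ))
    have e3 : 4 * ε / r * R = ε / r * (4 * R) := by ring
    have e5 : 0 ≤ cU d ^ 2 * (Lg d b / b) ^ 2 * R := by positivity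
    rw [e3] at e0
    nlinarith
  · have e3 : 12 * ε / r = 12 * (ε / r) := by ring
    rw [e3] at h6
    linarith

end

end Pool.Agent.V11260
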