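import Mathlib

/-!
Windows in boxes: if at the scale `Y n` at most `C (∏ Y n ^ d j) / (log (Y n)) ^ U` of the integral points are bad, for every
`U`, then for almost all `α` there are no bad points at distance at most `(log (Y n)) ^ A` from `(α j (Y n) ^ d j)`.
-/

set_option autoImplicit false

namespace Pool.Agent.V11260.BW

open Finset Filter Topology MeasureTheory

/-- `Y n` grows at least like `exp (n ^ δ)` for some `δ > 0` -/
def Fast (Y : ℕ → ℕ) : Prop := ∃ δ : ℝ, 0 < δ ∧ ∀ᶠ n : ℕ in atTop, (n : ℝ) ^ δ ≤ Real.log (Y n)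

lemma Fast.log_tendsto {Y : ℕ → ℕ} (h : Fast Y) : Tendsto (fun n => Real.log (Y n)) atTop atTop := by
  obtain ⟨δ, hδ, h1⟩ := h
  exact tendsto_atTop_mono' atTop h1 ((tendsto_rpow_atTop hδ).comp tendsto_natCast_atTop_atTop)

lemma Fast.tendsto {Y : ℕ → ℕ} (h : Fast Y) : Tendsto Y atTop atTop := by
  have h1 : Tendsto (fun n => ((Y n : ℕ) : ℝ)) atTop atTop := by
    refine tendsto_atTop_mono (fun n => ?_) h.log_tendsto
    rcases Nat.eq_zero_or_pos (Y n) with h0 | h0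
    · rw [h0]
      simp
    · exact (Real.log_le_sub_one_of_pos (by exact_mod_cast h0)).trans (by linarith)
  exact tendsto_natCast_atTop_iff.1 h1

theorem fast_pow (b : ℕ) (hb : 2 ≤ b) : Fast (fun n => b ^ n) := by
  have hb0 : (0 : ℝ) < Real.log b := Real.log_pos (by exact_mod_cast hb)
  refine ⟨1 / 2, by norm_num, ?_⟩
  filter_upwards [tendsto_natCast_atTop_atTop.eventually_ge_atTop ((1 / Real.log b) ^ 2), eventually_gt_atTop 0] with n hn hn0
  have hn0' : (0 : ℝ) < n := by exact_mod_cast hn0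
  push_cast
  rw [Real.log_pow, ← Real.sqrt_eq_rpow]
  have h1 : 1 / Real.log b ≤ Real.sqrt n := Real.le_sqrt_of_sq_le hn
  have h2 : 1 ≤ Real.sqrt n * Real.log b := by
    rw [div_le_iff₀ hb0] at h1
    exact h1
  calc Real.sqrt n = Real.sqrt n * 1 := (mul_one _).symm
    _ ≤ Real.sqrt n * (Real.sqrt n * Real.log b) := mul_le_mul_of_nonneg_left h2 (Real.sqrt_nonneg _)
    _ = (Real.sqrt n * Real.sqrt n) * Real.log b := by ring
    _ = n * Real.log b := by rw [Real.mul_self_sqrt hn0'.le]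

lemma vol_bad {s : ℕ} (d : Fin s → ℕ) {Y : ℕ} (hY : 1 ≤ Y) {L : ℝ} (hL : 0 ≤ L) (Bad : Finset (Fin s → ℤ)) :
    volume {α : Fin s → ℝ | ∃ k ∈ Bad, ∀ j, |(k j : ℝ) - α j * (Y : ℝ) ^ d j| ≤ L} ≤
      ENNReal.ofReal (#Bad * ((2 * L) ^ s / ∏ j, (Y : ℝ) ^ d j)) := by
  have hY0 : (0 : ℝ) < Y := by exact_mod_cast hY
  have hsub : {α : Fin s → ℝ | ∃ k ∈ Bad, ∀ j, |(k j : ℝ) - α j * (Y : ℝ) ^ d j| ≤ L} ⊆
      ⋃ k ∈ Bad, Set.Icc (fun j => ((k j : ℝ) - L) / (Y : ℝ) ^ d j) (fun j => ((k j : ℝ) + L) / (Y : ℝ) ^ d j) := by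
    rintro α ⟨k, hk, h⟩
    refine Set.mem_biUnion hk ⟨fun j => ?_, fun j => ?_⟩
    · have h1 := (abs_le.1 (h j)).2
      rw [div_le_iff₀ (by positivity)]
      linarith
    · have h1 := (abs_le.1 (h j)).1
      rw [le_div_iff₀ (by positivity)]
      linarith
  refine (measure_mono hsub).trans ((measure_biUnion_finset_le _ _).trans (le_of_eq ?_))
  have h1 : ∀ k ∈ Bad, volume (Set.Icc (fun j => ((k j : ℝ) - L) / (Y : ℝ) ^ d j) (fun j => ((k j : ℝ) + L) / (Y : ℝ) ^ d j)) =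
      ENNReal.ofReal ((2 * L) ^ s / ∏ j, (Y : ℝ) ^ d j) := by
    intro k _
    rw [Real.volume_Icc_pi]
    have e : ∀ j, ENNReal.ofReal (((k j : ℝ) + L) / (Y : ℝ) ^ d j - ((k j : ℝ) - L) / (Y : ℝ) ^ d j) =
        ENNReal.ofReal (2 * L / (Y : ℝ) ^ d j) := by
      intro j
      congr 1
      ring
    rw [prod_congr rfl (fun j _ => e j), ← ENNReal.ofReal_prod_of_nonneg (fun j _ => by positivity), prod_div_distrib,
      prod_const, card_univ, Fintype.card_fin]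
  rw [sum_congr rfl h1, sum_const, nsmul_eq_mul, ENNReal.ofReal_mul (by positivity), ENNReal.ofReal_natCast]

theorem ae_boxes {s : ℕ} (d : Fin s → ℕ) {Y : ℕ → ℕ} (hY : Fast Y) (A : ℕ) (Bad : ℕ → ℕ → Finset (Fin s → ℤ))
    (hB : ∀ U : ℕ, ∃ (C : ℝ) (n₀ : ℕ), ∀ n, n₀ ≤ n →
      (#(Bad U n) : ℝ) ≤ C * ((∏ j, (Y n : ℝ) ^ d j) / Real.log (Y n) ^ U)) :
    ∃ U : ℕ, ∀ᵐ α : Fin s → ℝ, ∃ n₁ : ℕ, ∀ n, n₁ ≤ n → ∀ k ∈ Bad U n,
      ¬ ∀ j, |(k j : ℝ) - α j * (Y n : ℝ) ^ d j| ≤ Real.log (Y n) ^ A := by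
  classical
  obtain ⟨δ, hδ, hδY⟩ := id hY
  obtain ⟨P, hP⟩ := exists_nat_gt (1 / δ)
  have hPδ : 1 < δ * P := by
    rw [div_lt_iff₀ hδ] at hP
    linarith
  refine ⟨s * A + P, ?_⟩
  obtain ⟨C, n₀, hC⟩ := hB (s * A + P)
  obtain ⟨n₁, hn₁⟩ := Filter.eventually_atTop.1 (hδY.and ((hY.log_tendsto.eventually_ge_atTop 1).and
    ((hY.tendsto.eventually_ge_atTop 1).and (eventually_gt_atTop 0))))
  set n₂ := max n₀ n₁ with hn₂
  set S : ℕ → Set (Fin s → ℝ) := fun n => if n₂ ≤ n then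
    {α : Fin s → ℝ | ∃ k ∈ Bad (s * A + P) n, ∀ j, |(k j : ℝ) - α j * (Y n : ℝ) ^ d j| ≤ Real.log (Y n) ^ A} else ∅ with hS
  have hvol : ∀ n, volume (S n) ≤ ENNReal.ofReal (|C| * 2 ^ s * (n : ℝ) ^ (-(δ * P))) := by
    intro n
    simp only [hS]
    split_ifs with h
    · obtain ⟨g1, g2, g3, g4⟩ := hn₁ n ((le_max_right _ _).trans h)
      have hl0 : 0 < Real.log (Y n) := lt_of_lt_of_le one_pos g2
      have hY0 : (0 : ℝ) < Y n := by exact_mod_cast g3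
      have hn0 : (0 : ℝ) < n := by exact_mod_cast g4
      refine (vol_bad d g3 (by positivity) _).trans (ENNReal.ofReal_le_ofReal ?_)
      have h1 := hC n ((le_max_left _ _).trans h)
      have hprod : (0 : ℝ) < ∏ j, (Y n : ℝ) ^ d j := prod_pos fun j _ => by positivity
      have h2 : (#(Bad (s * A + P) n) : ℝ) ≤ |C| * ((∏ j, (Y n : ℝ) ^ d j) / Real.log (Y n) ^ (s * A + P)) :=
        h1.trans (mul_le_mul_of_nonneg_right (le_abs_self C) (by positivity))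
      calc (#(Bad (s * A + P) n) : ℝ) * ((2 * Real.log (Y n) ^ A) ^ s / ∏ j, (Y n : ℝ) ^ d j) ≤
            (|C| * ((∏ j, (Y n : ℝ) ^ d j) / Real.log (Y n) ^ (s * A + P))) *
              ((2 * Real.log (Y n) ^ A) ^ s / ∏ j, (Y n : ℝ) ^ d j) := mul_le_mul_of_nonneg_right h2 (by positivity)
        _ = |C| * 2 ^ s * (Real.log (Y n) ^ P)⁻¹ := by
            rw [mul_pow, ← pow_mul, mul_comm A s, pow_add]
            field_simp
        _ ≤ |C| * 2 ^ s * (n : ℝ) ^ (-(δ * P)) := by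
            apply mul_le_mul_of_nonneg_left _ (by positivity)
            rw [Real.rpow_neg hn0.le, Real.rpow_mul hn0.le, Real.rpow_natCast]
            exact inv_anti₀ (by positivity) (pow_le_pow_left₀ (by positivity) g1 P)
    · simp
  have hsum : Summable (fun n : ℕ => |C| * 2 ^ s * (n : ℝ) ^ (-(δ * P))) :=
    (Real.summable_nat_rpow.2 (by linarith)).mul_left _
  have hfin : ∑' n, volume (S n) ≠ ⊤ := by
    refine ne_top_of_le_ne_top ?_ (ENNReal.tsum_le_tsum hvol)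
    exact hsum.tsum_ofReal_ne_top
  filter_upwards [ae_eventually_notMem hfin] with α hα
  obtain ⟨n₃, hn₃⟩ := Filter.eventually_atTop.1 hα
  refine ⟨max n₂ n₃, fun n hn k hk hall => ?_⟩
  have h1 := hn₃ n ((le_max_right _ _).trans hn)
  simp only [hS] at h1
  rw [if_pos ((le_max_left _ _).trans hn)] at h1
  exact h1 ⟨k, hk, hall⟩

end Pool.Agent.V11260.BW
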