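import Pool.Agent.V11312.PW.DigitsVec
import Pool.Agent.V11260.BW

/-!
Random residue classes and boxes with sides of different lengths: if at the scale `Y n` at most
`C (∏ Y n ^ d j) / (log (Y n)) ^ U` of the integral points are bad, for every `U`, then for almost all sequences of digits no bad
point is in the residue class of the random vector modulo `m_(L n j)`, where `m_(L n j) (log (Y n)) ^ A ≥ Y n ^ d j`.
-/

set_option autoImplicit false

namespace Pool.Agent.V11260.PC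

open Finset Filter Topology MeasureTheory
open Pool.Agent.V11312.PD (law modulus value prob_class modulus_pos)
open Pool.Agent.V11260.BW (Fast)

lemma prob_levels (g : ℕ → ℕ) {s : ℕ} (L : Fin s → ℕ) (k : Fin s → ℤ) :
    (Measure.pi fun _ : Fin s => law g) {ω | ∀ j, (value g (ω j) (L j) : ℤ) ≡ k j [ZMOD (modulus g (L j) : ℤ)]} ≤
      ENNReal.ofReal (∏ j, (1 / (modulus g (L j) : ℝ))) := by
  have h : {ω : Fin s → (∀ i, Fin (g i + 2)) | ∀ j, (value g (ω j) (L j) : ℤ) ≡ k j [ZMOD (modulus g (L j) : ℤ)]} =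
      Set.pi Set.univ (fun j => {w : (∀ i, Fin (g i + 2)) | (value g w (L j) : ℤ) ≡ k j [ZMOD (modulus g (L j) : ℤ)]}) := by
    ext ω
    simp
  rw [h, Measure.pi_pi]
  calc ∏ j, law g {w : (∀ i, Fin (g i + 2)) | (value g w (L j) : ℤ) ≡ k j [ZMOD (modulus g (L j) : ℤ)]}
      ≤ ∏ j, ENNReal.ofReal (1 / (modulus g (L j) : ℝ)) := prod_le_prod' fun j _ => prob_class g (L j) (k j)
    _ = ENNReal.ofReal (∏ j, (1 / (modulus g (L j) : ℝ))) := by
      rw [ENNReal.ofReal_prod_of_nonneg (fun j _ => by positivity)]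

theorem ae_cls {s : ℕ} (g : ℕ → ℕ) (d : Fin s → ℕ) {Y : ℕ → ℕ} (hY : Fast Y) (A : ℕ) (L : ℕ → Fin s → ℕ)
    (hL : ∀ᶠ n : ℕ in atTop, ∀ j, (Y n : ℝ) ^ d j ≤ (modulus g (L n j) : ℝ) * Real.log (Y n) ^ A) (Bad : ℕ → ℕ → Finset (Fin s → ℤ))
    (hB : ∀ U : ℕ, ∃ (C : ℝ) (n₀ : ℕ), ∀ n, n₀ ≤ n →
      (#(Bad U n) : ℝ) ≤ C * ((∏ j, (Y n : ℝ) ^ d j) / Real.log (Y n) ^ U)) :
    ∃ U : ℕ, ∀ᵐ ω ∂(Measure.pi fun _ : Fin s => law g), ∃ n₁ : ℕ, ∀ n, n₁ ≤ n → ∀ k ∈ Bad U n,
      ¬ ∀ j, (value g (ω j) (L n j) : ℤ) ≡ k j [ZMOD (modulus g (L n j) : ℤ)] := by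
  classical
  obtain ⟨δ, hδ, hδY⟩ := id hY
  obtain ⟨P, hP⟩ := exists_nat_gt (1 / δ)
  have hPδ : 1 < δ * P := by
    rw [div_lt_iff₀ hδ] at hP
    linarith
  refine ⟨s * A + P, ?_⟩
  obtain ⟨C, n₀, hC⟩ := hB (s * A + P)
  obtain ⟨n₁, hn₁⟩ := Filter.eventually_atTop.1 (hδY.and ((hY.log_tendsto.eventually_ge_atTop 1).and
    ((hY.tendsto.eventually_ge_atTop 1).and ((eventually_gt_atTop 0).and hL))))
  set n₂ := max n₀ n₁ with hn₂
  set S : ℕ → Set (Fin s → (∀ i, Fin (g i + 2))) := fun n => if n₂ ≤ n then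
    {ω | ∃ k ∈ Bad (s * A + P) n, ∀ j, (value g (ω j) (L n j) : ℤ) ≡ k j [ZMOD (modulus g (L n j) : ℤ)]} else ∅ with hS
  have hvol : ∀ n, (Measure.pi fun _ : Fin s => law g) (S n) ≤ ENNReal.ofReal (|C| * (n : ℝ) ^ (-(δ * P))) := by
    intro n
    simp only [hS]
    split_ifs with h
    · obtain ⟨g1, g2, g3, g4, g5⟩ := hn₁ n ((le_max_right _ _).trans h)
      have hl0 : 0 < Real.log (Y n) := lt_of_lt_of_le one_pos g2
      have hY0 : (0 : ℝ) < Y n := by exact_mod_cast g3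
      have hn0 : (0 : ℝ) < n := by exact_mod_cast g4
      have hsub : {ω : Fin s → (∀ i, Fin (g i + 2)) | ∃ k ∈ Bad (s * A + P) n,
          ∀ j, (value g (ω j) (L n j) : ℤ) ≡ k j [ZMOD (modulus g (L n j) : ℤ)]} ⊆
          ⋃ k ∈ Bad (s * A + P) n, {ω | ∀ j, (value g (ω j) (L n j) : ℤ) ≡ k j [ZMOD (modulus g (L n j) : ℤ)]} := by
        rintro ω ⟨k, hk, h⟩
        exact Set.mem_biUnion hk h
      have h2 : (Measure.pi fun _ : Fin s => law g) (⋃ k ∈ Bad (s * A + P) n,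
          {ω : Fin s → (∀ i, Fin (g i + 2)) | ∀ j, (value g (ω j) (L n j) : ℤ) ≡ k j [ZMOD (modulus g (L n j) : ℤ)]}) ≤
          ENNReal.ofReal (#(Bad (s * A + P) n) * ∏ j, (1 / (modulus g (L n j) : ℝ))) := by
        refine (measure_biUnion_finset_le _ _).trans ?_
        refine (sum_le_sum fun k _ => prob_levels g (L n) k).trans (le_of_eq ?_)
        rw [sum_const, nsmul_eq_mul, ENNReal.ofReal_mul (by positivity), ENNReal.ofReal_natCast]
      refine (measure_mono hsub).trans (h2.trans (ENNReal.ofReal_le_ofReal ?_))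
      have h1 := hC n ((le_max_left _ _).trans h)
      have hprod : (0 : ℝ) < ∏ j, (Y n : ℝ) ^ d j := prod_pos fun j _ => by positivity
      have h3 : ∏ j, (1 / (modulus g (L n j) : ℝ)) ≤ ∏ j, (Real.log (Y n) ^ A / (Y n : ℝ) ^ d j) := by
        apply Finset.prod_le_prod
        · intro j _
          positivity
        · intro j _
          have hm : (0 : ℝ) < modulus g (L n j) := by exact_mod_cast modulus_pos g (L n j)
          rw [div_le_div_iff₀ hm (by positivity), one_mul, mul_comm]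
          exact g5 j
      have h4 : (#(Bad (s * A + P) n) : ℝ) ≤ |C| * ((∏ j, (Y n : ℝ) ^ d j) / Real.log (Y n) ^ (s * A + P)) :=
        h1.trans (mul_le_mul_of_nonneg_right (le_abs_self C) (by positivity))
      calc (#(Bad (s * A + P) n) : ℝ) * ∏ j, (1 / (modulus g (L n j) : ℝ)) ≤
            (|C| * ((∏ j, (Y n : ℝ) ^ d j) / Real.log (Y n) ^ (s * A + P))) *
              ∏ j, (Real.log (Y n) ^ A / (Y n : ℝ) ^ d j) :=
            mul_le_mul h4 h3 (prod_nonneg fun j _ => by positivity) (by positivity)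
        _ = |C| * (Real.log (Y n) ^ P)⁻¹ := by
            rw [prod_div_distrib, prod_const, card_univ, Fintype.card_fin, ← pow_mul, mul_comm A s, pow_add]
            field_simp
        _ ≤ |C| * (n : ℝ) ^ (-(δ * P)) := by
            apply mul_le_mul_of_nonneg_left _ (by positivity)
            rw [Real.rpow_neg hn0.le, Real.rpow_mul hn0.le, Real.rpow_natCast]
            exact inv_anti₀ (by positivity) (pow_le_pow_left₀ (by positivity) g1 P)
    · simp
  have hsum : Summable (fun n : ℕ => |C| * (n : ℝ) ^ (-(δ * P))) :=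
    (Real.summable_nat_rpow.2 (by linarith)).mul_left _
  have hfin : ∑' n, (Measure.pi fun _ : Fin s => law g) (S n) ≠ ⊤ := by
    refine ne_top_of_le_ne_top ?_ (ENNReal.tsum_le_tsum hvol)
    exact hsum.tsum_ofReal_ne_top
  filter_upwards [ae_eventually_notMem hfin] with ω hω
  obtain ⟨n₃, hn₃⟩ := Filter.eventually_atTop.1 hω
  refine ⟨max n₂ n₃, fun n hn k hk hall => ?_⟩
  have h1 := hn₃ n ((le_max_right _ _).trans hn)
  simp only [hS] at h1
  rw [if_pos ((le_max_left _ _).trans hn)] at h1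
  exact h1 ⟨k, hk, hall⟩

end Pool.Agent.V11260.PC
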