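import Pool.Agent.V11290.FD.Lev
import Pool.Agent.TH872.GQ.Dual

/-! Divisor-bounded weights and heights which depend on the modulus, for the residues near `t α + s`. -/

set_option autoImplicit false

namespace Pool.Agent.V11260.FW
open MeasureTheory Finset
open Pool.Agent.TH212.EH (W WW)
open Pool.Agent.V11290.FD (RR pp wsum lev_fin union_prob pp_nonneg bc_shift)

lemma large (ε : ℝ) (hε : 0 < ε) (m : ℕ) : ∃ t₀ : ℝ, ∀ t : ℝ, t₀ ≤ t → (2 * Real.log t) ^ m ≤ t ^ ε := by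
  have h1 := (isLittleO_log_rpow_atTop (r := ε / (m + 1)) (by positivity)).def (c := 1 / 2) (by norm_num)
  obtain ⟨t₀, h2⟩ := Filter.eventually_atTop.1 h1
  refine ⟨max t₀ 1, fun t ht => ?_⟩
  have h3 := h2 t ((le_max_left _ _).trans ht)
  have ht1 : 1 ≤ t := (le_max_right _ _).trans ht
  have hl := Real.log_nonneg ht1
  rw [Real.norm_eq_abs, Real.norm_eq_abs, abs_of_nonneg hl, abs_of_nonneg (by positivity)] at h3
  have h4 : 2 * Real.log t ≤ t ^ (ε / (m + 1)) := by linarith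
  calc (2 * Real.log t) ^ m ≤ (t ^ (ε / (m + 1))) ^ m := pow_le_pow_left₀ (by positivity) h4 m
    _ = t ^ (ε / (m + 1) * m) := by rw [← Real.rpow_natCast, ← Real.rpow_mul (by positivity)]
    _ ≤ t ^ ε := by
      apply Real.rpow_le_rpow_of_exponent_le ht1
      rw [div_mul_eq_mul_div, div_le_iff₀ (by positivity)]
      nlinarith

theorem lev_heavy (B C σ : ℝ) (hB : 0 < B) (hσ : 0 < σ) (T U U' A : ℕ) (ε : ℝ) (hε : 0 < ε) :
    ∃ t₀ : ℝ, ∀ (μ : Measure ℝ) [IsProbabilityMeasure μ], (∀ ξ : ℝ, 1 ≤ |ξ| → ‖charFun μ ξ‖ ≤ C * |ξ| ^ (-σ)) →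
    (∀ᵐ α ∂μ, |α| ≤ B) → ∀ t S : ℝ, t₀ ≤ t → |S| ≤ B * t →
    ∀ c : ℤ, |(c : ℝ) - S| ≤ Real.log t ^ A + 2 → ∀ L : ℕ, (L : ℝ) ≤ Real.log t ^ T →
    ∀ lam : ℕ → ℕ → ℝ, (∀ l < L, ∀ q : ℕ, |lam l q| ≤ Real.log t ^ T * (q.divisors.card : ℝ) ^ T) →
    ∀ y : ℕ → ℕ → ℕ, (∀ l < L, ∀ q : ℕ, (y l q : ℝ) ≤ B * t) →
    ∀ Bad : ℤ → Prop, [DecidablePred Bad] →
    (∀ h : ℤ, Bad h → ∃ l < L, 0 < h ∧ ((∃ x : ℕ, (x : ℝ) ≤ B * t ∧
      t / Real.log t ^ U < |W (lam l) ⌊t ^ (1 - ε)⌋₊ x h.toNat|) ∨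
      t / Real.log t ^ U < |WW (lam l) (y l) ⌊t ^ (1 - ε)⌋₊ h.toNat|)) →
    ∑ z ∈ Finset.Icc (-(RR B t)) (RR B t), (if Bad (c + z) then pp μ t z else 0) ≤ 1 / Real.log t ^ U' := by
  classical
  obtain ⟨V, hV⟩ : ∃ V, V = U + U' + T + 1 := ⟨_, rfl⟩
  obtain ⟨T₁, U₁, m, k₀, hA⟩ := Pool.Agent.TH872.GQ.heavy T V
  obtain ⟨t₁, h1⟩ := lev_fin B C σ hB hσ (T₁ + 1) (U₁ + 1) (U₁ + 1) A ε hε
  obtain ⟨t₂, h2⟩ := large ε hε m
  obtain ⟨Λ, hΛ⟩ : ∃ Λ : ℝ, Λ = 2 ^ T₁ + 2 ^ U₁ + k₀ + B + 4 + Real.log (B + 2) := ⟨_, rfl⟩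
  have hlB : 0 ≤ Real.log (B + 2) := Real.log_nonneg (by linarith)
  have hp1 : (0 : ℝ) < 2 ^ T₁ := by positivity
  have hp2 : (0 : ℝ) < 2 ^ U₁ := by positivity
  have hk0' : (0 : ℝ) ≤ k₀ := Nat.cast_nonneg _
  refine ⟨max (max t₁ t₂) (Real.exp Λ), fun μ _ hdec hsup t S ht hS c hc L hL lam hlam y hy Bad _ hBad => ?_⟩
  have ht1 : t₁ ≤ t := ((le_max_left _ _).trans (le_max_left _ _)).trans ht
  have ht2 : t₂ ≤ t := ((le_max_right _ _).trans (le_max_left _ _)).trans ht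
  have ht3 : Real.exp Λ ≤ t := (le_max_right _ _).trans ht
  have ht0 : 0 < t := (Real.exp_pos _).trans_le ht3
  obtain ⟨ℓ, hℓ⟩ : ∃ ℓ : ℝ, ℓ = Real.log t := ⟨_, rfl⟩
  have hℓΛ : Λ ≤ ℓ := by rw [hℓ, Real.le_log_iff_exp_le ht0]; exact ht3
  have hℓ4 : 4 ≤ ℓ := by linarith
  have hℓB : B + 2 ≤ ℓ := by linarith
  have hℓT : (2 : ℝ) ^ T₁ ≤ ℓ := by linarith
  have hℓU : (2 : ℝ) ^ U₁ ≤ ℓ := by linarith
  have hℓ0 : 0 < ℓ := by linarith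
  have hte : Real.exp 1 ≤ t := (Real.exp_le_exp.2 (by linarith)).trans ht3
  have ht11 : 1 < t := lt_of_lt_of_le (by linarith [Real.exp_one_gt_d9]) hte
  rw [← hℓ] at hc hL hlam hBad ⊢
  obtain ⟨k, hk⟩ : ∃ k : ℕ, k = ⌈ℓ⌉₊ := ⟨_, rfl⟩
  have hk1 : ℓ ≤ k := by rw [hk]; exact Nat.le_ceil _
  have hk2 : (k : ℝ) ≤ 2 * ℓ := by
    have := (Nat.ceil_lt_add_one hℓ0.le).le
    rw [hk]
    linarith
  have hk0 : (0 : ℝ) < k := by linarith
  have hkk : k₀ ≤ k := by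
    have : (k₀ : ℝ) ≤ k := by linarith
    exact_mod_cast this
  obtain ⟨X, hX⟩ : ∃ X : ℕ, X = ⌈(B + 1) * t⌉₊ := ⟨_, rfl⟩
  obtain ⟨X', hX'⟩ : ∃ X' : ℕ, X' = ⌊B * t⌋₊ := ⟨_, rfl⟩
  have hX1 : (B + 1) * t ≤ X := by rw [hX]; exact Nat.le_ceil _
  have hX2 : (X : ℝ) ≤ (B + 2) * t := by
    have := (Nat.ceil_lt_add_one (by positivity : 0 ≤ (B + 1) * t)).le
    rw [hX]
    linarith
  have hX'1 : (X' : ℝ) ≤ B * t := by rw [hX']; exact Nat.floor_le (by positivity)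
  have hXX : X' ≤ X := by
    have : (X' : ℝ) ≤ X := by nlinarith
    exact_mod_cast this
  have hxX' : ∀ x : ℕ, (x : ℝ) ≤ B * t → x ≤ X' := fun x hx => by rw [hX']; exact Nat.le_floor hx
  have htX : t ≤ X := by nlinarith
  have hX0 : (0 : ℝ) < X := by linarith
  have hL1 : 1 ≤ Real.log X := by
    rw [Real.le_log_iff_exp_le hX0]
    exact hte.trans htX
  have hL2 : Real.log X ≤ (k : ℝ) ^ 2 := by
    have h3 := Real.log_le_log hX0 hX2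
    rw [Real.log_mul (by linarith) ht0.ne', ← hℓ] at h3
    have h4 : ℓ ^ 2 ≤ (k : ℝ) ^ 2 := pow_le_pow_left₀ hℓ0.le hk1 2
    nlinarith
  have hQ0 : ((⌊t ^ (1 - ε)⌋₊ : ℕ) : ℝ) ≤ t ^ (1 - ε) := Nat.floor_le (by positivity)
  have hQ : ((⌊t ^ (1 - ε)⌋₊ : ℕ) : ℝ) * (k : ℝ) ^ m ≤ X := by
    have h3 := h2 t ht2
    rw [← hℓ] at h3
    calc ((⌊t ^ (1 - ε)⌋₊ : ℕ) : ℝ) * (k : ℝ) ^ m ≤ t ^ (1 - ε) * t ^ ε :=
          mul_le_mul hQ0 ((pow_le_pow_left₀ hk0.le hk2 m).trans h3) (by positivity) (by positivity)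
      _ = t := by rw [← Real.rpow_add ht0]; simp
      _ ≤ X := htX
  obtain ⟨Ω, hΩ⟩ : ∃ Ω : Finset ℤ, Ω = (Finset.Icc (-(RR B t)) (RR B t)).filter (fun z => 0 < c + z) := ⟨_, rfl⟩
  -- bounded weights
  have hyp : Pool.Agent.TH872.GQ.Hyp k X X' ⌊t ^ (1 - ε)⌋₊ T₁ U₁ Ω (pp μ t) (fun z => (c + z).toNat) := by
    intro lm hlm E hdE hE
    have h3 := h1 μ hdec hsup t S ht1 hS c (by rw [← hℓ]; exact hc) 1 (by
        rw [← hℓ, Nat.cast_one]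
        exact one_le_pow₀ (by linarith)) (fun _ => lm) (by
        intro _ _ q
        rw [← hℓ]
        refine (hlm q).trans ((pow_le_pow_left₀ hk0.le hk2 T₁).trans ?_)
        rw [mul_pow, pow_succ, mul_comm]
        exact mul_le_mul_of_nonneg_left hℓT (by positivity))
      (fun h : ℤ => 0 < h ∧ h - c ∈ Ω ∧ E (h - c)) (by
        rintro h ⟨hh0, hh1, hh2⟩
        refine ⟨0, one_pos, hh0, ?_⟩
        obtain ⟨x, hx, hlt⟩ := hE _ hh1 hh2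
        refine ⟨x, le_trans (by exact_mod_cast hx) hX'1, ?_⟩
        have e1 : c + (h - c) = h := by ring
        simp only [e1] at hlt
        refine lt_of_le_of_lt ?_ hlt
        rw [← hℓ]
        have h4 : (k : ℝ) ^ U₁ ≤ ℓ ^ (U₁ + 1) := by
          refine (pow_le_pow_left₀ hk0.le hk2 U₁).trans ?_
          rw [mul_pow, pow_succ, mul_comm]
          exact mul_le_mul_of_nonneg_left hℓU (by positivity)
        exact div_le_div₀ hX0.le htX (by positivity) h4)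
    rw [← hℓ] at h3
    have h5 : ∑ ω ∈ Ω, (if E ω then pp μ t ω else 0) ≤
        ∑ z ∈ Finset.Icc (-(RR B t)) (RR B t), (if 0 < c + z ∧ c + z - c ∈ Ω ∧ E (c + z - c) then pp μ t z else 0) := by
      rw [hΩ, sum_filter]
      apply sum_le_sum
      intro z hz
      have e1 : c + z - c = z := by ring
      rw [e1]
      by_cases h6 : 0 < c + z
      · by_cases h7 : E z
        · rw [if_pos h6, if_pos h7, if_pos]
          exact ⟨h6, mem_filter.2 ⟨hz, h6⟩, h7⟩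
        · rw [if_pos h6, if_neg h7]
          split_ifs
          · exact pp_nonneg μ t z
          · exact le_rfl
      · rw [if_neg h6]
        split_ifs
        · exact pp_nonneg μ t z
        · exact le_rfl
    refine h5.trans (h3.trans ?_)
    apply one_div_le_one_div_of_le (by positivity)
    refine (pow_le_pow_left₀ hk0.le hk2 U₁).trans ?_
    rw [mul_pow, pow_succ, mul_comm]
    exact mul_le_mul_of_nonneg_left hℓU (by positivity)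
  have hheavy := hA k hkk X X' ⌊t ^ (1 - ε)⌋₊ hXX hL1 hL2 hQ ℤ Ω (pp μ t) (fun z _ => pp_nonneg μ t z)
    (fun z => (c + z).toNat) hyp
  have hthr : (X : ℝ) / (k : ℝ) ^ V ≤ t / ℓ ^ U := by
    rw [div_le_div_iff₀ (by positivity) (by positivity)]
    have h3 : ℓ ^ V ≤ (k : ℝ) ^ V := pow_le_pow_left₀ hℓ0.le hk1 V
    have h4 : (B + 2) * ℓ ^ U ≤ ℓ ^ V := by
      have h5 : ℓ ^ V = ℓ ^ (U' + T) * ℓ * ℓ ^ U := by rw [hV]; ring
      rw [h5]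
      apply mul_le_mul_of_nonneg_right _ (by positivity)
      have h6 : (1 : ℝ) ≤ ℓ ^ (U' + T) := one_le_pow₀ (by linarith)
      nlinarith
    calc (X : ℝ) * ℓ ^ U ≤ ((B + 2) * t) * ℓ ^ U := mul_le_mul_of_nonneg_right hX2 (by positivity)
      _ = t * ((B + 2) * ℓ ^ U) := by ring
      _ ≤ t * (k : ℝ) ^ V := mul_le_mul_of_nonneg_left (h4.trans h3) ht0.le
  -- the events
  obtain ⟨F, hF⟩ : ∃ F : ℕ × Bool → ℤ → Prop, F = fun i z => z ∈ Ω ∧ if i.2 = true then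
      (∃ x ≤ X', (X : ℝ) / (k : ℝ) ^ V < |W (lam i.1) ⌊t ^ (1 - ε)⌋₊ x (c + z).toNat|) else
      (X : ℝ) / (k : ℝ) ^ V < |WW (lam i.1) (y i.1) ⌊t ^ (1 - ε)⌋₊ (c + z).toNat| := ⟨_, rfl⟩
  have hsub : ∀ i ∈ (range L) ×ˢ (Finset.univ : Finset Bool),
      ∑ z ∈ Finset.Icc (-(RR B t)) (RR B t), (if F i z then pp μ t z else 0) ≤ 1 / (k : ℝ) ^ V := by
    rintro ⟨l, b⟩ hi
    rw [mem_product, mem_range] at hi
    have hlb : ∀ q, |lam l q| ≤ (k : ℝ) ^ T * (q.divisors.card : ℝ) ^ T := fun q => (hlam l hi.1 q).trans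
      (mul_le_mul_of_nonneg_right (pow_le_pow_left₀ hℓ0.le hk1 T) (by positivity))
    obtain ⟨r1, r2⟩ := hheavy (lam l) hlb
    have hred : ∀ P : ℤ → Prop, (∀ z, F (l, b) z ↔ z ∈ Ω ∧ P z) →
        ∑ z ∈ Finset.Icc (-(RR B t)) (RR B t), (if F (l, b) z then pp μ t z else 0) =
        ∑ z ∈ Ω, (if P z then pp μ t z else 0) := by
      intro P hP
      rw [hΩ, sum_filter]
      apply sum_congr rfl
      intro z hz
      by_cases h6 : 0 < c + z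
      · rw [if_pos h6]
        have h7 : F (l, b) z ↔ P z := by
          rw [hP, hΩ, mem_filter]
          exact ⟨fun h => h.2, fun h => ⟨⟨hz, h6⟩, h⟩⟩
        by_cases h8 : P z
        · rw [if_pos h8, if_pos (h7.2 h8)]
        · rw [if_neg h8, if_neg (fun h => h8 (h7.1 h))]
      · rw [if_neg h6, if_neg]
        intro h
        rw [hP, hΩ, mem_filter] at h
        exact h6 h.1.2
    cases b with
    | true =>
      rw [hred (fun z => ∃ x ≤ X', (X : ℝ) / (k : ℝ) ^ V < |W (lam l) ⌊t ^ (1 - ε)⌋₊ x (c + z).toNat|) (by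
        intro z; rw [hF]; simp)]
      exact r1 _ _ (fun z _ h => h)
    | false =>
      rw [hred (fun z => (X : ℝ) / (k : ℝ) ^ V < |WW (lam l) (y l) ⌊t ^ (1 - ε)⌋₊ (c + z).toNat|) (by
        intro z; rw [hF]; simp)]
      exact r2 (y l) (fun q => hxX' _ (hy l hi.1 q)) _ _ (fun z _ h => h)
  have hun := union_prob (Finset.Icc (-(RR B t)) (RR B t)) (pp μ t) (fun z _ => pp_nonneg μ t z)
    ((range L) ×ˢ (Finset.univ : Finset Bool)) (fun z => Bad (c + z)) F (by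
      intro z hz hb
      obtain ⟨l, hl, h0, h3⟩ := hBad _ hb
      have hzΩ : z ∈ Ω := by rw [hΩ, mem_filter]; exact ⟨hz, h0⟩
      rcases h3 with ⟨x, hx, hlt⟩ | hlt
      · refine ⟨(l, true), mem_product.2 ⟨mem_range.2 hl, mem_univ _⟩, ?_⟩
        rw [hF]
        simp only [if_true]
        exact ⟨hzΩ, x, hxX' x hx, lt_of_le_of_lt hthr hlt⟩
      · refine ⟨(l, false), mem_product.2 ⟨mem_range.2 hl, mem_univ _⟩, ?_⟩
        rw [hF]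
        simp only [Bool.false_eq_true, if_false]
        exact ⟨hzΩ, lt_of_le_of_lt hthr hlt⟩) (1 / (k : ℝ) ^ V) hsub
  refine hun.trans ?_
  rw [card_product, card_range, Finset.card_univ, Fintype.card_bool]
  push_cast
  rw [mul_one_div, div_le_div_iff₀ (by positivity) (by positivity), one_mul]
  have h3 : ℓ ^ V ≤ (k : ℝ) ^ V := pow_le_pow_left₀ hℓ0.le hk1 V
  refine le_trans ?_ h3
  have h5 : ℓ ^ V = ℓ ^ U * ℓ * (ℓ ^ T * ℓ ^ U') := by rw [hV]; ring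
  rw [h5]
  have h6 : (1 : ℝ) ≤ ℓ ^ U := one_le_pow₀ (by linarith)
  have h7 : (2 : ℝ) ≤ ℓ ^ U * ℓ := by nlinarith
  calc (L : ℝ) * 2 * ℓ ^ U' ≤ ℓ ^ T * 2 * ℓ ^ U' := by
        apply mul_le_mul_of_nonneg_right _ (by positivity)
        exact mul_le_mul_of_nonneg_right hL (by norm_num)
    _ = 2 * (ℓ ^ T * ℓ ^ U') := by ring
    _ ≤ _ := mul_le_mul_of_nonneg_right h7 (by positivity)

theorem heavy_ae (B C σ : ℝ) (hB : 0 < B) (hσ : 0 < σ) (ε : ℝ) (hε : 0 < ε) (μ : Measure ℝ) [IsProbabilityMeasure μ]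
    (hdec : ∀ ξ : ℝ, 1 ≤ |ξ| → ‖charFun μ ξ‖ ≤ C * |ξ| ^ (-σ)) (hsup : ∀ᵐ α ∂μ, |α| ≤ B)
    {J : Type} (t s : J → ℝ) (ht2 : ∀ j, 2 ≤ t j) (V : ℕ) (hT : Summable fun j => 1 / Real.log (t j) ^ V)
    (hs : ∀ j, |s j| ≤ B * t j) (T : ℕ) (L : J → ℕ) (hL : ∀ j, (L j : ℝ) ≤ Real.log (t j) ^ T)
    (lam : J → ℕ → ℕ → ℝ) (hlam : ∀ j, ∀ l < L j, ∀ q : ℕ, |lam j l q| ≤ Real.log (t j) ^ T * (q.divisors.card : ℝ) ^ T)
    (y : J → ℕ → ℕ → ℕ) (hy : ∀ j, ∀ l < L j, ∀ q : ℕ, (y j l q : ℝ) ≤ B * t j) :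
    ∀ᵐ α ∂μ, ∀ A U : ℕ,
      {j | ¬ ∀ a : ℕ, 0 < a → |(a : ℝ) - (t j * α + s j)| ≤ Real.log (t j) ^ A → ∀ l < L j,
        (∀ x : ℕ, (x : ℝ) ≤ B * t j → |W (lam j l) ⌊t j ^ (1 - ε)⌋₊ x a| ≤ t j / Real.log (t j) ^ U) ∧
        |WW (lam j l) (y j l) ⌊t j ^ (1 - ε)⌋₊ a| ≤ t j / Real.log (t j) ^ U}.Finite := by
  classical
  have h := bc_shift μ B hsup t s ht2 V hT (fun U j h => ∃ l < L j, 0 < h ∧ ((∃ x : ℕ, (x : ℝ) ≤ B * t j ∧
      t j / Real.log (t j) ^ U < |W (lam j l) ⌊t j ^ (1 - ε)⌋₊ x h.toNat|) ∨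
      t j / Real.log (t j) ^ U < |WW (lam j l) (y j l) ⌊t j ^ (1 - ε)⌋₊ h.toNat|)) (by
    intro A U
    obtain ⟨t₀, h0⟩ := lev_heavy B C σ hB hσ T U (V + A) A ε hε
    exact ⟨t₀, fun j hj c hc => h0 μ hdec hsup (t j) (s j) hj (hs j) c hc (L j) (hL j) (lam j) (hlam j) (y j) (hy j) _
      (fun n hn => hn)⟩)
  filter_upwards [h] with α hα A U
  refine (hα A U).subset ?_
  intro j hj
  rw [Set.mem_ofPred_eq] at hj ⊢
  by_contra hcon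
  apply hj
  intro a ha0 ha1 l hl
  have key : ∀ n : ℕ, n = a → ¬ ((∃ x : ℕ, (x : ℝ) ≤ B * t j ∧
      t j / Real.log (t j) ^ U < |W (lam j l) ⌊t j ^ (1 - ε)⌋₊ x n|) ∨
      t j / Real.log (t j) ^ U < |WW (lam j l) (y j l) ⌊t j ^ (1 - ε)⌋₊ n|) := by
    intro n hn h3
    apply hcon
    refine ⟨(a : ℤ), ⟨l, hl, by exact_mod_cast ha0, ?_⟩, by exact_mod_cast ha1⟩
    rw [Int.toNat_natCast, ← hn]
    exact h3
  have k1 := key a rfl
  push Not at k1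
  exact ⟨fun x hx => k1.1 x hx, k1.2⟩

end Pool.Agent.V11260.FW
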