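import Pool.Agent.TH869.LPS.Res
import Pool.Agent.Helper203.Win.Multi

/-! Littlewood's conjecture for all pairs of elements of two finitely generated groups in windows around almost all
directions. -/

set_option autoImplicit false

namespace Pool.Agent.V11260.LW

open Finset Filter Topology MeasureTheory Polynomial
open Pool.Agent.TH869.LPS (Gd)
open Pool.Agent.Y854.GM (ExpLe)
open scoped ENNReal NNReal

/-- the box -/
noncomputable def box (ι : Type) [Fintype ι] [DecidableEq ι] (H : ℕ) : Finset (ι → ℤ) := Fintype.piFinset fun _ => Icc (-(H : ℤ)) H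

lemma mem_box {ι : Type} [Fintype ι] [DecidableEq ι] {H : ℕ} {t : ι → ℤ} : t ∈ box ι H ↔ ∀ i, |t i| ≤ H := by
  unfold box
  rw [Fintype.mem_piFinset]
  exact forall_congr' fun i => by rw [mem_Icc, abs_le]

lemma card_box (ι : Type) [Fintype ι] [DecidableEq ι] (H : ℕ) : (box ι H).card = (2 * H + 1) ^ Fintype.card ι := by
  unfold box
  rw [Fintype.card_piFinset, prod_const, Int.card_Icc, card_univ]
  congr 1
  omega

lemma kap {c ε : ℝ} (hc : 0 < c) (hc1 : c ≤ 1) (hε : 0 < ε) (hε2 : ε ≤ 1 / 2) :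
    0 < c * ε / Real.log (1 / ε) ∧ c * ε / Real.log (1 / ε) < 1 := by
  have h1 : Real.log 2 ≤ Real.log (1 / ε) := by
    apply Real.log_le_log (by norm_num)
    rw [le_div_iff₀ hε]
    linarith
  have h2 := Real.log_two_gt_d9
  have h3 : 0 < Real.log (1 / ε) := by linarith
  refine ⟨by positivity, ?_⟩
  rw [div_lt_one h3]
  nlinarith

open Classical in
/-- linear forms in several variables with a shift, the nonresonant case -/
lemma count_one : ∃ c C : ℝ, 0 < c ∧ c ≤ 1 ∧ 0 < C ∧ ∀ (r : ℕ) (ε : ℝ), 0 < ε → ε ≤ 1 / 2 → ∀ (α : ℝ)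
    (β : Fin (r + 1) → ℝ) (β' : ℝ), (∃ j, ∀ b : ℕ, 1 ≤ b → ∀ u v : ℤ, (b : ℝ) * β j ≠ u + v * α) → ∀ H : ℕ,
    (((box (Fin (r + 1)) H).filter (fun m => ¬ ∀ γ : ℝ, Gd ε α (∑ i, (m i : ℝ) * β i + β') γ)).card : ℝ) ≤
      C / ε * ((2 * H + 1 : ℕ) : ℝ) ^ ((r + 1 : ℝ) - c * ε / Real.log (1 / ε)) := by
  obtain ⟨c, C, hc, hc1, hC, h⟩ := Pool.Agent.TH869.LPS.poly 1
  refine ⟨c, C, hc, hc1, hC, ?_⟩
  intro r ε hε hε2 α β β' ⟨j, hj⟩ H
  set κ : ℝ := c * ε / Real.log (1 / ε) with hκ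
  set N : ℕ := 2 * H + 1 with hN
  have hN0 : (0 : ℝ) < N := by rw [hN]; positivity
  set S := (box (Fin (r + 1)) H).filter (fun m => ¬ ∀ γ : ℝ, Gd ε α (∑ i, (m i : ℝ) * β i + β') γ) with hS
  set M : ℝ := C / ε * N * (N : ℝ) ^ (-κ) with hM
  have hM0 : 0 ≤ M := by positivity
  have hfib : ∀ a ∈ S.image (fun m : Fin (r + 1) → ℤ => fun i : Fin r => m (j.succAbove i)),
      (S.filter (fun m => (fun i : Fin r => m (j.succAbove i)) = a)).card ≤ ⌊M⌋₊ := by
    intro a _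
    apply Nat.le_floor
    set c0 : ℝ := ∑ i : Fin r, (a i : ℝ) * β (j.succAbove i) + β' with hc0
    set P : ℝ[X] := Polynomial.C (β j) * X + Polynomial.C (c0 - H * β j) with hP
    have hPe : ∀ l : ℝ, P.eval l = (l - H) * β j + c0 := by
      intro l
      rw [hP]
      simp only [eval_add, eval_mul, eval_C, eval_X]
      ring
    have h1 := h ε hε hε2 α P (Polynomial.natDegree_linear_le) N N (by omega) le_rfl (by
      intro b hb _
      refine ⟨1, le_rfl, fun u v => ?_⟩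
      have : P.coeff 1 = β j := by rw [hP]; simp [Polynomial.coeff_C]
      rw [this]
      exact hj b hb u v)
    refine le_trans ?_ h1
    apply Nat.cast_le.2
    apply card_le_card_of_injOn (fun m : Fin (r + 1) → ℤ => (m j + (H : ℤ)).toNat)
    · intro m hm
      rw [Finset.mem_coe, mem_filter] at hm
      obtain ⟨hm1, hm2⟩ := hm
      rw [hS, mem_filter, mem_box] at hm1
      have hmj := abs_le.1 (hm1.1 j)
      rw [Finset.mem_coe, mem_filter, mem_range]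
      refine ⟨by show (m j + (H : ℤ)).toNat < N; omega, ?_⟩
      have e1 : (((m j + H).toNat : ℕ) : ℝ) = m j + H := by
        have : (((m j + H).toNat : ℕ) : ℤ) = m j + H := Int.toNat_of_nonneg (by omega)
        exact_mod_cast this
      have e2 : P.eval (((m j + H).toNat : ℕ) : ℝ) = ∑ i, (m i : ℝ) * β i + β' := by
        rw [hPe, e1, Fin.sum_univ_succAbove _ j, hc0, ← hm2]
        ring
      rw [e2]
      exact hm1.2
    · intro m hm m' hm' he
      rw [Finset.mem_coe, mem_filter] at hm hm'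
      have h2 := hm.1
      have h3 := hm'.1
      rw [hS, mem_filter, mem_box] at h2 h3
      have h4 := abs_le.1 (h2.1 j)
      have h5 := abs_le.1 (h3.1 j)
      have h6 : m j = m' j := by
        simp only at he
        omega
      have h7 := hm.2.trans hm'.2.symm
      funext i
      rcases eq_or_ne i j with hij | hij
      · rw [hij]; exact h6
      · obtain ⟨k, hk⟩ := Fin.exists_succAbove_eq hij
        rw [← hk]
        exact congrFun h7 k
  have h2 := card_le_mul_card_image S ⌊M⌋₊ hfib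
  have h3 : (S.image (fun m : Fin (r + 1) → ℤ => fun i : Fin r => m (j.succAbove i))).card ≤ N ^ r := by
    have h4 : S.image (fun m : Fin (r + 1) → ℤ => fun i : Fin r => m (j.succAbove i)) ⊆ box (Fin r) H := by
      intro a ha
      rw [mem_image] at ha
      obtain ⟨m, hm, rfl⟩ := ha
      rw [hS, mem_filter, mem_box] at hm
      rw [mem_box]
      exact fun i => hm.1 _
    refine (card_le_card h4).trans (le_of_eq ?_)
    rw [card_box, Fintype.card_fin]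
  calc (S.card : ℝ) ≤ ((⌊M⌋₊ * (S.image (fun m : Fin (r + 1) → ℤ => fun i : Fin r => m (j.succAbove i))).card : ℕ) : ℝ) := by
        exact_mod_cast h2
    _ ≤ M * (N : ℝ) ^ r := by
        push_cast
        exact mul_le_mul (Nat.floor_le hM0) (by exact_mod_cast h3) (by positivity) hM0
    _ = C / ε * (N : ℝ) ^ ((r + 1 : ℝ) - κ) := by
        rw [hM, show ((r + 1 : ℝ) - κ) = ((r + 1 : ℕ) : ℝ) + (-κ) by push_cast; ring, Real.rpow_add hN0,
          Real.rpow_natCast]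
        ring

lemma resonant {α : ℝ} {r : ℕ} {β : Fin r → ℝ}
    (h : ∀ j, ∃ b : ℕ, 1 ≤ b ∧ ∃ u v : ℤ, (b : ℝ) * β j = u + v * α) (m : Fin r → ℤ) :
    ∃ U V W : ℤ, U ≠ 0 ∧ (U : ℝ) * (∑ i, (m i : ℝ) * β i) = V * α + W := by
  apply Finset.sum_induction (fun i => (m i : ℝ) * β i) (fun x => ∃ U V W : ℤ, U ≠ 0 ∧ (U : ℝ) * x = V * α + W)
  · rintro x y ⟨U, V, W, hU, h1⟩ ⟨U', V', W', hU', h2⟩
    refine ⟨U * U', V * U' + V' * U, W * U' + W' * U, mul_ne_zero hU hU', ?_⟩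
    push_cast
    calc (U : ℝ) * U' * (x + y) = U' * (U * x) + U * (U' * y) := by ring
      _ = _ := by rw [h1, h2]; ring
  · exact ⟨1, 0, 0, one_ne_zero, by simp⟩
  · intro i _
    obtain ⟨b, hb, u, v, h1⟩ := h i
    refine ⟨b, m i * v, m i * u, by exact_mod_cast (by omega : b ≠ 0), ?_⟩
    push_cast
    calc (b : ℝ) * (m i * β i) = m i * (b * β i) := by ring
      _ = _ := by rw [h1]; ring

open Classical in
/-- pairs `(A k, ∑ m_j B_j(k) + B'(k))` with arbitrary `A`, `B`, `B'` -/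
lemma count_gen : ∃ c C : ℝ, 0 < c ∧ c ≤ 1 ∧ 0 < C ∧ ∀ (s r : ℕ) (ε : ℝ), 0 < ε → ε ≤ 1 / 2 → ∀ (A : (Fin s → ℤ) → ℝ)
    (B : (Fin s → ℤ) → Fin (r + 1) → ℝ) (B' : (Fin s → ℤ) → ℝ) (Q : (Fin s → ℤ) → (Fin (r + 1) → ℤ) → Prop),
    (∀ a m, (∀ γ : ℝ, Gd ε (A a) (∑ j, (m j : ℝ) * B a j + B' a) γ) → Q a m) →
    (∀ a, (∃ j, ∀ b : ℕ, 1 ≤ b → ∀ u v : ℤ, (b : ℝ) * B a j ≠ u + v * A a) ∨ ∀ m, Q a m) → ∀ H : ℕ,
    (((box (Fin s ⊕ Fin (r + 1)) H).filter (fun t => ¬ Q (fun i => t (Sum.inl i)) (fun j => t (Sum.inr j)))).card : ℝ) ≤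
      C / ε * ((2 * H + 1 : ℕ) : ℝ) ^ ((Fintype.card (Fin s ⊕ Fin (r + 1)) : ℝ) - c * ε / Real.log (1 / ε)) := by
  obtain ⟨c, C, hc, hc1, hC, h⟩ := count_one
  refine ⟨c, C, hc, hc1, hC, ?_⟩
  intro s r ε hε hε2 A B B' Q hQ hcase H
  set κ : ℝ := c * ε / Real.log (1 / ε) with hκ
  set N : ℕ := 2 * H + 1 with hN
  have hN0 : (0 : ℝ) < N := by rw [hN]; positivity
  set S := (box (Fin s ⊕ Fin (r + 1)) H).filter (fun t => ¬ Q (fun i => t (Sum.inl i)) (fun j => t (Sum.inr j))) with hS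
  set M : ℝ := C / ε * (N : ℝ) ^ ((r + 1 : ℝ) - κ) with hM
  have hM0 : 0 ≤ M := by positivity
  have hfib : ∀ a ∈ S.image (fun t : Fin s ⊕ Fin (r + 1) → ℤ => fun i : Fin s => t (Sum.inl i)),
      (S.filter (fun t => (fun i : Fin s => t (Sum.inl i)) = a)).card ≤ ⌊M⌋₊ := by
    intro a _
    apply Nat.le_floor
    rcases hcase a with hres | hres
    · have h1 := h r ε hε hε2 (A a) (B a) (B' a) hres H
      refine le_trans ?_ h1
      apply Nat.cast_le.2
      apply card_le_card_of_injOn (fun t : Fin s ⊕ Fin (r + 1) → ℤ => fun i : Fin (r + 1) => t (Sum.inr i))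
      · intro t ht
        rw [Finset.mem_coe, mem_filter] at ht
        obtain ⟨ht1, ht2⟩ := ht
        rw [hS, mem_filter, mem_box] at ht1
        rw [Finset.mem_coe, mem_filter, mem_box]
        refine ⟨fun i => ht1.1 _, fun hall => ?_⟩
        have h3 := ht1.2
        rw [ht2] at h3
        exact h3 (hQ a _ hall)
      · intro t ht t' ht' he
        rw [Finset.mem_coe, mem_filter] at ht ht'
        have h7 := ht.2.trans ht'.2.symm
        funext k
        rcases k with k | k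
        · exact congrFun h7 k
        · exact congrFun he k
    · have hempty : S.filter (fun t => (fun i : Fin s => t (Sum.inl i)) = a) = ∅ := by
        rw [filter_eq_empty_iff]
        intro t ht hta
        rw [hS, mem_filter] at ht
        have h3 := ht.2
        rw [hta] at h3
        exact h3 (hres _)
      rw [hempty, card_empty, Nat.cast_zero]
      exact hM0
  have h2 := card_le_mul_card_image S ⌊M⌋₊ hfib
  have h3 : (S.image (fun t : Fin s ⊕ Fin (r + 1) → ℤ => fun i : Fin s => t (Sum.inl i))).card ≤ N ^ s := by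
    have h4 : S.image (fun t : Fin s ⊕ Fin (r + 1) → ℤ => fun i : Fin s => t (Sum.inl i)) ⊆ box (Fin s) H := by
      intro a ha
      rw [mem_image] at ha
      obtain ⟨t, ht, rfl⟩ := ha
      rw [hS, mem_filter, mem_box] at ht
      rw [mem_box]
      exact fun i => ht.1 _
    refine (card_le_card h4).trans (le_of_eq ?_)
    rw [card_box, Fintype.card_fin]
  calc (S.card : ℝ) ≤ ((⌊M⌋₊ * (S.image (fun t : Fin s ⊕ Fin (r + 1) → ℤ => fun i : Fin s => t (Sum.inl i))).card : ℕ) : ℝ) := by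
        exact_mod_cast h2
    _ ≤ M * (N : ℝ) ^ s := by
        push_cast
        exact mul_le_mul (Nat.floor_le hM0) (by exact_mod_cast h3) (by positivity) hM0
    _ = C / ε * (N : ℝ) ^ ((Fintype.card (Fin s ⊕ Fin (r + 1)) : ℝ) - κ) := by
        rw [hM, Fintype.card_sum, Fintype.card_fin, Fintype.card_fin,
          show (((s + (r + 1) : ℕ) : ℝ) - κ) = ((r + 1 : ℝ) - κ) + (s : ℝ) by push_cast; ring, Real.rpow_add hN0,
          Real.rpow_natCast]
        ring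

/-- the form for `wins` -/
lemma ncard_of {ι : Type} [Fintype ι] [DecidableEq ι] (P : (ι → ℤ) → Prop) [DecidablePred P] (H : ℕ) :
    {t : ι → ℤ | P t ∧ ∀ k, |t k| ≤ H}.ncard = ((box ι H).filter P).card := by
  rw [← Set.ncard_coe_finset]
  congr 1
  ext t
  rw [Finset.mem_coe, mem_filter, mem_box]
  exact ⟨fun h => ⟨h.2, h.1⟩, fun h => ⟨h.2, h.1⟩⟩

lemma gd_mono {ε ε' α β γ : ℝ} (h : ε' ≤ ε) (hg : Gd ε' α β γ) : Gd ε α β γ :=
  hg.mono fun _ hq => lt_of_lt_of_le hq h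

lemma gd_res {ε : ℝ} (hε : 0 < ε) {α : ℝ} {r : ℕ} {β : Fin r → ℝ}
    (h : ∀ j, ∃ b : ℕ, 1 ≤ b ∧ ∃ u v : ℤ, (b : ℝ) * β j = u + v * α) (m : Fin r → ℤ) :
    Gd ε α (∑ i, (m i : ℝ) * β i) 0 := by
  obtain ⟨U, V, W, hU, h3⟩ := resonant h m
  have h4 := Pool.Agent.TH869.LPS.gd_of_relation hε U V W hU h3 1
  rwa [Int.cast_one, one_mul] at h4

/-- from counts in boxes to windows in almost all directions -/
theorem wins {ι : Type} [Fintype ι] [DecidableEq ι] (hι : 1 ≤ Fintype.card ι) (P : ℝ → (ι → ℤ) → Prop)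
    (hmono : ∀ ε ε' t, ε' ≤ ε → P ε' t → P ε t) {c : ℝ} (hc : 0 < c) (hc1 : c ≤ 1)
    (hcount : ∀ ε : ℝ, 0 < ε → ε ≤ 1 / 2 → ∃ C : ℝ, 0 ≤ C ∧ ∀ H : ℕ, ({t : ι → ℤ | ¬ P ε t ∧ ∀ k, |t k| ≤ H}.ncard : ℝ) ≤
      C * ((2 * H + 1 : ℕ) : ℝ) ^ ((Fintype.card ι : ℝ) - c * ε / Real.log (1 / ε)))
    {v : ℕ → ℝ} (hv : ∀ n, 1 ≤ v n) :
    (∀ ε : ℝ, 0 < ε → ε ≤ 1 / 2 → ∀ τ θ : ℝ, 0 ≤ τ → ExpLe v τ → θ < 1 → ∃ X : Set (ι → ℝ),
      dimH X ≤ ENNReal.ofReal ((Fintype.card ι - c * ε / Real.log (1 / ε) + τ) / (1 - θ)) ∧ ∀ x : ι → ℝ, x ∉ X →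
        ∃ n₀ : ℕ, ∀ n : ℕ, n₀ ≤ n → ∀ t : ι → ℤ, (∀ k, |(t k : ℝ) - x k * v n| ≤ (v n) ^ θ) → P ε t) ∧
    (∀ θ : ℕ → ℝ, ExpLe v 0 → Tendsto θ atTop (𝓝 0) → ∀ᵐ x : ι → ℝ, ∀ ε : ℝ, 0 < ε →
      ∃ n₀ : ℕ, ∀ n : ℕ, n₀ ≤ n → ∀ t : ι → ℤ, (∀ k, |(t k : ℝ) - x k * v n| ≤ (v n) ^ θ n) → P ε t) := by
  have hιr : (1 : ℝ) ≤ Fintype.card ι := by exact_mod_cast hι
  have part1 : ∀ ε : ℝ, 0 < ε → ε ≤ 1 / 2 → ∀ τ θ : ℝ, 0 ≤ τ → ExpLe v τ → θ < 1 → ∃ X : Set (ι → ℝ),
      dimH X ≤ ENNReal.ofReal ((Fintype.card ι - c * ε / Real.log (1 / ε) + τ) / (1 - θ)) ∧ ∀ x : ι → ℝ, x ∉ X →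
        ∃ n₀ : ℕ, ∀ n : ℕ, n₀ ≤ n → ∀ t : ι → ℤ, (∀ k, |(t k : ℝ) - x k * v n| ≤ (v n) ^ θ) → P ε t := by
    intro ε hε hε2 τ θ hτ hE hθ
    obtain ⟨hκ0, hκ1⟩ := kap hc hc1 hε hε2
    set κ : ℝ := c * ε / Real.log (1 / ε) with hκ
    obtain ⟨C, hC0, hC⟩ := hcount ε hε hε2
    obtain ⟨X, hX1, hX2⟩ := Pool.Agent.Helper203.Win.windowsZ (ι := ι) {t | ¬ P ε t} (v := v)
      (s := (Fintype.card ι : ℝ) - κ) (τ := τ) (θ := θ) hv hτ hE (by linarith) hθ (by
        intro ε' hε'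
        refine ⟨C * (3 : ℝ) ^ ((Fintype.card ι : ℝ) - κ), fun H hH => ?_⟩
        have hH1 : (1 : ℝ) ≤ H := by exact_mod_cast hH
        refine (hC H).trans ?_
        rw [mul_assoc]
        apply mul_le_mul_of_nonneg_left _ hC0
        calc ((2 * H + 1 : ℕ) : ℝ) ^ ((Fintype.card ι : ℝ) - κ) ≤ (3 * (H : ℝ)) ^ ((Fintype.card ι : ℝ) - κ) := by
              apply Real.rpow_le_rpow (by positivity) _ (by linarith)
              push_cast
              linarith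
          _ = 3 ^ ((Fintype.card ι : ℝ) - κ) * (H : ℝ) ^ ((Fintype.card ι : ℝ) - κ) :=
              Real.mul_rpow (by norm_num) (by linarith)
          _ ≤ _ := by
              apply mul_le_mul_of_nonneg_left _ (by positivity)
              exact Real.rpow_le_rpow_of_exponent_le hH1 (by linarith))
    refine ⟨X, hX1, fun x hx => ?_⟩
    obtain ⟨n₀, hn₀⟩ := hX2 x hx
    refine ⟨n₀, fun n hn t ht => ?_⟩
    by_contra hg
    exact hn₀ n hn t ht hg
  refine ⟨part1, fun θ hE hθ => ?_⟩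
  have hε1 : ∀ j : ℕ, 0 < 1 / ((j : ℝ) + 2) ∧ 1 / ((j : ℝ) + 2) ≤ 1 / 2 := by
    intro j
    refine ⟨by positivity, ?_⟩
    apply one_div_le_one_div_of_le (by norm_num)
    linarith [(Nat.cast_nonneg j : (0 : ℝ) ≤ j)]
  have hκ := fun j : ℕ => kap hc hc1 (hε1 j).1 (hε1 j).2
  set κ : ℕ → ℝ := fun j => c * (1 / ((j : ℝ) + 2)) / Real.log (1 / (1 / ((j : ℝ) + 2))) with hκd
  set D : ℝ := (Fintype.card ι : ℝ) with hD
  choose X hX1 hX2 using fun j : ℕ => part1 (1 / ((j : ℝ) + 2)) (hε1 j).1 (hε1 j).2 0 (κ j / (2 * D)) le_rfl hE (by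
    have h1 := (hκ j).2
    have h2 : κ j < 1 := h1
    rw [div_lt_one (by positivity)]
    linarith)
  have hnull : ∀ j, volume (X j) = 0 := by
    intro j
    have h1 : dimH (X j) < (Fintype.card ι : ℝ≥0) := by
      refine lt_of_le_of_lt (hX1 j) ?_
      have e : (((Fintype.card ι : ℝ≥0)) : ℝ≥0∞) = ENNReal.ofReal (Fintype.card ι : ℝ) := by
        rw [ENNReal.ofReal_natCast]
        norm_cast
      rw [e]
      refine (ENNReal.ofReal_lt_ofReal_iff (by linarith)).mpr ?_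
      have h2 : 0 < κ j := (hκ j).1
      have h3 : κ j < 1 := (hκ j).2
      have h4 : κ j / (2 * D) < 1 := by
        rw [div_lt_one (by positivity)]
        linarith
      rw [div_lt_iff₀ (by linarith)]
      have h5 : D * (κ j / (2 * D)) = κ j / 2 := by field_simp
      have h6 : D * (1 - κ j / (2 * D)) = D - κ j / 2 := by rw [mul_sub, h5, mul_one]
      rw [h6]
      have h7 : c * (1 / ((j : ℝ) + 2)) / Real.log (1 / (1 / ((j : ℝ) + 2))) = κ j := rfl
      rw [h7]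
      linarith
    have h2 := hausdorffMeasure_of_dimH_lt h1
    have h3 : ((Fintype.card ι : ℝ≥0) : ℝ) = (Fintype.card ι : ℝ) := by norm_cast
    rw [h3, hausdorffMeasure_pi_real] at h2
    exact h2
  have hae : ∀ᵐ x : ι → ℝ, ∀ j, x ∉ X j := ae_all_iff.2 fun j => compl_mem_ae_iff.2 (hnull j)
  filter_upwards [hae] with x hx ε hε
  obtain ⟨j, hj⟩ := exists_nat_one_div_lt hε
  have hj' : 1 / ((j : ℝ) + 2) ≤ ε := by
    refine le_trans ?_ hj.le
    apply one_div_le_one_div_of_le (by positivity)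
    linarith
  obtain ⟨n₀, hn₀⟩ := hX2 j x (hx j)
  obtain ⟨n₁, hn₁⟩ := Filter.eventually_atTop.1 (hθ.eventually_le_const (show (0 : ℝ) < κ j / (2 * D) by
    have : 0 < κ j := (hκ j).1
    positivity))
  refine ⟨max n₀ n₁, fun n hn t ht => ?_⟩
  refine hmono _ _ t hj' (hn₀ n ((le_max_left _ _).trans hn) t fun k => (ht k).trans ?_)
  exact Real.rpow_le_rpow_of_exponent_le (hv n) (hn₁ n ((le_max_right _ _).trans hn))

end Pool.Agent.V11260.LW
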