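import Mathlib

/-!
# The shifts of a rooted binary tree on `ℓ²`
-/

open scoped InnerProductSpace ENNReal

namespace Pool.Agent.V11260.Tree

noncomputable section

variable {V : Type}

/-- the Hilbert space of square summable functions -/
abbrev HH (V : Type) := lp (fun _ : V => ℂ) 2

lemma memTwo {f : V → ℂ} (hf : Summable fun x => ‖f x‖ ^ 2) : Memℓp f 2 := by
  rw [memℓp_gen_iff (by norm_num)]
  simpa using hf

lemma summ (f : HH V) : Summable fun x => ‖f x‖ ^ 2 := by
  have h := (memℓp_gen_iff (by norm_num : (0 : ℝ) < (2 : ℝ≥0∞).toReal)).1 f.2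
  simpa using h

lemma nsq (f : HH V) : ‖f‖ ^ 2 = ∑' x, ‖f x‖ ^ 2 := by
  have h := lp.norm_rpow_eq_tsum (by norm_num : (0 : ℝ) < (2 : ℝ≥0∞).toReal) f
  simpa using h

/-- composition with an injective map -/
def cmp (c : V → V) (hc : Function.Injective c) : HH V →L[ℂ] HH V :=
  LinearMap.mkContinuous
    { toFun := fun f => ⟨fun x => f (c x), memTwo ((summ f).comp_injective hc)⟩
      map_add' := fun f g => by
        apply Subtype.ext; funext x; rfl
      map_smul' := fun a f => by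
        apply Subtype.ext; funext x; rfl } 1 (fun f => by
      rw [one_mul]
      refine le_of_sq_le_sq ?_ (norm_nonneg _)
      rw [nsq, nsq]
      exact tsum_comp_le_tsum_of_inj (summ f) (fun x => by positivity) hc)

@[simp] lemma cmp_apply (c : V → V) (hc : Function.Injective c) (f : HH V) (x : V) :
    cmp c hc f x = f (c x) := rfl

variable [DecidableEq V]

/-- the basis vector of `x` -/
def dl (x : V) : HH V := lp.single 2 x (1 : ℂ)

lemma dl_apply (x y : V) : dl x y = if y = x then (1 : ℂ) else 0 := by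
  unfold dl
  rw [lp.single_apply, Pi.single_apply]

lemma inner_dl (x : V) (f : HH V) : ⟪dl x, f⟫_ℂ = f x := by
  unfold dl
  rw [lp.inner_single_left]
  simp

lemma adj_apply (A : HH V →L[ℂ] HH V) (f : HH V) (x : V) :
    (ContinuousLinearMap.adjoint A f) x = ⟪A (dl x), f⟫_ℂ := by
  rw [← inner_dl, ContinuousLinearMap.adjoint_inner_right]

/-- a rooted binary tree: the root `o` and the two forward neighbours `c k x` of each vertex -/
structure BT (V : Type) where
  o : V
  c : Bool → V → V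
  inj : ∀ k, Function.Injective (c k)
  disj : ∀ x y, c true x ≠ c false y
  ne_o : ∀ k x, c k x ≠ o
  exh : ∀ x, x = o ∨ ∃ k y, x = c k y

variable (B : BT V)

namespace BT

lemma disj' (x y : V) : B.c false x ≠ B.c true y := fun h => B.disj y x h.symm

lemma cne {k l : Bool} (h : k ≠ l) (x y : V) : B.c k x ≠ B.c l y := by
  cases k <;> cases l
  · exact absurd rfl h
  · exact B.disj' x y
  · exact B.disj x y
  · exact absurd rfl h

/-- `(S k f) x = f (c k x)` -/
def S (k : Bool) : HH V →L[ℂ] HH V := cmp (B.c k) (B.inj k)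

lemma S_apply (k : Bool) (f : HH V) (x : V) : B.S k f x = f (B.c k x) := rfl

/-- the adjoint of `S k` -/
def U (k : Bool) : HH V →L[ℂ] HH V := ContinuousLinearMap.adjoint (B.S k)

lemma S_dl_o (k : Bool) : B.S k (dl B.o) = 0 := by
  apply lp.ext
  funext x
  rw [S_apply, dl_apply, if_neg (B.ne_o k x)]
  rfl

lemma S_dl_c (k : Bool) (y : V) : B.S k (dl (B.c k y)) = dl y := by
  apply lp.ext
  funext x
  rw [S_apply, dl_apply, dl_apply]
  simp only [(B.inj k).eq_iff]

lemma S_dl_c' {k l : Bool} (h : k ≠ l) (y : V) : B.S k (dl (B.c l y)) = 0 := by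
  apply lp.ext
  funext x
  rw [S_apply, dl_apply, if_neg (B.cne h x y)]
  rfl

lemma U_o (k : Bool) (f : HH V) : B.U k f B.o = 0 := by
  unfold U
  rw [adj_apply, S_dl_o, inner_zero_left]

lemma U_c (k : Bool) (f : HH V) (y : V) : B.U k f (B.c k y) = f y := by
  unfold U
  rw [adj_apply, S_dl_c, inner_dl]

lemma U_c' {k l : Bool} (h : k ≠ l) (f : HH V) (y : V) : B.U k f (B.c l y) = 0 := by
  unfold U
  rw [adj_apply, S_dl_c' B h, inner_zero_left]

lemma SU (k : Bool) (f : HH V) : B.S k (B.U k f) = f := by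
  apply lp.ext
  funext x
  rw [S_apply, U_c]

lemma SU' {k l : Bool} (h : k ≠ l) (f : HH V) : B.S l (B.U k f) = 0 := by
  apply lp.ext
  funext x
  rw [S_apply, U_c' B h]
  rfl

lemma dec (f : HH V) : f = (f B.o) • dl B.o + ∑ k, B.U k (B.S k f) := by
  apply lp.ext
  funext x
  have e : ((f B.o) • dl B.o + ∑ k, B.U k (B.S k f)) x =
      f B.o * dl B.o x + (B.U true (B.S true f) x + B.U false (B.S false f) x) := by
    rw [Fintype.sum_bool]; rfl
  rw [e]
  rcases B.exh x with rfl | ⟨k, y, rfl⟩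
  · rw [U_o, U_o, dl_apply, if_pos rfl]; ring
  · rw [dl_apply, if_neg (B.ne_o k y)]
    cases k
    · rw [U_c, U_c' B (by decide), S_apply]; ring
    · rw [U_c, U_c' B (by decide), S_apply]; ring

lemma inner_U (k : Bool) (f g : HH V) : ⟪B.U k f, g⟫_ℂ = ⟪f, B.S k g⟫_ℂ := by
  unfold U
  rw [ContinuousLinearMap.adjoint_inner_left]

lemma inner_U' (k : Bool) (f g : HH V) : ⟪f, B.U k g⟫_ℂ = ⟪B.S k f, g⟫_ℂ := by
  unfold U
  rw [ContinuousLinearMap.adjoint_inner_right]

/-- `‖f‖² = |f(o)|² + ∑ ‖S_k f‖²` -/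
lemma nsq_dec (f : HH V) : ‖f‖ ^ 2 = ‖f B.o‖ ^ 2 + ∑ k, ‖B.S k f‖ ^ 2 := by
  have h1 : ⟪f, f⟫_ℂ = ⟪f, (f B.o) • dl B.o + ∑ k, B.U k (B.S k f)⟫_ℂ := by
    rw [← dec]
  rw [inner_add_right, inner_smul_right, inner_sum, inner_self_eq_norm_sq_to_K] at h1
  have h2 : ⟪f, dl B.o⟫_ℂ = (starRingEnd ℂ) (f B.o) := by
    rw [← inner_conj_symm, inner_dl]
  have h3 : ∀ k, ⟪f, B.U k (B.S k f)⟫_ℂ = ((‖B.S k f‖ ^ 2 : ℝ) : ℂ) := fun k => by
    rw [inner_U', inner_self_eq_norm_sq_to_K]
    push_cast; rfl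
  rw [h2, Complex.mul_conj, Finset.sum_congr rfl fun k _ => h3 k] at h1
  have h4 : ((‖f‖ ^ 2 : ℝ) : ℂ) = ((‖f B.o‖ ^ 2 + ∑ k, ‖B.S k f‖ ^ 2 : ℝ) : ℂ) := by
    push_cast
    rw [Complex.normSq_eq_norm_sq] at h1
    push_cast at h1
    exact h1
  exact_mod_cast h4

/-- the operator with the diagonal entries `m₀` at the root and `m k` at `c k x` -/
def T (m0 : ℝ) (m : Bool → ℝ) : HH V →L[ℂ] HH V :=
  (m0 : ℂ) • ((innerSL ℂ (dl B.o)).smulRight (dl B.o)) +
    ∑ k, (((m k : ℝ) : ℂ) • (B.U k ∘L B.S k) + (B.U k + B.S k))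

lemma T_eq (m0 : ℝ) (m : Bool → ℝ) (f : HH V) : B.T m0 m f =
    ((m0 : ℂ) * f B.o) • dl B.o + ∑ k, (((m k : ℝ) : ℂ) • B.U k (B.S k f) + (B.U k f + B.S k f)) := by
  unfold T
  simp only [ContinuousLinearMap.add_apply, ContinuousLinearMap.smul_apply,
    ContinuousLinearMap.sum_apply, ContinuousLinearMap.smulRight_apply, innerSL_apply_apply,
    inner_dl, smul_smul, ContinuousLinearMap.comp_apply]

lemma T_o (m0 : ℝ) (m : Bool → ℝ) (f : HH V) : B.T m0 m f B.o =
    m0 * f B.o + (f (B.c true B.o) + f (B.c false B.o)) := by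
  rw [T_eq, Fintype.sum_bool]
  change ((m0 : ℂ) * f B.o) * dl B.o B.o + ((((m true : ℝ) : ℂ) * B.U true (B.S true f) B.o +
    (B.U true f B.o + B.S true f B.o)) + (((m false : ℝ) : ℂ) * B.U false (B.S false f) B.o +
    (B.U false f B.o + B.S false f B.o))) = _
  rw [U_o, U_o, U_o, U_o, dl_apply, if_pos rfl, S_apply, S_apply]
  ring

lemma T_c (m0 : ℝ) (m : Bool → ℝ) (f : HH V) (k : Bool) (y : V) : B.T m0 m f (B.c k y) =
    m k * f (B.c k y) + (f (B.c true (B.c k y)) + f (B.c false (B.c k y))) + f y := by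
  rw [T_eq, Fintype.sum_bool]
  change ((m0 : ℂ) * f B.o) * dl B.o (B.c k y) + ((((m true : ℝ) : ℂ) * B.U true (B.S true f) (B.c k y) +
    (B.U true f (B.c k y) + B.S true f (B.c k y))) +
    (((m false : ℝ) : ℂ) * B.U false (B.S false f) (B.c k y) +
    (B.U false f (B.c k y) + B.S false f (B.c k y)))) = _
  rw [dl_apply, if_neg (B.ne_o k y)]
  cases k
  · rw [U_c, U_c, U_c' B (by decide), U_c' B (by decide), S_apply, S_apply, S_apply]
    ring
  · rw [U_c, U_c, U_c' B (by decide), U_c' B (by decide), S_apply, S_apply, S_apply]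
    ring

end BT

end

end Pool.Agent.V11260.Tree
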