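import Pool.Agent.V11260.Tree

/-!
# The spectrum of the label invariant operator on the binary tree
-/

open scoped InnerProductSpace ENNReal

set_option linter.unusedSectionVars false

namespace Pool.Agent.V11260.Tree

noncomputable section

variable {V : Type} [DecidableEq V] (B : BT V)

namespace BT

lemma inner_T (m0 : ℝ) (m : Bool → ℝ) (f g : HH V) : ⟪f, B.T m0 m g⟫_ℂ =
    m0 * ((starRingEnd ℂ) (f B.o) * g B.o) + ∑ k, ((m k : ℂ) * ⟪B.S k f, B.S k g⟫_ℂ +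
      (⟪B.S k f, g⟫_ℂ + ⟪f, B.S k g⟫_ℂ)) := by
  rw [T_eq, inner_add_right, inner_smul_right, inner_sum]
  have h2 : ⟪f, dl B.o⟫_ℂ = (starRingEnd ℂ) (f B.o) := by
    rw [← inner_conj_symm, inner_dl]
  congr 1
  · rw [h2]; ring
  · refine Finset.sum_congr rfl fun k _ => ?_
    rw [inner_add_right, inner_add_right, inner_smul_right, inner_U', inner_U']

lemma T_symm (m0 : ℝ) (m : Bool → ℝ) (f g : HH V) : ⟪B.T m0 m f, g⟫_ℂ = ⟪f, B.T m0 m g⟫_ℂ := by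
  rw [← inner_conj_symm, inner_T, inner_T, map_add, map_mul, map_mul, map_sum]
  congr 1
  · rw [Complex.conj_ofReal, Complex.conj_conj]; ring
  · refine Finset.sum_congr rfl fun k _ => ?_
    rw [map_add, map_add, map_mul, Complex.conj_ofReal, inner_conj_symm, inner_conj_symm,
      inner_conj_symm]
    ring

/-- the real part of the quadratic form -/
lemma re_T (m0 : ℝ) (m : Bool → ℝ) (f : HH V) : (⟪f, B.T m0 m f⟫_ℂ).re =
    m0 * ‖f B.o‖ ^ 2 + ∑ k, (m k * ‖B.S k f‖ ^ 2 + 2 * (⟪f, B.S k f⟫_ℂ).re) := by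
  rw [inner_T, Complex.add_re, Complex.re_sum]
  congr 1
  · rw [mul_comm ((starRingEnd ℂ) _), Complex.mul_conj, Complex.normSq_eq_norm_sq,
      ← Complex.ofReal_mul, Complex.ofReal_re]
  · refine Finset.sum_congr rfl fun k _ => ?_
    rw [Complex.add_re, Complex.add_re, inner_self_eq_norm_sq_to_K]
    have h1 : (⟪B.S k f, f⟫_ℂ).re = (⟪f, B.S k f⟫_ℂ).re := by
      rw [← inner_conj_symm, Complex.conj_re]
    rw [h1]
    have h2 : ((m k : ℂ) * ((‖B.S k f‖ : ℝ) : ℂ) ^ 2).re = m k * ‖B.S k f‖ ^ 2 := by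
      rw [← Complex.ofReal_pow, ← Complex.ofReal_mul, Complex.ofReal_re]
    have h3 : ((m k : ℂ) * (((‖B.S k f‖ : ℝ) : ℂ) : ℂ) ^ 2).re = m k * ‖B.S k f‖ ^ 2 := h2
    have h4 : (((m k : ℝ) : ℂ) * (RCLike.ofReal ‖B.S k f‖ : ℂ) ^ 2).re =
      m k * ‖B.S k f‖ ^ 2 := h3
    linarith [h4]

lemma cross (k : Bool) (f : HH V) {u : ℝ} (hu : 0 < u) :
    |2 * (⟪f, B.S k f⟫_ℂ).re| ≤ u * ‖f‖ ^ 2 + ‖B.S k f‖ ^ 2 / u := by
  have h1 : |(⟪f, B.S k f⟫_ℂ).re| ≤ ‖f‖ * ‖B.S k f‖ :=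
    (Complex.abs_re_le_norm _).trans (norm_inner_le_norm _ _)
  rw [abs_mul, abs_of_pos (by norm_num : (0 : ℝ) < 2)]
  have h2 : 2 * (‖f‖ * ‖B.S k f‖) ≤ u * ‖f‖ ^ 2 + ‖B.S k f‖ ^ 2 / u := by
    have h3 : 0 ≤ (u * ‖f‖ - ‖B.S k f‖) ^ 2 / u := by positivity
    have h4 : (u * ‖f‖ - ‖B.S k f‖) ^ 2 / u =
        u * ‖f‖ ^ 2 + ‖B.S k f‖ ^ 2 / u - 2 * (‖f‖ * ‖B.S k f‖) := by
      field_simp
      ring
    linarith
  linarith

/-- a positive supersolution bounds the quadratic form -/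
lemma re_T_le (m0 : ℝ) (m : Bool → ℝ) (f : HH V) {c σ : ℝ} (u : Bool → ℝ) (hu : ∀ k, 0 < u k)
    (hσ : |σ| = 1)
    (h0 : σ * m0 + (u true + u false) ≤ c)
    (h1 : ∀ k, σ * m k + (u true + u false) + 1 / u k ≤ c) :
    σ * (⟪f, B.T m0 m f⟫_ℂ).re ≤ c * ‖f‖ ^ 2 := by
  have hn := B.nsq_dec f
  rw [Fintype.sum_bool] at hn
  rw [re_T, Fintype.sum_bool]
  have hx : ∀ k, σ * (2 * (⟪f, B.S k f⟫_ℂ).re) ≤ u k * ‖f‖ ^ 2 + ‖B.S k f‖ ^ 2 / u k := fun k => by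
    refine (le_abs_self _).trans ?_
    rw [abs_mul, hσ, one_mul]
    exact B.cross k f (hu k)
  have ht := hx true
  have hf := hx false
  obtain ⟨n, hn'⟩ : ∃ n, n = ‖f‖ ^ 2 := ⟨_, rfl⟩
  obtain ⟨a, ha⟩ : ∃ a, a = ‖f B.o‖ ^ 2 := ⟨_, rfl⟩
  obtain ⟨p, hp⟩ : ∃ p, p = ‖B.S true f‖ ^ 2 := ⟨_, rfl⟩
  obtain ⟨q, hq⟩ : ∃ q, q = ‖B.S false f‖ ^ 2 := ⟨_, rfl⟩
  rw [← hn', ← hp, ← hq, ← ha] at hn
  rw [← hn', ← hp] at ht
  rw [← hn', ← hq] at hf
  rw [← hn', ← hp, ← hq, ← ha]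
  have ha0 : 0 ≤ a := by rw [ha]; positivity
  have hp0 : 0 ≤ p := by rw [hp]; positivity
  have hq0 : 0 ≤ q := by rw [hq]; positivity
  have e1 := mul_le_mul_of_nonneg_right h0 ha0
  have e2 := mul_le_mul_of_nonneg_right (h1 true) hp0
  have e3 := mul_le_mul_of_nonneg_right (h1 false) hq0
  have e4 : p / u true = 1 / u true * p := by ring
  have e5 : q / u false = 1 / u false * q := by ring
  rw [e4] at ht
  rw [e5] at hf
  rw [hn] at ht hf ⊢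
  nlinarith

/-- `E - T` is invertible if `σ T ≤ c < σ E` -/
lemma isUnit_T (m0 : ℝ) (m : Bool → ℝ) {c σ E : ℝ} (u : Bool → ℝ) (hu : ∀ k, 0 < u k)
    (hσ : |σ| = 1)
    (h0 : σ * m0 + (u true + u false) ≤ c)
    (h1 : ∀ k, σ * m k + (u true + u false) + 1 / u k ≤ c) (hE : c < σ * E) :
    IsUnit (B.T m0 m - (E : ℂ) • ContinuousLinearMap.id ℂ (HH V)) := by
  refine ContinuousLinearMap.isUnit_of_forall_le_norm_inner_map _
    (c := ⟨σ * E - c, by linarith⟩) (by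
      rw [← NNReal.coe_pos]; show 0 < σ * E - c; linarith) fun f => ?_
  have h2 := B.re_T_le m0 m f u hu hσ h0 h1
  have h3 : ⟪(B.T m0 m - (E : ℂ) • ContinuousLinearMap.id ℂ (HH V)) f, f⟫_ℂ =
      ⟪f, B.T m0 m f⟫_ℂ - (E : ℂ) * ((‖f‖ ^ 2 : ℝ) : ℂ) := by
    rw [← T_symm]
    change ⟪B.T m0 m f - (E : ℂ) • f, f⟫_ℂ = _
    rw [inner_sub_left, inner_smul_left, inner_self_eq_norm_sq_to_K, Complex.conj_ofReal]
    push_cast
    rfl
  rw [h3]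
  have h4 : ((σ : ℂ) * (⟪f, B.T m0 m f⟫_ℂ - (E : ℂ) * ((‖f‖ ^ 2 : ℝ) : ℂ))).re =
      σ * (⟪f, B.T m0 m f⟫_ℂ).re - σ * E * ‖f‖ ^ 2 := by
    rw [Complex.re_ofReal_mul, Complex.sub_re, ← Complex.ofReal_mul, Complex.ofReal_re]
    ring
  have h5 : ‖(σ : ℂ) * (⟪f, B.T m0 m f⟫_ℂ - (E : ℂ) * ((‖f‖ ^ 2 : ℝ) : ℂ))‖ =
      ‖⟪f, B.T m0 m f⟫_ℂ - (E : ℂ) * ((‖f‖ ^ 2 : ℝ) : ℂ)‖ := by
    rw [norm_mul, Complex.norm_real, Real.norm_eq_abs, hσ, one_mul]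
  have h6 := Complex.abs_re_le_norm ((σ : ℂ) * (⟪f, B.T m0 m f⟫_ℂ - (E : ℂ) * ((‖f‖ ^ 2 : ℝ) : ℂ)))
  rw [h4, h5] at h6
  change ‖f‖ ^ 2 * (σ * E - c) ≤ _
  have h7 := neg_abs_le (σ * (⟪f, B.T m0 m f⟫_ℂ).re - σ * E * ‖f‖ ^ 2)
  nlinarith [h6, h7, h2]

/-- the weighted shift -/
def K (ξ : Bool → ℂ) : HH V →L[ℂ] HH V := ∑ k, ξ k • B.U k

lemma K_eq (ξ : Bool → ℂ) (f : HH V) : B.K ξ f = ∑ k, ξ k • B.U k f := by
  unfold K
  rw [ContinuousLinearMap.sum_apply]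
  rfl

lemma K_o (ξ : Bool → ℂ) (f : HH V) : B.K ξ f B.o = 0 := by
  rw [K_eq, Fintype.sum_bool]
  change ξ true * B.U true f B.o + ξ false * B.U false f B.o = 0
  rw [U_o, U_o]; ring

lemma SK (ξ : Bool → ℂ) (k : Bool) (f : HH V) : B.S k (B.K ξ f) = ξ k • f := by
  rw [K_eq, map_sum, Fintype.sum_bool, map_smul, map_smul]
  cases k
  · rw [SU, SU' B (by decide)]; simp
  · rw [SU, SU' B (by decide)]; simp

lemma nsq_K (ξ : Bool → ℂ) (f : HH V) : ‖B.K ξ f‖ ^ 2 = (∑ k, ‖ξ k‖ ^ 2) * ‖f‖ ^ 2 := by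
  rw [nsq_dec, K_o, norm_zero, Finset.sum_mul]
  simp only [SK, norm_smul, mul_pow]
  ring

lemma norm_U_le (k : Bool) (f : HH V) : ‖B.U k f‖ ≤ ‖f‖ := by
  have h := B.nsq_K (fun l => if l = k then 1 else 0) f
  have h1 : B.K (fun l => if l = k then 1 else 0) f = B.U k f := by
    rw [K_eq, Fintype.sum_bool]
    cases k <;> simp
  have h2 : (∑ l : Bool, ‖(if l = k then (1 : ℂ) else 0)‖ ^ 2) = 1 := by
    rw [Fintype.sum_bool]
    cases k <;> simp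
  rw [h1, h2, one_mul] at h
  exact le_of_eq (by
    have := congrArg Real.sqrt h
    rwa [Real.sqrt_sq (norm_nonneg _), Real.sqrt_sq (norm_nonneg _)] at this)

/-- the regularised generalised eigenfunction -/
lemma exists_phi (ξ : Bool → ℂ) (h1 : ∑ k, ‖ξ k‖ ^ 2 = 1) {r : ℝ} (hr0 : 0 < r) (hr1 : r < 1) :
    ∃ φ : HH V, φ = dl B.o - (r : ℂ) • B.K ξ φ := by
  have hK : ‖(-(r : ℂ)) • B.K ξ‖ < 1 := by
    have : ‖B.K ξ‖ ≤ 1 := by
      refine ContinuousLinearMap.opNorm_le_bound _ (by norm_num) fun f => ?_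
      have h := B.nsq_K ξ f
      rw [h1, one_mul] at h
      rw [one_mul]
      exact le_of_eq (by
        have := congrArg Real.sqrt h
        rwa [Real.sqrt_sq (norm_nonneg _), Real.sqrt_sq (norm_nonneg _)] at this)
    rw [norm_smul, norm_neg, Complex.norm_real, Real.norm_eq_abs, abs_of_pos hr0]
    calc r * ‖B.K ξ‖ ≤ r * 1 := by gcongr
      _ < 1 := by linarith
  have hu : IsUnit (1 - (-(r : ℂ)) • B.K ξ) := isUnit_one_sub_of_norm_lt_one hK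
  obtain ⟨w, hw⟩ := hu
  refine ⟨(↑w⁻¹ : HH V →L[ℂ] HH V) (dl B.o), ?_⟩
  have h2 : (w : HH V →L[ℂ] HH V) ((↑w⁻¹ : HH V →L[ℂ] HH V) (dl B.o)) = dl B.o := by
    rw [← ContinuousLinearMap.mul_apply, Units.mul_inv]
    rfl
  rw [hw] at h2
  obtain ⟨φ, hφ⟩ : ∃ φ, φ = (↑w⁻¹ : HH V →L[ℂ] HH V) (dl B.o) := ⟨_, rfl⟩
  rw [← hφ] at h2 ⊢
  have h3 : (1 - (-(r : ℂ)) • B.K ξ) φ = φ + (r : ℂ) • B.K ξ φ := by
    change φ - (-(r : ℂ)) • B.K ξ φ = _
    rw [neg_smul, sub_neg_eq_add]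
  rw [h3] at h2
  rw [← h2]
  abel

variable (m0 : ℝ) (m : Bool → ℝ) (ξ : Bool → ℂ) {E : ℝ} {j : Bool}

lemma T_phi (hm : m0 = m j) (hξ : ∀ k, ξ k * (E - m k + (ξ true + ξ false)) + 1 = 0) {r : ℝ}
    {φ : HH V} (hφ : φ = dl B.o - (r : ℂ) • B.K ξ φ) :
    B.T m0 m φ - (E : ℂ) • φ = (1 / ξ j + (1 - r) * (ξ true + ξ false)) • dl B.o +
      ((1 - r : ℝ) : ℂ) • ∑ k, (1 - r * ξ k * (ξ true + ξ false)) • B.U k φ := by
  have hne : ∀ k, ξ k ≠ 0 := fun k h => by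
    have := hξ k
    rw [h] at this
    simp at this
  have ho : φ B.o = 1 := by
    rw [hφ]
    change dl B.o B.o - (r : ℂ) * B.K ξ φ B.o = 1
    rw [K_o, dl_apply, if_pos rfl]; ring
  have hS : ∀ k, B.S k φ = (-(r * ξ k) : ℂ) • φ := fun k => by
    have h := congrArg (B.S k) hφ
    rw [map_sub, S_dl_o, map_smul, SK, smul_smul, zero_sub, ← neg_smul] at h
    exact h
  have e1 : B.T m0 m φ = (m0 : ℂ) • dl B.o + ∑ k, ((1 - r * (m k * ξ k)) • B.U k φ) -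
      (r * (ξ true + ξ false)) • φ := by
    rw [T_eq, ho, mul_one, Fintype.sum_bool, Fintype.sum_bool]
    simp only [hS, map_smul]
    module
  have e2 : (r * (ξ true + ξ false)) • φ + (E : ℂ) • φ =
      (r * (ξ true + ξ false) + E) • dl B.o -
      ∑ k, ((r * (ξ true + ξ false) + E) * (r * ξ k)) • B.U k φ := by
    rw [← add_smul]
    conv_lhs => rw [hφ]
    rw [K_eq, Fintype.sum_bool, Fintype.sum_bool]
    module
  have e3 : (m0 : ℂ) - (r * (ξ true + ξ false) + E) = 1 / ξ j + (1 - r) * (ξ true + ξ false) := by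
    have h := hξ j
    have h2 := hne j
    rw [hm]
    field_simp
    linear_combination (-1 : ℂ) * h
  have e4 : ∀ k, (1 - r * (m k * ξ k)) + (r * (ξ true + ξ false) + E) * (r * ξ k) =
      ((1 - r : ℝ) : ℂ) * (1 - r * ξ k * (ξ true + ξ false)) := fun k => by
    have h := hξ k
    push_cast
    linear_combination (r : ℂ) * h
  calc B.T m0 m φ - (E : ℂ) • φ = (m0 : ℂ) • dl B.o + ∑ k, ((1 - r * (m k * ξ k)) • B.U k φ) -
      ((r * (ξ true + ξ false)) • φ + (E : ℂ) • φ) := by rw [e1]; abel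
    _ = ((m0 : ℂ) - (r * (ξ true + ξ false) + E)) • dl B.o + ∑ k,
      ((1 - r * (m k * ξ k)) + (r * (ξ true + ξ false) + E) * (r * ξ k)) • B.U k φ := by
        rw [e2, Fintype.sum_bool, Fintype.sum_bool, Fintype.sum_bool]
        module
    _ = _ := by
        rw [e3, Fintype.sum_bool, Fintype.sum_bool, e4, e4]
        simp only [smul_add, smul_smul]

/-- there is no square summable solution of `(T - E) g = δ_o` for `E ∈ Σ₁` -/
lemma not_range (hm : m0 = m j) (hξ : ∀ k, ξ k * (E - m k + (ξ true + ξ false)) + 1 = 0)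
    (hpos : ∀ k, 0 < (ξ k).im) (g : HH V) : B.T m0 m g - (E : ℂ) • g ≠ dl B.o := by
  intro hg
  have hne : ∀ k, ξ k ≠ 0 := fun k h => by
    have := hξ k
    rw [h] at this
    simp at this
  obtain ⟨s, hs⟩ : ∃ s, s = ξ true + ξ false := ⟨_, rfl⟩
  -- the sum of the squares is one
  have hsum : ∑ k, ‖ξ k‖ ^ 2 = 1 := by
    have h1 : ∀ k, (ξ k).im = (s.im) * ‖ξ k‖ ^ 2 := fun k => by
      have h2 : (E : ℂ) - m k + s = -(1 / ξ k) := by
        have h := hξ k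
        rw [← hs] at h
        have h3 := hne k
        field_simp
        linear_combination h
      have h3 := congrArg Complex.im h2
      rw [Complex.add_im, Complex.sub_im, Complex.ofReal_im, Complex.ofReal_im, Complex.neg_im,
        one_div, Complex.inv_im, Complex.normSq_eq_norm_sq] at h3
      have h4 : 0 < ‖ξ k‖ ^ 2 := by
        have := norm_pos_iff.2 (hne k)
        positivity
      rw [zero_sub, neg_zero, zero_add, neg_div, neg_neg] at h3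
      rw [h3, div_mul_cancel₀ _ h4.ne']
    have h2 : s.im = s.im * ∑ k, ‖ξ k‖ ^ 2 := by
      rw [Fintype.sum_bool, mul_add, ← h1 true, ← h1 false, hs, Complex.add_im]
    have h3 : 0 < s.im := by
      rw [hs, Complex.add_im]; linarith [hpos true, hpos false]
    have h4 : s.im * (∑ k, ‖ξ k‖ ^ 2 - 1) = 0 := by linarith
    rcases mul_eq_zero.1 h4 with h5 | h5
    · linarith
    · linarith
  -- g(o) is real
  have hsym : ∀ f h : HH V, ⟪B.T m0 m f - (E : ℂ) • f, h⟫_ℂ = ⟪f, B.T m0 m h - (E : ℂ) • h⟫_ℂ :=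
    fun f h => by
    rw [inner_sub_left, inner_sub_right, T_symm, inner_smul_left, inner_smul_right,
      Complex.conj_ofReal]
  have hreal : (starRingEnd ℂ) (g B.o) = g B.o := by
    have h := hsym g g
    rw [hg, inner_dl] at h
    have h2 : ⟪g, dl B.o⟫_ℂ = (starRingEnd ℂ) (g B.o) := by
      rw [← inner_conj_symm, inner_dl]
    rw [h2] at h
    exact h.symm
  obtain ⟨D, hD⟩ : ∃ D, D = ‖s * g B.o‖ + ∑ k, (1 + ‖ξ k * s‖) * ‖g‖ := ⟨_, rfl⟩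
  have hD0 : 0 ≤ D := by
    rw [hD]
    have : ∀ k, 0 ≤ (1 + ‖ξ k * s‖) * ‖g‖ := fun k => by positivity
    have h2 : 0 ≤ ∑ k, (1 + ‖ξ k * s‖) * ‖g‖ := Finset.sum_nonneg fun k _ => this k
    positivity
  have key : ∀ ε : ℝ, 0 < ε → ε < 1 → ‖1 - g B.o / ξ j‖ ≤ D * ε := by
    intro ε hε hε1
    obtain ⟨r, hr⟩ : ∃ r : ℝ, r = 1 - ε ^ 2 := ⟨_, rfl⟩
    have hr1 : r < 1 := by rw [hr]; nlinarith
    have hr0 : 0 < r := by rw [hr]; nlinarith
    obtain ⟨φ, hφ⟩ := B.exists_phi ξ hsum hr0 hr1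
    have hT := B.T_phi m0 m ξ hm hξ hφ
    rw [← hs] at hT
    have ho : φ B.o = 1 := by
      rw [hφ]
      change dl B.o B.o - (r : ℂ) * B.K ξ φ B.o = 1
      rw [K_o, dl_apply, if_pos rfl]; ring
    have hn : ‖φ‖ ^ 2 * (1 - r ^ 2) = 1 := by
      have hS : ∀ k, B.S k φ = (-(r * ξ k) : ℂ) • φ := fun k => by
        have h := congrArg (B.S k) hφ
        rw [map_sub, S_dl_o, map_smul, SK, smul_smul, zero_sub, ← neg_smul] at h
        exact h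
      have h := B.nsq_dec φ
      rw [ho] at h
      simp only [hS, norm_smul, norm_neg, norm_mul, Complex.norm_real, Real.norm_eq_abs,
        abs_of_pos hr0, mul_pow] at h
      rw [← Finset.sum_mul, ← Finset.mul_sum, hsum, norm_one] at h
      linarith
    have hnφ : ε * ‖φ‖ ≤ 1 := by
      have h1 : ε ^ 2 * ‖φ‖ ^ 2 ≤ 1 := by
        have h2 : ε ^ 2 ≤ 1 - r ^ 2 := by rw [hr]; nlinarith
        calc ε ^ 2 * ‖φ‖ ^ 2 ≤ (1 - r ^ 2) * ‖φ‖ ^ 2 := by gcongr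
          _ = 1 := by rw [mul_comm]; exact hn
      rw [← mul_pow] at h1
      exact (sq_le_one_iff₀ (by positivity)).1 h1
    have hpair : (1 : ℂ) = (1 / ξ j + (1 - r) * s) * g B.o +
        ((1 - r : ℝ) : ℂ) * ∑ k, (1 - r * ξ k * s) * ⟪g, B.U k φ⟫_ℂ := by
      have h := hsym g φ
      rw [hg, inner_dl, ho, hT, inner_add_right, inner_smul_right, inner_smul_right, inner_sum] at h
      have h2 : ⟪g, dl B.o⟫_ℂ = g B.o := by
        rw [← inner_conj_symm, inner_dl, hreal]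
      rw [h2] at h
      simp only [inner_smul_right] at h
      exact h
    have hr' : (1 - r : ℝ) = ε ^ 2 := by rw [hr]; ring
    have e1 : 1 - g B.o / ξ j = ((ε ^ 2 : ℝ) : ℂ) * (s * g B.o) +
        ((ε ^ 2 : ℝ) : ℂ) * ∑ k, (1 - r * ξ k * s) * ⟪g, B.U k φ⟫_ℂ := by
      rw [hr'] at hpair
      have h3 : (1 - (r : ℂ)) = ((ε ^ 2 : ℝ) : ℂ) := by rw [← hr']; push_cast; ring
      rw [h3] at hpair
      linear_combination hpair
    rw [e1]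
    have hb : ∀ k, ‖(1 - r * ξ k * s) * ⟪g, B.U k φ⟫_ℂ‖ ≤ (1 + ‖ξ k * s‖) * ‖g‖ * ‖φ‖ := fun k => by
      rw [norm_mul]
      have f1 : ‖(1 - r * ξ k * s : ℂ)‖ ≤ 1 + ‖ξ k * s‖ := by
        refine (norm_sub_le _ _).trans ?_
        rw [norm_one, mul_assoc, norm_mul, Complex.norm_real, Real.norm_eq_abs, abs_of_pos hr0]
        have : r * ‖ξ k * s‖ ≤ 1 * ‖ξ k * s‖ := by gcongr
        linarith
      have f2 : ‖⟪g, B.U k φ⟫_ℂ‖ ≤ ‖g‖ * ‖φ‖ :=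
        (norm_inner_le_norm _ _).trans (by gcongr; exact B.norm_U_le k φ)
      calc _ ≤ (1 + ‖ξ k * s‖) * (‖g‖ * ‖φ‖) := by gcongr
        _ = _ := by ring
    refine (norm_add_le _ _).trans ?_
    rw [norm_mul ((ε ^ 2 : ℝ) : ℂ) (s * g B.o), norm_mul ((ε ^ 2 : ℝ) : ℂ), Complex.norm_real,
      Real.norm_eq_abs, abs_of_nonneg (sq_nonneg ε)]
    have hb2 : ‖∑ k, (1 - r * ξ k * s) * ⟪g, B.U k φ⟫_ℂ‖ ≤ (∑ k, (1 + ‖ξ k * s‖) * ‖g‖) * ‖φ‖ := by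
      rw [Finset.sum_mul]
      exact (norm_sum_le _ _).trans (Finset.sum_le_sum fun k _ => hb k)
    have hs0 : 0 ≤ ∑ k, (1 + ‖ξ k * s‖) * ‖g‖ := Finset.sum_nonneg fun k _ => by positivity
    calc ε ^ 2 * ‖s * g B.o‖ + ε ^ 2 * ‖∑ k, (1 - r * ξ k * s) * ⟪g, B.U k φ⟫_ℂ‖ ≤
        ε * ‖s * g B.o‖ + ε ^ 2 * ((∑ k, (1 + ‖ξ k * s‖) * ‖g‖) * ‖φ‖) := by
          gcongr
          nlinarith
      _ = ε * ‖s * g B.o‖ + ε * (∑ k, (1 + ‖ξ k * s‖) * ‖g‖) * (ε * ‖φ‖) := by ring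
      _ ≤ ε * ‖s * g B.o‖ + ε * (∑ k, (1 + ‖ξ k * s‖) * ‖g‖) * 1 := by gcongr
      _ = D * ε := by rw [hD]; ring
  have hz : ‖1 - g B.o / ξ j‖ = 0 := by
    by_contra hne0
    have hp : 0 < ‖1 - g B.o / ξ j‖ := lt_of_le_of_ne (norm_nonneg _) (Ne.symm hne0)
    obtain ⟨ε, he⟩ : ∃ ε : ℝ, ε = min (1 / 2) (‖1 - g B.o / ξ j‖ / (2 * (D + 1))) := ⟨_, rfl⟩
    have hε : 0 < ε := by
      rw [he]; exact lt_min (by norm_num) (by positivity)
    have h1 := key ε hε (by rw [he]; exact (min_le_left _ _).trans_lt (by norm_num))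
    have h2 : ε ≤ ‖1 - g B.o / ξ j‖ / (2 * (D + 1)) := by rw [he]; exact min_le_right _ _
    rw [le_div_iff₀ (by positivity)] at h2
    nlinarith
  have hg2 : g B.o = ξ j := by
    have h1 := norm_eq_zero.1 hz
    have h2 := hne j
    field_simp at h1
    linear_combination (-1 : ℂ) * h1
  have h3 := congrArg Complex.im hreal
  rw [Complex.conj_im, hg2] at h3
  linarith [hpos j]

end BT

end

end Pool.Agent.V11260.Tree
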