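import Pool.Agent.V11260.Tree2

/-!
# The cubic equation
-/

namespace Pool.Agent.V11260.Tree

noncomputable section

/-- the potential -/
def mm (k : Bool) : ℝ := if k then √2 else -√2

lemma s2 : (√2 : ℝ) ^ 2 = 2 := Real.sq_sqrt (by norm_num)

lemma s2c : ((√2 : ℝ) : ℂ) ^ 2 = 2 := by
  rw [← Complex.ofReal_pow, s2]; norm_num

lemma sig_only {E : ℝ} (ξ : Bool → ℂ) (hpos : ∀ k, 0 < (ξ k).im)
    (hξ : ∀ k, ξ k * (E - mm k + (ξ true + ξ false)) + 1 = 0) : E ≠ 0 ∧ E ^ 2 < 27 / 2 := by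
  obtain ⟨w, hw⟩ : ∃ w : ℂ, w = E + (ξ true + ξ false) := ⟨_, rfl⟩
  have h1 : ξ true * (w - √2) + 1 = 0 := by
    have := hξ true
    rw [hw]
    simp only [mm, if_true] at this
    linear_combination this
  have h2 : ξ false * (w + √2) + 1 = 0 := by
    have := hξ false
    rw [hw]
    have hm : mm false = -√2 := by simp [mm]
    rw [hm] at this
    push_cast at this
    linear_combination this
  have hc : w ^ 3 = E * (w ^ 2 - 2) := by
    have e : w - E = ξ true + ξ false := by rw [hw]; ring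
    have h3 : (w - E) * ((w - √2) * (w + √2)) = -2 * w := by
      rw [e]
      linear_combination (w + √2) * h1 + (w - √2) * h2
    have h4 : ((w - √2) * (w + √2) : ℂ) = w ^ 2 - 2 := by
      rw [← s2c]; ring
    rw [h4] at h3
    linear_combination h3
  have hy : 0 < w.im := by
    rw [hw, Complex.add_im, Complex.ofReal_im, Complex.add_im]
    linarith [hpos true, hpos false]
  obtain ⟨x, hx⟩ : ∃ x, x = w.re := ⟨_, rfl⟩
  obtain ⟨y, hy'⟩ : ∃ y, y = w.im := ⟨_, rfl⟩
  have hwxy : w = x + y * Complex.I := by rw [hx, hy', Complex.re_add_im]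
  rw [← hy'] at hy
  have hre := congrArg Complex.re hc
  have him := congrArg Complex.im hc
  rw [hwxy] at hre him
  simp only [pow_succ, pow_zero, one_mul, Complex.mul_re, Complex.mul_im, Complex.add_re,
    Complex.add_im, Complex.sub_re, Complex.sub_im, Complex.ofReal_re, Complex.ofReal_im,
    Complex.I_re, Complex.I_im, mul_zero, mul_one, sub_zero, zero_add, add_zero, zero_mul,
    Complex.re_ofNat, Complex.im_ofNat] at hre him
  have h5 : y ^ 2 = 3 * x ^ 2 - 2 * E * x := by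
    have : y * (y ^ 2 - (3 * x ^ 2 - 2 * E * x)) = 0 := by linarith
    rcases mul_eq_zero.1 this with h | h
    · exact absurd h hy.ne'
    · linarith
  have h6 : x ^ 3 - 3 * x * y ^ 2 = E * (x ^ 2 - y ^ 2 - 2) := by linarith
  obtain ⟨v, hv⟩ : ∃ v, v = 2 * x - E := ⟨_, rfl⟩
  have hxv : x = (v + E) / 2 := by rw [hv]; ring
  have h7 : E * (2 - v ^ 2) = v ^ 3 := by
    rw [h5, hxv] at h6
    linarith
  have h8 : 0 < (v + E) * (3 * v - E) := by
    have h : 4 * y ^ 2 = (v + E) * (3 * v - E) := by rw [h5, hxv]; ring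
    have : 0 < y ^ 2 := by positivity
    linarith
  have hE0 : E ≠ 0 := by
    intro h
    rw [h, zero_mul] at h7
    have : v = 0 := by
      by_contra hne
      exact absurd h7.symm (pow_ne_zero 3 hne)
    rw [this, h] at h8
    norm_num at h8
  have hv2 : (2 - v ^ 2) ≠ 0 := by
    intro h
    rw [h, mul_zero] at h7
    have : v = 0 := by
      by_contra hne
      exact absurd h7.symm (pow_ne_zero 3 hne)
    rw [this] at h
    norm_num at h
  have h9 : 0 < v ^ 2 * (3 - 2 * v ^ 2) := by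
    have h : (v + E) * (3 * v - E) * (2 - v ^ 2) ^ 2 = 4 * (v ^ 2 * (3 - 2 * v ^ 2)) := by
      have e1 : (v + E) * (2 - v ^ 2) = 2 * v := by linarith
      have e2 : (3 * v - E) * (2 - v ^ 2) = 6 * v - 4 * v ^ 3 := by linarith
      calc (v + E) * (3 * v - E) * (2 - v ^ 2) ^ 2 =
          ((v + E) * (2 - v ^ 2)) * ((3 * v - E) * (2 - v ^ 2)) := by ring
        _ = _ := by rw [e1, e2]; ring
    have h2 : 0 < (2 - v ^ 2) ^ 2 := by positivity
    have h3 := mul_pos h8 h2
    linarith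
  have h10 : v ^ 2 < 3 / 2 := by
    by_contra hcon
    push Not at hcon
    have h1 : v ^ 2 * (3 - 2 * v ^ 2) ≤ 0 := mul_nonpos_of_nonneg_of_nonpos (sq_nonneg v) (by linarith)
    linarith
  refine ⟨hE0, ?_⟩
  have h11 : E ^ 2 * (2 - v ^ 2) ^ 2 = (v ^ 2) ^ 3 := by
    rw [← mul_pow, h7]; ring
  obtain ⟨t, ht⟩ : ∃ t, t = v ^ 2 := ⟨_, rfl⟩
  rw [← ht] at h10 h11
  have ht0 : 0 ≤ t := by rw [ht]; positivity
  have h12 : t ^ 3 < 27 / 8 := by
    calc t ^ 3 < (3 / 2) ^ 3 := by gcongr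
      _ = 27 / 8 := by norm_num
  have h13 : 1 / 4 ≤ (2 - t) ^ 2 := by nlinarith
  by_contra hcon
  push Not at hcon
  have h14 : 27 / 2 * (1 / 4) ≤ E ^ 2 * (2 - t) ^ 2 := by gcongr
  linarith

lemma sig_if_aux {E v : ℝ} (hv0 : v ≠ 0) (hv : v ^ 2 < 3 / 2) (h7 : E * (2 - v ^ 2) = v ^ 3) :
    ∃ ξ : Bool → ℂ, (∀ k, 0 < (ξ k).im) ∧ ∀ k, ξ k * (E - mm k + (ξ true + ξ false)) + 1 = 0 := by
  have h2v : 0 < 2 - v ^ 2 := by linarith
  have hvp : 0 < v ^ 2 := by positivity
  have h8 : 0 < (v + E) * (3 * v - E) := by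
    have h : (v + E) * (3 * v - E) * (2 - v ^ 2) ^ 2 = 4 * (v ^ 2 * (3 - 2 * v ^ 2)) := by
      have e1 : (v + E) * (2 - v ^ 2) = 2 * v := by linarith
      have e2 : (3 * v - E) * (2 - v ^ 2) = 6 * v - 4 * v ^ 3 := by linarith
      calc (v + E) * (3 * v - E) * (2 - v ^ 2) ^ 2 =
          ((v + E) * (2 - v ^ 2)) * ((3 * v - E) * (2 - v ^ 2)) := by ring
        _ = _ := by rw [e1, e2]; ring
    have h3 : 0 < 4 * (v ^ 2 * (3 - 2 * v ^ 2)) := by
      have : 0 < 3 - 2 * v ^ 2 := by linarith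
      positivity
    rw [← h] at h3
    exact (pos_iff_pos_of_mul_pos h3).2 (by positivity)
  obtain ⟨x, hx⟩ : ∃ x, x = (v + E) / 2 := ⟨_, rfl⟩
  obtain ⟨y, hy⟩ : ∃ y, y = Real.sqrt ((v + E) * (3 * v - E) / 4) := ⟨_, rfl⟩
  have hy2 : y ^ 2 = (v + E) * (3 * v - E) / 4 := by
    rw [hy, Real.sq_sqrt]; positivity
  have hy0 : 0 < y := by rw [hy]; exact Real.sqrt_pos.2 (by positivity)
  obtain ⟨w, hw⟩ : ∃ w : ℂ, w = x + y * Complex.I := ⟨_, rfl⟩
  have hwim : w.im = y := by rw [hw]; simp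
  have hvE : (v : ℂ) ^ 3 = E * (2 - v ^ 2) := by exact_mod_cast h7.symm
  have hy2c : (y : ℂ) ^ 2 = (v + E) * (3 * v - E) / 4 := by exact_mod_cast hy2
  have hxc : (x : ℂ) = (v + E) / 2 := by rw [hx]; push_cast; ring
  have hc : w ^ 3 = E * (w ^ 2 - 2) := by
    have e1 : w ^ 2 = 2 * x * w - x ^ 2 - y ^ 2 := by
      rw [hw]
      linear_combination (y : ℂ) ^ 2 * Complex.I_sq
    have e2 : w ^ 3 = (4 * x ^ 2 - x ^ 2 - y ^ 2) * w - 2 * x * (x ^ 2 + y ^ 2) := by
      linear_combination (w + 2 * x) * e1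
    rw [e2, e1, hy2c, hxc]
    linear_combination ((-1 : ℂ)) * hvE
  have hn1 : w - √2 ≠ 0 := fun h => by
    have := congrArg Complex.im h
    rw [Complex.sub_im, hwim, Complex.ofReal_im, Complex.zero_im] at this
    linarith
  have hn2 : w + √2 ≠ 0 := fun h => by
    have := congrArg Complex.im h
    rw [Complex.add_im, hwim, Complex.ofReal_im, Complex.zero_im] at this
    linarith
  obtain ⟨a, ha⟩ : ∃ a : ℂ, a = -(w - √2)⁻¹ := ⟨_, rfl⟩
  obtain ⟨b, hb⟩ : ∃ b : ℂ, b = -(w + √2)⁻¹ := ⟨_, rfl⟩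
  have hab : (E : ℂ) + (a + b) = w := by
    have h4 : ((w - √2) * (w + √2) : ℂ) = w ^ 2 - 2 := by
      rw [← s2c]; ring
    have h5 : ((E : ℂ) + (a + b) - w) * ((w - √2) * (w + √2)) = 0 := by
      have e1 : a * (w - √2) = -1 := by rw [ha, neg_mul, inv_mul_cancel₀ hn1]
      have e2 : b * (w + √2) = -1 := by rw [hb, neg_mul, inv_mul_cancel₀ hn2]
      have e3 : ((E : ℂ) + (a + b) - w) * ((w - √2) * (w + √2)) =
          (E - w) * ((w - √2) * (w + √2)) + (a * (w - √2)) * (w + √2) + (b * (w + √2)) * (w - √2) := by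
        ring
      rw [e3, e1, e2, h4]
      linear_combination (-1 : ℂ) * hc
    rcases mul_eq_zero.1 h5 with h | h
    · linear_combination h
    · exact absurd h (mul_ne_zero hn1 hn2)
  refine ⟨fun k => if k then a else b, fun k => ?_, fun k => ?_⟩
  · cases k
    · simp only [Bool.false_eq_true, if_false]
      rw [hb, Complex.neg_im, Complex.inv_im, Complex.add_im, hwim, Complex.ofReal_im, add_zero,
        neg_div, neg_neg]
      exact div_pos hy0 (Complex.normSq_pos.2 hn2)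
    · simp only [if_true]
      rw [ha, Complex.neg_im, Complex.inv_im, Complex.sub_im, hwim, Complex.ofReal_im, sub_zero,
        neg_div, neg_neg]
      exact div_pos hy0 (Complex.normSq_pos.2 hn1)
  · cases k
    · simp only [Bool.false_eq_true, if_false, if_true, mm]
      push_cast
      have e2 : b * (w + √2) = -1 := by rw [hb, neg_mul, inv_mul_cancel₀ hn2]
      have e3 : (E : ℂ) - -(√2 : ℂ) + (a + b) = w + √2 := by rw [← hab]; ring
      rw [e3, e2]; ring
    · simp only [Bool.false_eq_true, if_false, if_true, mm]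
      have e2 : a * (w - √2) = -1 := by rw [ha, neg_mul, inv_mul_cancel₀ hn1]
      have e3 : (E : ℂ) - (√2 : ℂ) + (a + b) = w - √2 := by rw [← hab]; ring
      rw [e3, e2]; ring

lemma exists_v {E : ℝ} (h0 : 0 < E) (h1 : E ^ 2 < 27 / 2) :
    ∃ v : ℝ, v ≠ 0 ∧ v ^ 2 < 3 / 2 ∧ E * (2 - v ^ 2) = v ^ 3 := by
  obtain ⟨b, hb⟩ : ∃ b : ℝ, b = √(3 / 2) := ⟨_, rfl⟩
  have hb2 : b ^ 2 = 3 / 2 := by rw [hb, Real.sq_sqrt (by norm_num)]
  have hb0 : 0 < b := by rw [hb]; positivity
  have hcont : ContinuousOn (fun v : ℝ => v ^ 3 - E * (2 - v ^ 2)) (Set.Icc 0 b) := by fun_prop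
  have hEb : E < 3 * b := by
    refine lt_of_pow_lt_pow_left₀ 2 (by positivity) ?_
    rw [mul_pow, hb2]; linarith
  have hpos : 0 < b ^ 3 - E * (2 - b ^ 2) := by
    have : b ^ 3 = 3 / 2 * b := by rw [pow_succ, hb2]
    rw [this, hb2]; linarith
  obtain ⟨v, hv, hv2⟩ := intermediate_value_Icc hb0.le hcont
    (show (0 : ℝ) ∈ Set.Icc ((0 : ℝ) ^ 3 - E * (2 - 0 ^ 2)) (b ^ 3 - E * (2 - b ^ 2)) from
      ⟨by norm_num; linarith, hpos.le⟩)
  have hv2' : v ^ 3 - E * (2 - v ^ 2) = 0 := hv2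
  refine ⟨v, ?_, ?_, by linarith⟩
  · intro h
    rw [h] at hv2'
    norm_num at hv2'
    linarith
  · have h2 : v ≠ b := by
      intro h
      rw [h] at hv2'
      linarith
    have h3 : v < b := lt_of_le_of_ne hv.2 h2
    rw [← hb2]
    have := hv.1
    gcongr

lemma sig_iff (E : ℝ) : (∃ ξ : Bool → ℂ, (∀ k, 0 < (ξ k).im) ∧
    ∀ k, ξ k * (E - mm k + (ξ true + ξ false)) + 1 = 0) ↔ E ≠ 0 ∧ E ^ 2 < 27 / 2 := by
  constructor
  · rintro ⟨ξ, h1, h2⟩
    exact sig_only ξ h1 h2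
  · rintro ⟨h0, h1⟩
    rcases lt_or_gt_of_ne h0 with h | h
    · obtain ⟨v, a, b, c⟩ := exists_v (E := -E) (by linarith) (by rwa [neg_sq])
      exact sig_if_aux (v := -v) (neg_ne_zero.2 a) (by rwa [neg_sq]) (by
        rw [neg_sq]; linarith)
    · obtain ⟨v, a, b, c⟩ := exists_v h h1
      exact sig_if_aux a b c

/-- the edge of the spectrum -/
def cc : ℝ := 3 * √6 / 2

lemma cc_sq : cc ^ 2 = 27 / 2 := by
  unfold cc
  rw [div_pow, mul_pow, Real.sq_sqrt (by norm_num)]
  norm_num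

lemma cc_pos : 0 < cc := by unfold cc; positivity

/-- the supersolution -/
def uu (k : Bool) : ℝ := if k then (√6 + √2) / 4 else (√6 - √2) / 4

lemma s26 : √2 < √6 := Real.sqrt_lt_sqrt (by norm_num) (by norm_num)

lemma uu_pos (k : Bool) : 0 < uu k := by
  have := s26
  have h2 : 0 < √2 := by positivity
  cases k
  · simp only [uu]; simp only [Bool.false_eq_true, if_false]; linarith
  · simp only [uu, if_true]; positivity

lemma uu_sum : uu true + uu false = √6 / 2 := by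
  simp only [uu, if_true, Bool.false_eq_true, if_false]; ring

lemma uu_inv (k : Bool) : 1 / uu k = √6 - mm k := by
  have h6 : (√6 : ℝ) ^ 2 = 6 := Real.sq_sqrt (by norm_num)
  have h2 := s2
  rw [div_eq_iff (uu_pos k).ne']
  cases k
  · simp only [uu, mm, Bool.false_eq_true, if_false]; nlinarith
  · simp only [uu, mm, if_true]; nlinarith

lemma super (k : Bool) : mm k + (uu true + uu false) + 1 / uu k = cc := by
  rw [uu_inv, uu_sum, cc]; ring

lemma mm_not (k : Bool) : mm (!k) = -mm k := by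
  cases k <;> simp [mm]

/-- outside of the interval `[-c, c]` the operator is invertible -/
lemma isUnit_out {V : Type} [DecidableEq V] (B : BT V) (j : Bool) {E : ℝ} (hE : cc < |E|) :
    IsUnit (B.T (mm j) mm - (E : ℂ) • ContinuousLinearMap.id ℂ (HH V)) := by
  rcases le_total 0 E with h | h
  · rw [abs_of_nonneg h] at hE
    refine B.isUnit_T (mm j) mm (c := cc) (σ := 1) uu uu_pos (by norm_num) ?_ (fun k => ?_)
      (by linarith)
    · have := super j
      have h2 : 0 < 1 / uu j := one_div_pos.2 (uu_pos j)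
      linarith
    · rw [one_mul]; exact (super k).le
  · rw [abs_of_nonpos h] at hE
    refine B.isUnit_T (mm j) mm (c := cc) (σ := -1) (fun k => uu (!k)) (fun k => uu_pos _)
      (by norm_num) ?_ (fun k => ?_) (by linarith)
    · have := super (!j)
      have h2 : 0 < 1 / uu (!j) := one_div_pos.2 (uu_pos _)
      rw [mm_not] at this
      simp only [Bool.not_true, Bool.not_false]
      linarith
    · have := super (!k)
      rw [mm_not] at this
      simp only [Bool.not_true, Bool.not_false]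
      linarith

end

end Pool.Agent.V11260.Tree
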